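import Pool.Agent.TH666.FP.Cmp

/-!
# The algorithm
-/

namespace Pool.Agent.TH666.FP

open Pool.Agent.NPC

/-! ### Reduction of twins -/

section Red

variable (V : List ℕ) (A : ℕ → ℕ → Prop)

open Classical in
/-- the neighbours of a vertex -/
noncomputable def nbl (v : ℕ) : List ℕ := V.filter (fun u => decide (A v u))

open Classical in
/-- a vertex of degree at most two with at least three twins -/
def Redu (z : ℕ) : Prop :=
  (nbl V A z).length ≤ 2 ∧ 3 < (V.filter (fun u => decide (nbl V A u = nbl V A z))).length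

/-- remove a vertex -/
def rmv (z : ℕ) : List ℕ := V.filter (fun u => decide (u ≠ z))

open Classical in
/-- remove a vertex of degree at most two with at least three twins -/
noncomputable def rstep : List ℕ :=
  match (V.filter (fun z => decide (Redu V A z))).head? with
  | none => V
  | some z => rmv V z

/-- remove such vertices as long as possible -/
noncomputable def redv : List ℕ := (fun V => rstep V A)^[V.length] V

variable {V A}

theorem mem_nbl {v u : ℕ} : u ∈ nbl V A v ↔ u ∈ V ∧ A v u := by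
  classical
  unfold nbl
  rw [List.mem_filter, decide_eq_true_eq]

theorem nbl_toFinset (v : ℕ) : (nbl V A v).toFinset = nb V.toFinset A v := by
  ext u
  rw [List.mem_toFinset, mem_nbl, mem_nb, List.mem_toFinset]

theorem nbl_eq_iff (u v : ℕ) : nbl V A u = nbl V A v ↔ nb V.toFinset A u = nb V.toFinset A v := by
  classical
  rw [← nbl_toFinset, ← nbl_toFinset]
  constructor
  · intro h; rw [h]
  · intro h
    unfold nbl
    refine List.filter_congr fun w hw => ?_
    rw [decide_eq_decide]
    have h1 : w ∈ (nbl V A u).toFinset ↔ w ∈ (nbl V A v).toFinset := by rw [h]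
    rw [List.mem_toFinset, List.mem_toFinset, mem_nbl, mem_nbl] at h1
    tauto

theorem nbl_length (hV : V.Nodup) (v : ℕ) : (nbl V A v).length = (nb V.toFinset A v).card := by
  rw [← nbl_toFinset, List.toFinset_card_of_nodup (hV.sublist (by
    unfold nbl; exact List.filter_sublist))]

open Classical in
theorem class_length (hV : V.Nodup) (z : ℕ) :
    (V.filter (fun u => decide (nbl V A u = nbl V A z))).length =
      (V.toFinset.filter (fun u => nb V.toFinset A u = nb V.toFinset A z)).card := by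
  rw [← List.toFinset_card_of_nodup (hV.sublist List.filter_sublist)]
  congr 1
  ext u
  rw [List.mem_toFinset, List.mem_filter, Finset.mem_filter, List.mem_toFinset, decide_eq_true_eq,
    nbl_eq_iff]

theorem rstep_cases : (rstep V A = V ∧ ∀ z ∈ V, ¬ Redu V A z) ∨
    ∃ z ∈ V, Redu V A z ∧ rstep V A = rmv V z := by
  classical
  unfold rstep
  cases h : (V.filter (fun z => decide (Redu V A z))).head? with
  | none =>
    left
    refine ⟨rfl, fun z hz hr => ?_⟩
    rw [List.head?_eq_none_iff, List.filter_eq_nil_iff] at h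
    exact h z hz (by simpa using hr)
  | some z =>
    right
    have hz := List.mem_of_head? h
    rw [List.mem_filter, decide_eq_true_eq] at hz
    exact ⟨z, hz.1, hz.2, rfl⟩

theorem rstep_sub : (rstep V A).Sublist V := by
  rcases rstep_cases (V := V) (A := A) with h | ⟨z, _, _, h⟩
  · rw [h.1]
  · rw [h]; exact List.filter_sublist

theorem rstep_comb (hV : V.Nodup) (hsym : ∀ u v, A u v → A v u) (hirr : ∀ v, ¬ A v v) :
    Comb V.toFinset A ↔ Comb (rstep V A).toFinset A := by
  classical
  rcases rstep_cases (V := V) (A := A) with h | ⟨z, hz, hr, h⟩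
  · rw [h.1]
  · have h1 : (rstep V A).toFinset = V.toFinset.erase z := by
      rw [h]
      unfold rmv
      ext u
      rw [List.mem_toFinset, List.mem_filter, Finset.mem_erase, List.mem_toFinset,
        decide_eq_true_eq]
      tauto
    rw [h1]
    unfold Redu at hr
    rw [nbl_length hV, class_length hV] at hr
    exact comb_erase_iff hsym hirr (List.mem_toFinset.2 hz) hr.1 hr.2

theorem redv_sub' (k : ℕ) (V : List ℕ) : ((fun V => rstep V A)^[k] V).Sublist V := by
  induction k with
  | zero => exact List.Sublist.refl _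
  | succ k ih => rw [Function.iterate_succ_apply']; exact rstep_sub.trans ih

theorem redv_stable' (k : ℕ) : ∀ V : List ℕ, V.length ≤ k →
    ∀ z ∈ (fun V => rstep V A)^[k] V, ¬ Redu ((fun V => rstep V A)^[k] V) A z := by
  induction k with
  | zero =>
    intro V hV z hz
    rw [Nat.le_zero, List.length_eq_zero_iff] at hV
    subst hV
    simp at hz
  | succ k ih =>
    intro V hV
    rw [Function.iterate_succ_apply]
    rcases rstep_cases (V := V) (A := A) with h | ⟨z, hz, hr, h⟩
    · have hfix : ∀ j, (fun V => rstep V A)^[j] V = V := by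
        intro j
        induction j with
        | zero => rfl
        | succ j ihj => rw [Function.iterate_succ_apply', ihj]; exact h.1
      change ∀ z ∈ (fun V => rstep V A)^[k] (rstep V A),
        ¬ Redu ((fun V => rstep V A)^[k] (rstep V A)) A z
      rw [h.1, hfix]
      exact h.2
    · refine ih _ ?_
      rw [h]
      have : (rmv V z).length < V.length := by
        unfold rmv
        rw [List.length_filter_lt_length_iff_exists]
        exact ⟨z, hz, by simp⟩
      omega

theorem redv_comb' (hsym : ∀ u v, A u v → A v u) (hirr : ∀ v, ¬ A v v) (k : ℕ)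
    (V : List ℕ) (hV : V.Nodup) :
    Comb V.toFinset A ↔ Comb ((fun V => rstep V A)^[k] V).toFinset A := by
  induction k with
  | zero => exact Iff.rfl
  | succ k ih =>
    rw [Function.iterate_succ_apply', ih]
    exact rstep_comb (hV.sublist (redv_sub' k V)) hsym hirr

theorem redv_reduced (hV : V.Nodup) : Reduced (redv V A).toFinset A := by
  classical
  have hnd : (redv V A).Nodup := hV.sublist (redv_sub' _ V)
  intro v hv hdeg
  by_contra hcon
  rw [List.mem_toFinset] at hv
  refine redv_stable' V.length V le_rfl v hv ?_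
  unfold Redu
  change (nbl (redv V A) A v).length ≤ 2 ∧
    3 < ((redv V A).filter (fun u => decide (nbl (redv V A) A u = nbl (redv V A) A v))).length
  rw [nbl_length hnd, class_length hnd]
  exact ⟨hdeg, not_le.1 hcon⟩

end Red

/-! ### The criterion -/

section Crit

variable {V : List ℕ} {A : ℕ → ℕ → Prop}

/-- the test for a component -/
def Test (W K : ℕ) (A : ℕ → ℕ → Prop) (C : List ℕ) : Prop :=
  (∀ x ∈ C, (nbl C A x).length ≤ 15) ∧
    (C.length ≤ 1 ∨ (layer C A W K)^[C.length] [([], [])] ≠ [])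

theorem test_iff {W K : ℕ} (hsym : ∀ u v, A u v → A v u) (hirr : ∀ v, ¬ A v v)
    (hK : (3 * 15 + 2) * (2 * 15 + 1) ≤ K) (hW : 3 * K ≤ W) {C : List ℕ} (hC : C.Nodup)
    (hconn : Conn C A) (hdeg : Comb C.toFinset A → ∀ x ∈ C, (nbl C A x).length ≤ 15) :
    Test W K A C ↔ Comb C.toFinset A := by
  classical
  have hW1 : 1 ≤ W := by omega
  have hne_iff : (layer C A W K)^[C.length] [([], [])] ≠ [] ↔
      ∃ L, Valid C A W K L ∧ L.length = C.length := by
    constructor
    · intro h
      obtain ⟨st, hst⟩ := List.exists_mem_of_ne_nil _ h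
      obtain ⟨L, h1, h2, -⟩ := (mem_layers hW1 _ st).1 hst
      exact ⟨L, h1, h2⟩
    · rintro ⟨L, h1, h2⟩
      exact List.ne_nil_of_mem ((mem_layers hW1 _ (stt C W L)).2 ⟨L, h1, h2, rfl⟩)
  constructor
  · rintro ⟨-, h | h⟩
    · -- at most one vertex
      have huniq : ∀ u ∈ C, ∀ v ∈ C, u = v := by
        intro u hu v hv
        match C, h, hu, hv with
        | [], _, hu, _ => simp at hu
        | [a], _, hu, hv =>
          rw [List.mem_singleton] at hu hv
          rw [hu, hv]
        | a :: b :: l, h, _, _ => simp at h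
      refine ⟨fun _ => false, fun _ => 0, ?_, ?_, ?_⟩
      · intro u hu v hv _ _
        exact huniq u (List.mem_toFinset.1 hu) v (List.mem_toFinset.1 hv)
      · intro u hu v hv huv
        rw [huniq u (List.mem_toFinset.1 hu) v (List.mem_toFinset.1 hv)] at huv
        exact absurd huv (hirr _)
      · intro a ha b hb c _ d _ u _ v _ _ _ hab
        rw [huniq a (List.mem_toFinset.1 ha) b (List.mem_toFinset.1 hb)] at hab
        exact absurd hab (hirr _)
    · obtain ⟨L, h1, h2⟩ := hne_iff.1 h
      exact sound hsym hC hW h1 h2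
  · intro h
    refine ⟨hdeg h, ?_⟩
    by_cases hlen : C.length ≤ 1
    · exact Or.inl hlen
    right
    rw [hne_iff]
    obtain ⟨s, p, hsp⟩ := h
    have hD : ∀ v ∈ C.toFinset, (nb C.toFinset A v).card ≤ 15 := by
      intro v hv
      rw [← nbl_length hC]
      exact hdeg ⟨s, p, hsp⟩ v (List.mem_toFinset.1 hv)
    have hnb : ∀ v ∈ C.toFinset, (nb C.toFinset A v).Nonempty := by
      intro v hv
      by_contra hcon
      rw [Finset.not_nonempty_iff_eq_empty] at hcon
      have hv' := List.mem_toFinset.1 hv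
      have hall := hconn (fun x => x = v) ⟨v, hv', rfl⟩ (by
        rintro x hx rfl y hy hxy
        have : y ∈ nb C.toFinset A x := mem_nb.2 ⟨List.mem_toFinset.2 hy, hxy⟩
        rw [hcon] at this
        simp at this)
      match C, hlen, hC, hall with
      | [], hlen, _, _ => simp at hlen
      | [a], hlen, _, _ => simp at hlen
      | a :: b :: l, _, hC, hall =>
        have e1 := hall a (by simp)
        have e2 := hall b (by simp)
        rw [List.nodup_cons] at hC
        exact hC.1 (by rw [e1, ← e2]; simp)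
    obtain ⟨q, q1, q2, q3⟩ := band hsp hsym hD hnb
    refine complete (K0 := (3 * 15 + 2) * (2 * 15 + 1)) hC ?_ q2 ?_ hsym hK (by omega)
    · intro u hu v hv
      exact q1 u (List.mem_toFinset.2 hu) v (List.mem_toFinset.2 hv)
    · intro u hu v hv
      exact q3 u (List.mem_toFinset.2 hu) v (List.mem_toFinset.2 hv)

/-- the criterion for a graph -/
def Crit (W K : ℕ) (V : List ℕ) (A : ℕ → ℕ → Prop) : Prop :=
  ∀ v ∈ redv V A, Test W K A (comp (redv V A) A v)

theorem crit_iff {W K : ℕ} (hsym : ∀ u v, A u v → A v u) (hirr : ∀ v, ¬ A v v)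
    (hK : (3 * 15 + 2) * (2 * 15 + 1) ≤ K) (hW : 3 * K ≤ W) (hV : V.Nodup) :
    Crit W K V A ↔ Comb V.toFinset A := by
  have hnd : (redv V A).Nodup := hV.sublist (redv_sub' _ V)
  have h1 : Comb V.toFinset A ↔ Comb (redv V A).toFinset A := redv_comb' hsym hirr _ V hV
  rw [h1, comb_iff_comp hsym]
  -- degrees
  have hred := redv_reduced (A := A) hV
  constructor
  · intro h v hv
    have hCn : (comp (redv V A) A v).Nodup := hnd.sublist (comp_sub v)
    have ht := h v hv
    refine (test_iff hsym hirr hK hW hCn (comp_conn hsym v) ?_).1 ht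
    intro _
    exact ht.1
  · intro h v hv
    have hCn : (comp (redv V A) A v).Nodup := hnd.sublist (comp_sub v)
    have hall : Comb (redv V A).toFinset A := (comb_iff_comp hsym).2 h
    refine (test_iff hsym hirr hK hW hCn (comp_conn hsym v) ?_).2 (h v hv)
    intro _ x hx
    obtain ⟨s, p, hsp⟩ := hall
    have hxR : x ∈ redv V A := (comp_sub v).subset hx
    have h2 := deg_le hsp hsym hred (List.mem_toFinset.2 hxR)
    rw [← nbl_length hnd] at h2
    refine le_trans ?_ h2
    unfold nbl
    exact ((comp_sub v).filter _).length_le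

end Crit

/-! ### Polynomial time -/

section Pol

theorem pp_alladj {α : Type} [TEnc α] {E : α → List (ℕ × ℕ)} {V : α → List ℕ} {v : α → ℕ}
    (hE : NPC.Poly E) (hV : NPC.Poly V) (hv : NPC.Poly v) :
    NPC.Poly (fun a => nbl (V a) (adj (E a)) (v a)) := by
  classical
  unfold nbl
  exact PP.filter (r := fun a u => adj (E a) (v a) u) hV
    (pp_adj (hE.comp (NPC.Poly.fst NPC.Poly.id)) (hv.comp (NPC.Poly.fst NPC.Poly.id))
      (NPC.Poly.snd NPC.Poly.id))

theorem pp_redu {α : Type} [TEnc α] {E : α → List (ℕ × ℕ)} {V : α → List ℕ} {z : α → ℕ}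
    (hE : NPC.Poly E) (hV : NPC.Poly V) (hz : NPC.Poly z) :
    PP (fun a => Redu (V a) (adj (E a)) (z a)) := by
  classical
  refine PP.and (PP.le (NPC.Poly.length (pp_alladj hE hV hz)) (NPC.Poly.const 2))
    (PP.lt (NPC.Poly.const 3) (NPC.Poly.length ?_))
  refine PP.filter (r := fun a u => nbl (V a) (adj (E a)) u = nbl (V a) (adj (E a)) (z a)) hV
    (PP.eq ?_ ?_)
  · exact pp_alladj (hE.comp (NPC.Poly.fst NPC.Poly.id)) (hV.comp (NPC.Poly.fst NPC.Poly.id))
      (NPC.Poly.snd NPC.Poly.id)
  · exact pp_alladj (hE.comp (NPC.Poly.fst NPC.Poly.id)) (hV.comp (NPC.Poly.fst NPC.Poly.id))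
      (hz.comp (NPC.Poly.fst NPC.Poly.id))

theorem poly_rstep : NPC.Poly (fun a : List ℕ × List (ℕ × ℕ) => rstep a.1 (adj a.2)) := by
  classical
  refine (NPC.Poly.optCases (o := fun a : List ℕ × List (ℕ × ℕ) =>
    (a.1.filter (fun z => decide (Redu a.1 (adj a.2) z))).head?) (g := fun a => a.1)
    (h := fun a z => rmv a.1 z) ?_ (NPC.Poly.fst NPC.Poly.id) ?_).congr fun a => ?_
  · refine NPC.Poly.head? (PP.filter (r := fun (a : List ℕ × List (ℕ × ℕ)) z =>
      Redu a.1 (adj a.2) z) (NPC.Poly.fst NPC.Poly.id) ?_)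
    exact pp_redu (NPC.Poly.snd (NPC.Poly.fst NPC.Poly.id))
      (NPC.Poly.fst (NPC.Poly.fst NPC.Poly.id)) (NPC.Poly.snd NPC.Poly.id)
  · exact PP.filter (r := fun (p : (List ℕ × List (ℕ × ℕ)) × ℕ) u => u ≠ p.2)
      (NPC.Poly.fst (NPC.Poly.fst NPC.Poly.id))
      (PP.ne (NPC.Poly.snd NPC.Poly.id) (NPC.Poly.snd (NPC.Poly.fst NPC.Poly.id)))
  · unfold rstep
    cases (a.1.filter (fun z => decide (Redu a.1 (adj a.2) z))).head? <;> rfl

theorem poly_redv : NPC.Poly (fun a : List ℕ × List (ℕ × ℕ) => redv a.1 (adj a.2)) := by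
  refine NPC.Poly.iterLen (l := fun a : List ℕ × List (ℕ × ℕ) => a.1)
    (s := fun a => a.1) (F := fun a V => rstep V (adj a.2)) (NPC.Poly.fst NPC.Poly.id)
    (NPC.Poly.fst NPC.Poly.id) ?_ Polynomial.X ?_
  · exact poly_rstep.comp (NPC.Poly.pair (NPC.Poly.snd NPC.Poly.id)
      (NPC.Poly.snd (NPC.Poly.fst NPC.Poly.id)))
  · intro a k _
    have h1 := sz_sublist (redv_sub' (A := adj a.2) k a.1)
    rw [Polynomial.eval_X]
    refine h1.trans ?_
    rw [sz_pair]
    omega

theorem poly_comp : NPC.Poly (fun a : (List ℕ × List (ℕ × ℕ)) × ℕ =>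
    comp a.1.1 (adj a.1.2) a.2) := by
  classical
  refine NPC.Poly.iterLen (l := fun a : (List ℕ × List (ℕ × ℕ)) × ℕ => a.1.1)
    (s := fun a => strt a.1.1 a.2) (F := fun a S => grow a.1.1 (adj a.1.2) S)
    (NPC.Poly.fst (NPC.Poly.fst NPC.Poly.id)) ?_ ?_ Polynomial.X ?_
  · unfold strt
    exact PP.filter (r := fun (a : (List ℕ × List (ℕ × ℕ)) × ℕ) u => u = a.2)
      (NPC.Poly.fst (NPC.Poly.fst NPC.Poly.id))
      (PP.eq (NPC.Poly.snd NPC.Poly.id) (NPC.Poly.snd (NPC.Poly.fst NPC.Poly.id)))
  · unfold grow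
    refine PP.filter (r := fun (p : ((List ℕ × List (ℕ × ℕ)) × ℕ) × List ℕ) u =>
      u ∈ p.2 ∨ ∃ w ∈ p.2, adj p.1.1.2 w u)
      (NPC.Poly.fst (NPC.Poly.fst (NPC.Poly.fst NPC.Poly.id)))
      (PP.or (PP.mem (NPC.Poly.snd NPC.Poly.id) (NPC.Poly.snd (NPC.Poly.fst NPC.Poly.id)))
        (PP.bex (NPC.Poly.snd (NPC.Poly.fst NPC.Poly.id)) ?_))
    exact pp_adj (by fun_prop) (by fun_prop) (by fun_prop)
  · intro a k _
    have h1 := sz_sublist (stage_sub (V := a.1.1) (A := adj a.1.2) a.2 k)
    rw [Polynomial.eval_X]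
    refine h1.trans ?_
    have e1 : sz a = sz a.1 + sz a.2 + 1 := sz_pair a.1 a.2
    have e2 : sz a.1 = sz a.1.1 + sz a.1.2 + 1 := sz_pair a.1.1 a.1.2
    omega

open Classical in
/-- the component, provided its degrees are small -/
noncomputable def grd (a : (List ℕ × List (ℕ × ℕ)) × ℕ) : List ℕ :=
  if ∀ x ∈ comp a.1.1 (adj a.1.2) a.2, (nbl (comp a.1.1 (adj a.1.2) a.2) (adj a.1.2) x).length ≤ 15
  then comp a.1.1 (adj a.1.2) a.2 else []

theorem pp_deg : PP (fun a : (List ℕ × List (ℕ × ℕ)) × ℕ =>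
    ∀ x ∈ comp a.1.1 (adj a.1.2) a.2,
      (nbl (comp a.1.1 (adj a.1.2) a.2) (adj a.1.2) x).length ≤ 15) := by
  refine PP.ball poly_comp (PP.le (NPC.Poly.length ?_) (NPC.Poly.const 15))
  exact pp_alladj (by fun_prop) (poly_comp.comp (NPC.Poly.fst NPC.Poly.id))
    (NPC.Poly.snd NPC.Poly.id)

theorem poly_grd : NPC.Poly grd := by
  classical
  unfold grd
  exact PP.ite pp_deg poly_comp (NPC.Poly.const [])

theorem grd_sub (a : (List ℕ × List (ℕ × ℕ)) × ℕ) : (grd a).Sublist a.1.1 := by
  classical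
  unfold grd
  split_ifs
  · exact comp_sub _
  · exact List.nil_sublist _

theorem grd_conn (a : (List ℕ × List (ℕ × ℕ)) × ℕ) : Conn (grd a) (adj a.1.2) := by
  classical
  unfold grd
  split_ifs
  · exact comp_conn adj_symm _
  · intro S hS
    obtain ⟨x, hx, -⟩ := hS
    simp at hx

theorem grd_deg (a : (List ℕ × List (ℕ × ℕ)) × ℕ) :
    ∀ x ∈ grd a, (nbl (grd a) (adj a.1.2) x).length ≤ 15 := by
  classical
  unfold grd
  split_ifs with h
  · exact h
  · intro x hx
    simp at hx

theorem sz_state {V : List ℕ} {A : ℕ → ℕ → Prop} {W K : ℕ} {L : List (ℕ × Bool)}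
    (h : Valid V A W K L) : sz (stt V W L) ≤ W * (sz V + 5) + sz V + 2 := by
  classical
  unfold stt
  rw [sz_pair]
  have h1 : sz (L.take W) ≤ (L.take W).length * (sz V + 4 + 1) + 1 := by
    refine sz_le_length_mul _ _ ?_
    intro x hx
    have h2 := sz_le_of_mem (h.mem x (List.mem_of_mem_take hx))
    have h3 := sz_bool_le x.2
    have h4 : sz x = sz x.1 + sz x.2 + 1 := sz_pair x.1 x.2
    omega
  have h2 : (L.take W).length * (sz V + 4 + 1) ≤ W * (sz V + 5) := by
    refine Nat.mul_le_mul ?_ (by omega)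
    rw [List.length_take]
    omega
  have h3 : sz (V.filter (fun v => decide (v ∈ (L.drop W).map Prod.fst))) ≤ sz V :=
    sz_sublist List.filter_sublist
  omega

theorem layers_nodup (V : List ℕ) (A : ℕ → ℕ → Prop) (W K k : ℕ) :
    ((layer V A W K)^[k] [([], [])]).Nodup := by
  cases k with
  | zero => simp
  | succ k =>
    rw [Function.iterate_succ_apply']
    unfold layer
    exact List.nodup_dedup _

theorem poly_layers_grd (W K : ℕ) (hW : 1 ≤ W) :
    NPC.Poly (fun a : (List ℕ × List (ℕ × ℕ)) × ℕ =>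
      (layer (grd a) (adj a.1.2) W K)^[(grd a).length] [([], [])]) := by
  classical
  have h1 : NPC.Poly (fun p : ((List ℕ × List (ℕ × ℕ)) × ℕ) × St =>
      nexts (grd p.1) (adj p.1.1.2) W K p.2) :=
    (poly_nexts W K).comp (f := fun p : ((List ℕ × List (ℕ × ℕ)) × ℕ) × St =>
      ((grd p.1, p.1.1.2), p.2)) (NPC.Poly.pair (NPC.Poly.pair
        (poly_grd.comp (NPC.Poly.fst NPC.Poly.id))
        (NPC.Poly.snd (NPC.Poly.fst (NPC.Poly.fst NPC.Poly.id)))) (NPC.Poly.snd NPC.Poly.id))
  have h2 := poly_layers (α := (List ℕ × List (ℕ × ℕ)) × ℕ) (σ := St)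
    (n := fun a => (grd a).length) (UPoly.length poly_grd)
    (init := fun _ => [([], [])]) (NPC.Poly.const _)
    (F := fun a st => nexts (grd a) (adj a.1.2) W K st) h1
    ((2 * Polynomial.X + 1) ^ W * Polynomial.C (3 ^ (W * 15)) *
      ((Polynomial.C W * (Polynomial.X + 5) + Polynomial.X + 2) + 1) + 1) ?_
  · refine h2.congr fun a => ?_
    have hfun : (fun S : List St => (S.flatMap (nexts (grd a) (adj a.1.2) W K)).dedup) =
        layer (grd a) (adj a.1.2) W K := by
      funext S
      unfold layer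
      congr
    change (fun S : List St => (S.flatMap (nexts (grd a) (adj a.1.2) W K)).dedup)^[_] _ = _
    rw [hfun]
  · intro a k _
    have hfun : (fun S : List St => (S.flatMap (nexts (grd a) (adj a.1.2) W K)).dedup) =
        layer (grd a) (adj a.1.2) W K := by
      funext S
      unfold layer
      congr
    change sz ((fun S : List St => (S.flatMap (nexts (grd a) (adj a.1.2) W K)).dedup)^[k] _) ≤ _
    rw [hfun]
    have hmem : ∀ st ∈ (layer (grd a) (adj a.1.2) W K)^[k] [([], [])],
        ∃ L, Valid (grd a) (adj a.1.2) W K L ∧ stt (grd a) W L = st := by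
      intro st hst
      obtain ⟨L, e1, -, e2⟩ := (mem_layers hW k st).1 hst
      exact ⟨L, e1, e2⟩
    have hlen := length_states_le (D := 15) adj_symm hW (grd_conn a)
      (fun x hx => grd_deg a x hx) _ (layers_nodup _ _ W K k) hmem
    have hszg : sz (grd a) ≤ sz a := by
      refine (sz_sublist (grd_sub a)).trans ?_
      have e1 : sz a = sz a.1 + sz a.2 + 1 := sz_pair a.1 a.2
      have e2 : sz a.1 = sz a.1.1 + sz a.1.2 + 1 := sz_pair a.1.1 a.1.2
      omega
    have hlg : (grd a).length ≤ sz a := (length_lt_sz _).le.trans hszg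
    have hsz := sz_le_length_mul ((layer (grd a) (adj a.1.2) W K)^[k] [([], [])])
      (W * (sz a + 5) + sz a + 2) (by
        intro st hst
        obtain ⟨L, e1, e2⟩ := hmem st hst
        rw [← e2]
        refine (sz_state e1).trans ?_
        have : W * (sz (grd a) + 5) ≤ W * (sz a + 5) := Nat.mul_le_mul_left _ (by omega)
        omega)
    refine hsz.trans ?_
    simp only [Polynomial.eval_add, Polynomial.eval_mul, Polynomial.eval_pow, Polynomial.eval_C,
      Polynomial.eval_X, Polynomial.eval_one, Polynomial.eval_ofNat]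
    refine Nat.add_le_add_right (Nat.mul_le_mul_right _ (hlen.trans ?_)) 1
    refine Nat.mul_le_mul_right _ (Nat.pow_le_pow_left ?_ _)
    omega

/-- The test is decidable in polynomial time. -/
theorem pp_test (W K : ℕ) (hW : 1 ≤ W) : PP (fun a : (List ℕ × List (ℕ × ℕ)) × ℕ =>
    Test W K (adj a.1.2) (comp a.1.1 (adj a.1.2) a.2)) := by
  classical
  have h1 : PP (fun a : (List ℕ × List (ℕ × ℕ)) × ℕ =>
      (∀ x ∈ comp a.1.1 (adj a.1.2) a.2,
        (nbl (comp a.1.1 (adj a.1.2) a.2) (adj a.1.2) x).length ≤ 15) ∧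
      ((comp a.1.1 (adj a.1.2) a.2).length ≤ 1 ∨
        (layer (grd a) (adj a.1.2) W K)^[(grd a).length] [([], [])] ≠ [])) :=
    pp_deg.and ((PP.le (NPC.Poly.length poly_comp) (NPC.Poly.const 1)).or
      (PP.ne (poly_layers_grd W K hW) (NPC.Poly.const [])))
  refine h1.congr fun a => ?_
  unfold Test
  refine and_congr_right fun h => ?_
  have : grd a = comp a.1.1 (adj a.1.2) a.2 := by
    unfold grd
    rw [if_pos h]
  rw [this]

theorem pp_crit (W K : ℕ) (hW : 1 ≤ W) : PP (fun a : List ℕ × List (ℕ × ℕ) =>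
    Crit W K a.1 (adj a.2)) := by
  refine PP.ball poly_redv ?_
  exact (pp_test W K hW).comp (f := fun p : (List ℕ × List (ℕ × ℕ)) × ℕ =>
    ((redv p.1.1 (adj p.1.2), p.1.2), p.2))
    (NPC.Poly.pair (NPC.Poly.pair (poly_redv.comp (NPC.Poly.fst NPC.Poly.id))
      (NPC.Poly.snd (NPC.Poly.fst NPC.Poly.id))) (NPC.Poly.snd NPC.Poly.id))

/-- **Two-layer fan-planarity, combinatorially, is decidable in polynomial time.** -/
theorem pp_comb : PP (fun a : List ℕ × List (ℕ × ℕ) => Comb a.1.toFinset (adj a.2)) := by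
  obtain ⟨K, hK⟩ : ∃ K : ℕ, (3 * 15 + 2) * (2 * 15 + 1) ≤ K := ⟨_, le_rfl⟩
  have h1 : PP (fun a : List ℕ × List (ℕ × ℕ) => Crit (3 * K) K a.1.dedup (adj a.2)) :=
    (pp_crit (3 * K) K (by omega)).comp (f := fun a : List ℕ × List (ℕ × ℕ) => (a.1.dedup, a.2))
      (NPC.Poly.pair (poly_dedup (NPC.Poly.fst NPC.Poly.id)) (NPC.Poly.snd NPC.Poly.id))
  refine h1.congr fun a => ?_
  rw [crit_iff adj_symm adj_irrefl hK le_rfl (List.nodup_dedup _)]
  have : a.1.dedup.toFinset = a.1.toFinset := by
    ext u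
    rw [List.mem_toFinset, List.mem_toFinset, List.mem_dedup]
  rw [this]

end Pol

end Pool.Agent.TH666.FP
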