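import Pool.Agent.TH666.FP.Comb

/-!
# The two lines of a fan-planar drawing can be merged with bounded bandwidth
-/

namespace Pool.Agent.TH666.FP

variable {V : Finset ℕ} {A : ℕ → ℕ → Prop} {s : ℕ → Bool} {p : ℕ → ℤ}

theorem Dr.of_order {q : ℕ → ℤ} (h : Dr V A s p)
    (hq : ∀ u ∈ V, ∀ v ∈ V, s u = s v → (q u < q v ↔ p u < p v)) : Dr V A s q where
  inj u hu v hv h1 h2 := by
    refine h.inj u hu v hv h1 ?_
    have e1 := hq u hu v hv h1
    have e2 := hq v hv u hu h1.symm
    omega
  bip := h.bip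
  fan a ha b hb c hc d hd u hu v hv h1 h2 h3 h4 h5 h6 h7 := by
    have hs : ∀ x y x' y', x ∈ V → y ∈ V → x' ∈ V → y' ∈ V → A x y → A x' y' → s x' = s x →
        s y' = s y := by
      intro x y x' y' hx hy hx' hy' a1 a2 a3
      have b1 := h.bip x hx y hy a1
      have b2 := h.bip x' hx' y' hy' a2
      revert b1 b2 a3
      cases s x <;> cases s y <;> cases s x' <;> cases s y' <;> simp
    have sdb := hs a b c d ha hb hc hd h3 h4 h1
    have svb := hs a b u v ha hb hu hv h3 h5 h2
    have e1 := hq a ha c hc h1.symm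
    have e2 := hq c hc a ha h1
    have e3 := hq b hb d hd sdb.symm
    have e4 := hq d hd b hb sdb
    have e5 := hq a ha u hu h2.symm
    have e6 := hq u hu a ha h2
    have e7 := hq b hb v hv svb.symm
    have e8 := hq v hv b hb svb
    refine h.fan a ha b hb c hc d hd u hu v hv h1 h2 h3 h4 h5 ?_ ?_
    · unfold Cr at *; omega
    · unfold Cr at *; omega

/-- Edges crossing a given edge: their ends on one side are few. -/
theorem star_le (h : Dr V A s p) {D : ℕ} (hD : ∀ v ∈ V, (nb V A v).card ≤ D) {a b : ℕ}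
    (ha : a ∈ V) (hb : b ∈ V) (hab : A a b) (Z : Finset ℕ)
    (hZ : ∀ z ∈ Z, z ∈ V ∧ ∃ u ∈ V, s u = s a ∧ A u z ∧ Cr p a b u z) : Z.card ≤ D := by
  rcases Z.eq_empty_or_nonempty with rfl | ⟨z', hz'⟩
  · simp
  · obtain ⟨hzV', u', hu', hs', hA', hC'⟩ := hZ z' hz'
    refine (Finset.card_le_card ?_).trans (hD u' hu')
    intro z hz
    obtain ⟨hzV, u, hu, hs, hA, hC⟩ := hZ z hz
    rw [mem_nb]
    rcases h.fan a ha b hb u hu z hzV u' hu' z' hzV' hs hs' hab hA hA' hC hC' with rfl | rfl
    · exact ⟨hzV, hA⟩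
    · exact ⟨hzV', hA'⟩

open Classical in
/-- the rank of a vertex of the bottom line -/
noncomputable def rk (V : Finset ℕ) (s : ℕ → Bool) (p : ℕ → ℤ) (b : ℕ) : ℕ :=
  (V.filter (fun z => s z = false ∧ p z < p b)).card

theorem rk_lt {b b' : ℕ} (hb : b ∈ V) (hs : s b = false) (hl : p b < p b') :
    rk V s p b < rk V s p b' := by
  classical
  unfold rk
  refine Finset.card_lt_card ⟨?_, ?_⟩
  · intro z hz
    rw [Finset.mem_filter] at hz ⊢
    exact ⟨hz.1, hz.2.1, hz.2.2.trans hl⟩
  · intro hh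
    have : b ∈ V.filter (fun z => s z = false ∧ p z < p b) :=
      hh (Finset.mem_filter.2 ⟨hb, hs, hl⟩)
    rw [Finset.mem_filter] at this
    omega

theorem rk_le_iff {b b' : ℕ} (hb : b ∈ V) (hs : s b = false) (hb' : b' ∈ V) (hs' : s b' = false) :
    rk V s p b ≤ rk V s p b' ↔ p b ≤ p b' := by
  constructor
  · intro h
    by_contra hcon
    have := rk_lt (V := V) (s := s) (p := p) hb' hs' (not_le.1 hcon)
    omega
  · intro h
    rcases lt_or_eq_of_le h with h1 | h1
    · exact (rk_lt hb hs h1).le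
    · unfold rk
      rw [h1]

open Classical in
theorem rk_le_add {b0 b : ℕ} (h : Dr V A s p) (hb0 : b0 ∈ V) (hs0 : s b0 = false)
    (_ : p b0 ≤ p b) {n : ℕ}
    (hn : (V.filter (fun z => s z = false ∧ p b0 < p z ∧ p z < p b)).card ≤ n) :
    rk V s p b ≤ rk V s p b0 + n + 1 := by
  unfold rk
  have hsub : V.filter (fun z => s z = false ∧ p z < p b) ⊆
      (V.filter (fun z => s z = false ∧ p z < p b0)) ∪
        ({b0} ∪ V.filter (fun z => s z = false ∧ p b0 < p z ∧ p z < p b)) := by
    intro z hz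
    rw [Finset.mem_filter] at hz
    rw [Finset.mem_union, Finset.mem_union, Finset.mem_filter, Finset.mem_filter,
      Finset.mem_singleton]
    rcases lt_trichotomy (p z) (p b0) with h1 | h1 | h1
    · exact Or.inl ⟨hz.1, hz.2.1, h1⟩
    · exact Or.inr (Or.inl (h.inj z hz.1 b0 hb0 (by rw [hz.2.1, hs0]) h1))
    · exact Or.inr (Or.inr ⟨hz.1, hz.2.1, h1, hz.2.2⟩)
  have c1 := Finset.card_le_card hsub
  have c2 := Finset.card_union_le (V.filter (fun z => s z = false ∧ p z < p b0))
    ({b0} ∪ V.filter (fun z => s z = false ∧ p b0 < p z ∧ p z < p b))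
  have c3 := Finset.card_union_le {b0} (V.filter (fun z => s z = false ∧ p b0 < p z ∧ p z < p b))
  rw [Finset.card_singleton] at c3
  omega

section

variable (h : Dr V A s p) (hsym : ∀ u v, A u v → A v u) {D : ℕ}
  (hD : ∀ v ∈ V, (nb V A v).card ≤ D) {lf : ℕ → ℕ}
  (hlf : ∀ t ∈ V, lf t ∈ nb V A t ∧ ∀ b ∈ nb V A t, p (lf t) ≤ p b)

include h hlf in
theorem lf_side {t : ℕ} (ht : t ∈ V) (hst : s t = true) : lf t ∈ V ∧ s (lf t) = false ∧ A t (lf t) := by
  have h1 := mem_nb.1 (hlf t ht).1
  refine ⟨h1.1, ?_, h1.2⟩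
  have := h.bip t ht _ h1.1 h1.2
  rw [hst] at this
  revert this
  cases s (lf t) <;> simp

include h hsym hD hlf in
theorem factA {t b : ℕ} (ht : t ∈ V) (hst : s t = true) (hb : b ∈ nb V A t) :
    rk V s p b ≤ rk V s p (lf t) + 3 * D + 1 := by
  classical
  obtain ⟨hl1, hl2, hl3⟩ := lf_side h hlf ht hst
  have hb' := mem_nb.1 hb
  refine rk_le_add h hl1 hl2 ((hlf t ht).2 b hb) ?_
  set Z := V.filter (fun z => s z = false ∧ p (lf t) < p z ∧ p z < p b) with hZ
  set Z1 := Z.filter (fun z => ∃ u ∈ V, A u z ∧ p u < p t) with hZ1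
  set Z2 := Z.filter (fun z => ∃ u ∈ V, A u z ∧ p t < p u) with hZ2
  set Z3 := Z.filter (fun z => A t z) with hZ3
  have hsz : ∀ z ∈ Z, ∀ u ∈ V, A u z → s u = s t := by
    intro z hz u hu hA
    rw [hZ, Finset.mem_filter] at hz
    have := h.bip u hu z hz.1 hA
    rw [hz.2.1] at this
    rw [hst]
    revert this
    cases s u <;> simp
  have c1 : Z1.card ≤ D := by
    refine star_le h hD ht hl1 hl3 Z1 fun z hz => ?_
    rw [hZ1, Finset.mem_filter] at hz
    obtain ⟨hz, u, hu, hA, hl⟩ := hz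
    have hs := hsz z hz u hu hA
    rw [hZ, Finset.mem_filter] at hz
    exact ⟨hz.1, u, hu, hs, hA, by unfold Cr; omega⟩
  have c2 : Z2.card ≤ D := by
    refine star_le h hD ht hb'.1 hb'.2 Z2 fun z hz => ?_
    rw [hZ2, Finset.mem_filter] at hz
    obtain ⟨hz, u, hu, hA, hl⟩ := hz
    have hs := hsz z hz u hu hA
    rw [hZ, Finset.mem_filter] at hz
    exact ⟨hz.1, u, hu, hs, hA, by unfold Cr; omega⟩
  have c3 : Z3.card ≤ D := by
    refine (Finset.card_le_card ?_).trans (hD t ht)
    intro z hz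
    rw [hZ3, Finset.mem_filter] at hz
    rw [hZ, Finset.mem_filter] at hz
    exact mem_nb.2 ⟨hz.1.1, hz.2⟩
  have hsub : Z ⊆ Z1 ∪ (Z2 ∪ Z3) := by
    intro z hz
    have hz' := hz
    rw [hZ, Finset.mem_filter] at hz'
    obtain ⟨u, hu⟩ : (nb V A z).Nonempty := ⟨_, (hlf z hz'.1).1⟩
    have hu' := mem_nb.1 hu
    have huz := hsym _ _ hu'.2
    rcases lt_trichotomy (p u) (p t) with h1 | h1 | h1
    · exact Finset.mem_union_left _ (Finset.mem_filter.2 ⟨hz, u, hu'.1, huz, h1⟩)
    · have := h.inj u hu'.1 t ht (hsz z hz u hu'.1 huz) h1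
      subst this
      exact Finset.mem_union_right _ (Finset.mem_union_right _ (Finset.mem_filter.2 ⟨hz, huz⟩))
    · exact Finset.mem_union_right _
        (Finset.mem_union_left _ (Finset.mem_filter.2 ⟨hz, u, hu'.1, huz, h1⟩))
  have e1 := Finset.card_le_card hsub
  have e2 := Finset.card_union_le Z1 (Z2 ∪ Z3)
  have e3 := Finset.card_union_le Z2 Z3
  omega

open Classical in
/-- the key of a vertex of the top line -/
noncomputable def mk (V : Finset ℕ) (s : ℕ → Bool) (p : ℕ → ℤ) (lf : ℕ → ℕ) (t : ℕ) : ℕ :=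
  (V.filter (fun t' => s t' = true ∧ p t' ≤ p t)).sup (fun t' => rk V s p (lf t'))

theorem rk_le_mk {t t' : ℕ} (ht : t' ∈ V) (hst : s t' = true) (hl : p t' ≤ p t) :
    rk V s p (lf t') ≤ mk V s p lf t := by
  classical
  unfold mk
  exact Finset.le_sup (f := fun t' => rk V s p (lf t')) (Finset.mem_filter.2 ⟨ht, hst, hl⟩)

theorem mk_mono {t t' : ℕ} (hl : p t ≤ p t') : mk V s p lf t ≤ mk V s p lf t' := by
  classical
  unfold mk
  refine Finset.sup_mono ?_
  intro z hz
  rw [Finset.mem_filter] at hz ⊢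
  exact ⟨hz.1, hz.2.1, hz.2.2.trans hl⟩

include h hsym hD hlf in
theorem factB {t : ℕ} (ht : t ∈ V) (hst : s t = true) :
    mk V s p lf t ≤ rk V s p (lf t) + D + 1 := by
  classical
  unfold mk
  refine Finset.sup_le fun t' ht' => ?_
  rw [Finset.mem_filter] at ht'
  obtain ⟨htV', hst', hl⟩ := ht'
  obtain ⟨hl1, hl2, hl3⟩ := lf_side h hlf ht hst
  obtain ⟨hl1', hl2', hl3'⟩ := lf_side h hlf htV' hst'
  by_cases hcmp : p (lf t') ≤ p (lf t)
  · have := (rk_le_iff (p := p) hl1' hl2' hl1 hl2).2 hcmp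
    omega
  · rw [not_le] at hcmp
    have hlt : p t' < p t := by
      refine lt_of_le_of_ne hl fun hh => ?_
      have := h.inj t' htV' t ht (by rw [hst, hst']) hh
      subst this
      omega
    refine rk_le_add h hl1 hl2 hcmp.le ?_
    refine (Finset.card_le_card ?_).trans (hD t ht)
    intro z hz
    rw [Finset.mem_filter] at hz
    obtain ⟨hzV, hsz, z1, z2⟩ := hz
    rw [mem_nb]
    refine ⟨hzV, ?_⟩
    obtain ⟨u, hu⟩ : (nb V A z).Nonempty := ⟨_, (hlf z hzV).1⟩
    have hu' := mem_nb.1 hu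
    have huz := hsym _ _ hu'.2
    have hsu : s u = s t := by
      have := h.bip u hu'.1 z hzV huz
      rw [hsz] at this
      rw [hst]
      revert this
      cases s u <;> simp
    have hut' : u ≠ t' := by
      rintro rfl
      have := (hlf u htV').2 z (mem_nb.2 ⟨hzV, huz⟩)
      omega
    rcases lt_trichotomy (p u) (p t) with h1 | h1 | h1
    · have := h.fan t ht (lf t) hl1 u hu'.1 z hzV t' htV' (lf t') hl1' hsu (by rw [hst, hst'])
        hl3 huz hl3' (by unfold Cr; omega) (by unfold Cr; omega)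
      rcases this with h2 | h2
      · exact absurd h2 hut'
      · rw [h2] at z2; omega
    · have := h.inj u hu'.1 t ht hsu h1
      subst this
      exact huz
    · have := h.fan t' htV' (lf t') hl1' u hu'.1 z hzV t ht (lf t) hl1 (by rw [hsu, hst, hst'])
        (by rw [hst, hst']) hl3' huz hl3 (by unfold Cr; omega) (by unfold Cr; omega)
      rcases this with h2 | h2
      · rw [h2] at h1; omega
      · rw [h2] at z1; omega

open Classical in
include h hsym hD hlf in
theorem factC (k : ℕ) : (V.filter (fun t => s t = true ∧ mk V s p lf t = k)).card ≤ 2 * D := by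
  set T := V.filter (fun t => s t = true ∧ mk V s p lf t = k) with hT
  rcases T.eq_empty_or_nonempty with h0 | h0
  · rw [h0]; simp
  obtain ⟨t', ht', hmin⟩ := Finset.exists_min_image T p h0
  have ht0 := ht'
  rw [hT, Finset.mem_filter] at ht'
  obtain ⟨htV', hst', hk'⟩ := ht'
  -- the supremum is attained
  have hrk : rk V s p (lf t') = k := by
    have hne : (V.filter (fun t'' => s t'' = true ∧ p t'' ≤ p t')).Nonempty :=
      ⟨t', Finset.mem_filter.2 ⟨htV', hst', le_rfl⟩⟩
    obtain ⟨t'', ht'', hsup⟩ := Finset.exists_mem_eq_sup _ hne (fun t'' => rk V s p (lf t''))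
    rw [Finset.mem_filter] at ht''
    have e1 : rk V s p (lf t'') = k := by rw [← hsup]; exact hk'
    have e2 : mk V s p lf t'' = k := by
      have a1 := rk_le_mk (V := V) (s := s) (p := p) (lf := lf) ht''.1 ht''.2.1 (le_refl (p t''))
      have a2 := mk_mono (V := V) (s := s) (p := p) (lf := lf) ht''.2.2
      omega
    have e3 := hmin t'' (by rw [hT, Finset.mem_filter]; exact ⟨ht''.1, ht''.2.1, e2⟩)
    have e4 := h.inj t'' ht''.1 t' htV' (by rw [ht''.2.1, hst']) (by omega)
    rw [← e4]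
    exact e1
  obtain ⟨hl1', hl2', hl3'⟩ := lf_side h hlf htV' hst'
  set T' := T.filter (fun t => lf t ≠ lf t') with hT'
  have c1 : T'.card ≤ D := by
    refine star_le h hD hl1' htV' (hsym _ _ hl3') T' fun t ht => ?_
    rw [hT', Finset.mem_filter] at ht
    obtain ⟨htT, hne⟩ := ht
    have hmt := hmin t htT
    rw [hT, Finset.mem_filter] at htT
    obtain ⟨htV, hst, hk⟩ := htT
    obtain ⟨hl1, hl2, hl3⟩ := lf_side h hlf htV hst
    have e1 : rk V s p (lf t) ≤ rk V s p (lf t') := by
      rw [hrk, ← hk]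
      exact rk_le_mk htV hst le_rfl
    rw [rk_le_iff hl1 hl2 hl1' hl2'] at e1
    have e2 : p (lf t) < p (lf t') := by
      refine lt_of_le_of_ne e1 fun hh => hne ?_
      exact h.inj _ hl1 _ hl1' (by rw [hl2, hl2']) hh
    have e3 : p t' < p t := by
      refine lt_of_le_of_ne hmt fun hh => hne ?_
      have := h.inj t' htV' t htV (by rw [hst, hst']) hh
      rw [this]
    exact ⟨htV, lf t, hl1, by rw [hl2, hl2'], hsym _ _ hl3, by unfold Cr; omega⟩
  have hsub : T ⊆ T' ∪ nb V A (lf t') := by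
    intro t ht
    rw [Finset.mem_union]
    by_cases hh : lf t = lf t'
    · right
      rw [hT, Finset.mem_filter] at ht
      obtain ⟨htV, hst, hk⟩ := ht
      obtain ⟨hl1, hl2, hl3⟩ := lf_side h hlf htV hst
      rw [← hh, mem_nb]
      exact ⟨htV, hsym _ _ hl3⟩
    · left
      rw [hT', Finset.mem_filter]
      exact ⟨ht, hh⟩
  have e1 := Finset.card_le_card hsub
  have e2 := Finset.card_union_le T' (nb V A (lf t'))
  have e3 := hD _ hl1'
  omega

/-- the key of a vertex -/
noncomputable def kap (V : Finset ℕ) (s : ℕ → Bool) (p : ℕ → ℤ) (lf : ℕ → ℕ) (v : ℕ) : ℕ :=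
  if s v = true then mk V s p lf v else rk V s p v

open Classical in
include h hsym hD hlf in
theorem kap_card (k : ℕ) : (V.filter (fun v => kap V s p lf v = k)).card ≤ 2 * D + 1 := by
  have h1 := factC h hsym hD hlf k
  set T := V.filter (fun t => s t = true ∧ mk V s p lf t = k) with hT
  set B := V.filter (fun b => s b = false ∧ rk V s p b = k) with hB
  have h2 : B.card ≤ 1 := by
    rw [Finset.card_le_one]
    intro b hb b' hb'
    rw [hB, Finset.mem_filter] at hb hb'
    have e1 := (rk_le_iff (p := p) hb.1 hb.2.1 hb'.1 hb'.2.1).1 (by omega)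
    have e2 := (rk_le_iff (p := p) hb'.1 hb'.2.1 hb.1 hb.2.1).1 (by omega)
    exact h.inj _ hb.1 _ hb'.1 (by rw [hb.2.1, hb'.2.1]) (by omega)
  have hsub : V.filter (fun v => kap V s p lf v = k) ⊆ T ∪ B := by
    intro v hv
    rw [Finset.mem_filter] at hv
    rw [Finset.mem_union, hT, hB, Finset.mem_filter, Finset.mem_filter]
    unfold kap at hv
    by_cases hs : s v = true
    · rw [if_pos hs] at hv
      exact Or.inl ⟨hv.1, hs, hv.2⟩
    · rw [if_neg hs] at hv
      exact Or.inr ⟨hv.1, by simpa using hs, hv.2⟩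
  have e1 := Finset.card_le_card hsub
  have e2 := Finset.card_union_le T B
  omega

include h hsym hD hlf in
theorem kap_edge {u v : ℕ} (hu : u ∈ V) (hv : v ∈ V) (huv : A u v) :
    kap V s p lf v ≤ kap V s p lf u + (3 * D + 1) := by
  have hb := h.bip u hu v hv huv
  unfold kap
  by_cases hs : s u = true
  · have hsv : ¬ s v = true := by rw [hs] at hb; exact fun hh => hb hh.symm
    rw [if_pos hs, if_neg hsv]
    have e1 := factA h hsym hD hlf hu hs (mem_nb.2 ⟨hv, huv⟩)
    have e2 := rk_le_mk (V := V) (s := s) (p := p) (lf := lf) hu hs (le_refl (p u))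
    omega
  · have hsv : s v = true := by
      revert hs hb
      cases s u <;> cases s v <;> simp
    rw [if_neg hs, if_pos hsv]
    have e1 := factB h hsym hD hlf hv hsv
    obtain ⟨hl1, hl2, hl3⟩ := lf_side h hlf hv hsv
    have e2 := (hlf v hv).2 u (mem_nb.2 ⟨hu, hsym _ _ huv⟩)
    have e3 := (rk_le_iff (p := p) hl1 hl2 hu (by simpa using hs)).2 e2
    omega

theorem kap_mono {u v : ℕ} (hu : u ∈ V) (hv : v ∈ V) (hs : s u = s v) (hl : p u ≤ p v) :
    kap V s p lf u ≤ kap V s p lf v := by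
  unfold kap
  by_cases hsu : s u = true
  · rw [if_pos hsu, if_pos (by rw [← hs]; exact hsu)]
    exact mk_mono hl
  · rw [if_neg hsu, if_neg (by rw [← hs]; exact hsu)]
    have h1 : s u = false := by simpa using hsu
    exact (rk_le_iff hu h1 hv (by rw [← hs]; exact h1)).2 hl

end

open Classical in
/-- The two lines can be merged so that every edge has bounded span. -/
theorem band (h : Dr V A s p) (hsym : ∀ u v, A u v → A v u) {D : ℕ}
    (hD : ∀ v ∈ V, (nb V A v).card ≤ D) (hne : ∀ v ∈ V, (nb V A v).Nonempty) :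
    ∃ q : ℕ → ℤ, (∀ u ∈ V, ∀ v ∈ V, q u = q v → u = v) ∧ Dr V A s q ∧
      ∀ u ∈ V, ∀ v ∈ V, A u v →
        (V.filter (fun z => q u ≤ q z ∧ q z ≤ q v)).card ≤ (3 * D + 2) * (2 * D + 1) := by
  have hlf' : ∀ t : ℕ, ∃ b : ℕ, t ∈ V → b ∈ nb V A t ∧ ∀ b' ∈ nb V A t, p b ≤ p b' := by
    intro t
    by_cases ht : t ∈ V
    · obtain ⟨b, hb, hb'⟩ := Finset.exists_min_image (nb V A t) p (hne t ht)
      exact ⟨b, fun _ => ⟨hb, hb'⟩⟩
    · exact ⟨0, fun hh => absurd hh ht⟩
  choose lf hlf using hlf'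
  obtain ⟨B, hB0, hB⟩ : ∃ B : ℤ, 0 < B ∧ ∀ v ∈ V, - B < p v ∧ p v < B := by
    refine ⟨(V.sup (fun v => (p v).natAbs) : ℕ) + 1, by positivity, fun v hv => ?_⟩
    have : (p v).natAbs ≤ V.sup (fun v => (p v).natAbs) :=
      Finset.le_sup (f := fun v => (p v).natAbs) hv
    omega
  set κ := kap V s p lf with hκ
  set q : ℕ → ℤ := fun v => (κ v : ℤ) * (8 * B) + (if s v = true then 4 * B else 0) + p v with hq
  have hsb : ∀ v, 0 ≤ (if s v = true then 4 * B else 0) ∧ (if s v = true then 4 * B else 0) ≤ 4 * B := by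
    intro v; split_ifs <;> constructor <;> omega
  have hlt : ∀ u ∈ V, ∀ v ∈ V, κ u < κ v → q u < q v := by
    intro u hu v hv huv
    have h1 : ((κ u : ℤ) + 1) * (8 * B) ≤ (κ v : ℤ) * (8 * B) :=
      mul_le_mul_of_nonneg_right (by exact_mod_cast huv) (by omega)
    have h2 := hsb u
    have h3 := hsb v
    have h4 := hB u hu
    have h5 := hB v hv
    simp only [hq]
    have h6 : ((κ u : ℤ) + 1) * (8 * B) = (κ u : ℤ) * (8 * B) + 8 * B := by ring
    omega
  have hord : ∀ u ∈ V, ∀ v ∈ V, s u = s v → (q u < q v ↔ p u < p v) := by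
    have key : ∀ u ∈ V, ∀ v ∈ V, s u = s v → p u < p v → q u < q v := by
      intro u hu v hv hs hp
      have h1 := kap_mono (V := V) (lf := lf) hu hv hs hp.le
      rcases lt_or_eq_of_le h1 with h2 | h2
      · exact hlt u hu v hv h2
      · simp only [hq, hs]
        rw [← hκ] at h2
        rw [h2]
        omega
    intro u hu v hv hs
    refine ⟨fun hh => ?_, key u hu v hv hs⟩
    rcases lt_trichotomy (p u) (p v) with h1 | h1 | h1
    · exact h1
    · rw [h.inj u hu v hv hs h1] at hh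
      omega
    · have := key v hv u hu hs.symm h1
      omega
  have hdr := h.of_order hord
  refine ⟨q, ?_, hdr, ?_⟩
  · intro u hu v hv huv
    by_cases hs : s u = s v
    · exact hdr.inj u hu v hv hs huv
    · exfalso
      rcases lt_trichotomy (κ u) (κ v) with h1 | h1 | h1
      · have := hlt u hu v hv h1; omega
      · simp only [hq] at huv
        rw [h1] at huv
        have h4 := hB u hu
        have h5 := hB v hv
        revert hs huv
        cases s u <;> cases s v <;> simp <;> omega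
      · have := hlt v hv u hu h1; omega
  · intro u hu v hv huv
    have h1 : V.filter (fun z => q u ≤ q z ∧ q z ≤ q v) ⊆
        (Finset.Icc (κ u) (κ v)).biUnion (fun k => V.filter (fun z => κ z = k)) := by
      intro z hz
      rw [Finset.mem_filter] at hz
      rw [Finset.mem_biUnion]
      refine ⟨κ z, ?_, Finset.mem_filter.2 ⟨hz.1, rfl⟩⟩
      rw [Finset.mem_Icc]
      constructor
      · by_contra hcon
        have := hlt z hz.1 u hu (not_le.1 hcon)
        omega
      · by_contra hcon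
        have := hlt v hv z hz.1 (not_le.1 hcon)
        omega
    refine (Finset.card_le_card h1).trans ?_
    have h2 := Finset.card_biUnion_le_card_mul (Finset.Icc (κ u) (κ v))
      (fun k => V.filter (fun z => κ z = k)) (2 * D + 1) (fun k _ => kap_card h hsym hD hlf k)
    refine h2.trans (Nat.mul_le_mul_right _ ?_)
    have h3 := kap_edge h hsym hD hlf hu hv huv
    rw [Nat.card_Icc]
    rw [← hκ] at h3
    omega

end Pool.Agent.TH666.FP
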