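import Pool.Agent.TH666.FP.Pol

/-!
# Components, and the reduction
-/

namespace Pool.Agent.TH666.FP

open Pool.Agent.NPC

/-! ### Components -/

section Comp

variable (V : List ℕ) (A : ℕ → ℕ → Prop)

open Classical in
/-- one step of the exploration -/
noncomputable def grow (S : List ℕ) : List ℕ :=
  V.filter (fun u => decide (u ∈ S ∨ ∃ w ∈ S, A w u))

/-- the start of the exploration -/
def strt (v : ℕ) : List ℕ := V.filter (fun u => decide (u = v))

/-- the component of a vertex -/
noncomputable def comp (v : ℕ) : List ℕ := (grow V A)^[V.length] (strt V v)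

variable {V A}

theorem mem_strt {u v : ℕ} : u ∈ strt V v ↔ u ∈ V ∧ u = v := by
  unfold strt
  rw [List.mem_filter, decide_eq_true_eq]

theorem mem_grow {S : List ℕ} {u : ℕ} : u ∈ grow V A S ↔ u ∈ V ∧ (u ∈ S ∨ ∃ w ∈ S, A w u) := by
  classical
  unfold grow
  rw [List.mem_filter, decide_eq_true_eq]

theorem grow_sub (S : List ℕ) : (grow V A S).Sublist V := by
  unfold grow
  exact List.filter_sublist

/-- the stages -/
theorem stage_sub (v k : ℕ) : ((grow V A)^[k] (strt V v)).Sublist V := by
  cases k with
  | zero => exact List.filter_sublist
  | succ k => rw [Function.iterate_succ_apply']; exact grow_sub _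

theorem stage_mono (v k : ℕ) :
    ((grow V A)^[k] (strt V v)) ⊆ ((grow V A)^[k + 1] (strt V v)) := by
  intro u hu
  rw [Function.iterate_succ_apply', mem_grow]
  exact ⟨(stage_sub v k).subset hu, Or.inl hu⟩

/-- Two filters of the same list, the first one smaller. -/
theorem filter_length_lt {p q : ℕ → Prop} [DecidablePred p] [DecidablePred q] (hpq : ∀ x ∈ V, p x → q x) (hne : ∃ x ∈ V, q x ∧ ¬ p x) :
    (V.filter (fun x => decide (p x))).length < (V.filter (fun x => decide (q x))).length := by
  induction V with
  | nil => obtain ⟨x, hx, -⟩ := hne; simp at hx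
  | cons a V ih =>
    have hle : (V.filter (fun x => decide (p x))).length ≤
        (V.filter (fun x => decide (q x))).length := by
      rw [← List.countP_eq_length_filter, ← List.countP_eq_length_filter]
      refine List.countP_mono_left fun x hx hx' => ?_
      rw [decide_eq_true_eq] at hx' ⊢
      exact hpq x (List.mem_cons_of_mem _ hx) hx'
    obtain ⟨x, hx, hqx, hpx⟩ := hne
    rcases List.mem_cons.1 hx with rfl | hx
    · rw [List.filter_cons_of_neg (by simpa using hpx), List.filter_cons_of_pos (by simpa using hqx)]
      rw [List.length_cons]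
      omega
    · have h1 := ih (fun y hy => hpq y (List.mem_cons_of_mem _ hy)) ⟨x, hx, hqx, hpx⟩
      by_cases hpa : p a
      · rw [List.filter_cons_of_pos (by simpa using hpa),
          List.filter_cons_of_pos (by simpa using hpq a (by simp) hpa)]
        simpa using h1
      · rw [List.filter_cons_of_neg (by simpa using hpa)]
        by_cases hqa : q a
        · rw [List.filter_cons_of_pos (by simpa using hqa), List.length_cons]
          omega
        · rw [List.filter_cons_of_neg (by simpa using hqa)]
          exact h1

open Classical in
theorem comp_fixed (v : ℕ) : grow V A (comp V A v) = comp V A v := by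
  set S : ℕ → List ℕ := fun k => (grow V A)^[k] (strt V v) with hS
  have hsucc : ∀ k, S (k + 1) = grow V A (S k) := fun k => by
    simp only [hS]; rw [Function.iterate_succ_apply']
  -- stages are filters by membership
  have hfilt : ∀ k, S k = V.filter (fun u => decide (u ∈ S k)) := by
    intro k
    have h1 : ∃ p : ℕ → Prop, S k = V.filter (fun u => decide (p u)) := by
      cases k with
      | zero => exact ⟨fun u => u = v, by
          simp only [hS, Function.iterate_zero, id]
          unfold strt
          exact List.filter_congr fun _ _ => by rw [decide_eq_decide]⟩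
      | succ k => exact ⟨fun u => u ∈ S k ∨ ∃ w ∈ S k, A w u, by
          rw [hsucc k]
          unfold grow
          exact List.filter_congr fun _ _ => by rw [decide_eq_decide]⟩
    obtain ⟨p, hp⟩ := h1
    conv_lhs => rw [hp]
    refine List.filter_congr fun u hu => ?_
    rw [decide_eq_decide]
    rw [hp, List.mem_filter, decide_eq_true_eq]
    exact ⟨fun h => ⟨hu, h⟩, fun h => h.2⟩
  have hmono : ∀ k u, u ∈ S k → u ∈ S (k + 1) := fun k u hu => stage_mono v k hu
  have key : ∀ k, S k = S (k + 1) ∨ k ≤ (S k).length := by
    intro k
    induction k with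
    | zero => exact Or.inr (Nat.zero_le _)
    | succ k ih =>
      by_cases he : S k = S (k + 1)
      · left
        rw [hsucc (k + 1), ← he, ← hsucc k]
        exact he
      · right
        have h1 := ih.resolve_left he
        have h2 : (S k).length < (S (k + 1)).length := by
          rw [hfilt k, hfilt (k + 1)]
          refine filter_length_lt (fun x _ hx => hmono k x hx) ?_
          by_contra hcon
          refine he ?_
          rw [hfilt k, hfilt (k + 1)]
          refine List.filter_congr fun u hu => ?_
          rw [decide_eq_decide]
          refine ⟨hmono k u, fun h => ?_⟩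
          by_contra h'
          exact hcon ⟨u, hu, h, h'⟩
        omega
  have hlast : S V.length = S (V.length + 1) := by
    rcases key V.length with h | h
    · exact h
    · have h1 : (S V.length).Sublist V := stage_sub v _
      have h2 := h1.eq_of_length_le h
      have h3 : (S (V.length + 1)).Sublist V := stage_sub v _
      have h4 : (S (V.length + 1)).length = V.length := by
        refine le_antisymm h3.length_le ?_
        rw [hfilt (V.length + 1), ← List.countP_eq_length_filter]
        have : V.length = (V.filter (fun u => decide (u ∈ S V.length))).length := by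
          rw [← hfilt]; rw [h2]
        conv_lhs => rw [this, ← List.countP_eq_length_filter]
        refine List.countP_mono_left fun x hx hx' => ?_
        rw [decide_eq_true_eq] at hx' ⊢
        exact hmono _ x hx'
      rw [h2, h3.eq_of_length_le h4.ge]
  have h1 : comp V A v = S V.length := rfl
  rw [h1, ← hsucc, ← hlast]

theorem comp_sub (v : ℕ) : (comp V A v).Sublist V := stage_sub v _

theorem comp_closed {v x y : ℕ} (hx : x ∈ comp V A v) (hy : y ∈ V) (hxy : A x y) :
    y ∈ comp V A v := by
  rw [← comp_fixed, mem_grow]
  exact ⟨hy, Or.inr ⟨x, hx, hxy⟩⟩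

theorem comp_self {v : ℕ} (hv : v ∈ V) : v ∈ comp V A v := by
  have h : ∀ k, v ∈ (grow V A)^[k] (strt V v) := by
    intro k
    induction k with
    | zero => rw [Function.iterate_zero, id, mem_strt]; exact ⟨hv, rfl⟩
    | succ k ih => exact stage_mono v k ih
  exact h _

theorem comp_filter (v : ℕ) :
    comp V A v = V.filter (fun u => @decide (u ∈ comp V A v) (Classical.propDecidable _)) := by
  classical
  conv_lhs => rw [← comp_fixed]
  unfold grow
  refine List.filter_congr fun u hu => ?_
  rw [decide_eq_decide]
  constructor
  · intro h
    rw [← comp_fixed, mem_grow]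
    exact ⟨hu, h⟩
  · intro h
    exact Or.inl h

/-- closed predicates are constant on components -/
theorem comp_pred (hsym : ∀ u v, A u v → A v u) {v : ℕ} {T : ℕ → Prop}
    (hT : ∀ x ∈ comp V A v, T x → ∀ y ∈ comp V A v, A x y → T y) (hv : v ∈ V)
    {x : ℕ} (hx : x ∈ comp V A v) (hTx : T x) {y : ℕ} (hy : y ∈ comp V A v) : T y := by
  classical
  have hmem : ∀ k u, u ∈ (grow V A)^[k] (strt V v) →
      u ∈ comp V A v := by
    intro k
    induction k with
    | zero =>
      intro u hu
      rw [Function.iterate_zero, id, mem_strt] at hu
      rw [hu.2]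
      exact comp_self hv
    | succ k ih =>
      intro u hu
      rw [Function.iterate_succ_apply', mem_grow] at hu
      rcases hu with ⟨huV, h | ⟨w, hw, hwu⟩⟩
      · exact ih u h
      · exact comp_closed (ih w hw) huV hwu
  have hback : ∀ k u, u ∈ (grow V A)^[k] (strt V v) → T u → T v := by
    intro k
    induction k with
    | zero =>
      intro u hu hTu
      rw [Function.iterate_zero, id, mem_strt] at hu
      rw [← hu.2]
      exact hTu
    | succ k ih =>
      intro u hu hTu
      have hu' := hmem (k + 1) u hu
      rw [Function.iterate_succ_apply', mem_grow] at hu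
      rcases hu with ⟨huV, h | ⟨w, hw, hwu⟩⟩
      · exact ih u h hTu
      · exact ih w hw (hT u hu' hTu w (hmem k w hw) (hsym _ _ hwu))
  have hfor : ∀ k u, u ∈ (grow V A)^[k] (strt V v) → T v → T u := by
    intro k
    induction k with
    | zero =>
      intro u hu hTv
      rw [Function.iterate_zero, id, mem_strt] at hu
      rw [hu.2]
      exact hTv
    | succ k ih =>
      intro u hu hTv
      have hu' := hmem (k + 1) u hu
      rw [Function.iterate_succ_apply', mem_grow] at hu
      rcases hu with ⟨huV, h | ⟨w, hw, hwu⟩⟩
      · exact ih u h hTv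
      · exact hT w (hmem k w hw) (ih w hw hTv) u hu' hwu
  exact hfor _ y hy (hback _ x hx hTx)

theorem comp_conn (hsym : ∀ u v, A u v → A v u) (v : ℕ) : Conn (comp V A v) A := by
  intro T hT hcl x hx
  obtain ⟨z, hz, hTz⟩ := hT
  by_cases hv : v ∈ V
  · exact comp_pred hsym hcl hv hz hTz hx
  · exfalso
    classical
    have h0 : ∀ k, (grow V A)^[k] (strt V v) = [] := by
      intro k
      induction k with
      | zero =>
        rw [Function.iterate_zero, id]
        unfold strt
        rw [List.filter_eq_nil_iff]
        intro a ha
        rw [decide_eq_true_eq]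
        rintro rfl
        exact hv ha
      | succ k ih =>
        rw [Function.iterate_succ_apply', ih]
        unfold grow
        rw [List.filter_eq_nil_iff]
        intro a _
        simp
    have : comp V A v = [] := h0 _
    rw [this] at hx
    simp at hx

theorem comp_eq (hsym : ∀ u v, A u v → A v u) {u v : ℕ} (hv : v ∈ V) (hu : u ∈ comp V A v) :
    comp V A u = comp V A v := by
  classical
  have huV : u ∈ V := (comp_sub v).subset hu
  rw [comp_filter u, comp_filter v]
  refine List.filter_congr fun w hw => ?_
  rw [decide_eq_decide]
  constructor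
  · intro h
    -- membership in comp v is closed
    refine comp_pred (V := V) (A := A) (T := fun z => z ∈ comp V A v) hsym ?_ huV
      (comp_self huV) hu h
    intro x _ hx' y hy hxy
    exact comp_closed hx' ((comp_sub u).subset hy) hxy
  · intro h
    refine comp_pred (V := V) (A := A) (T := fun z => z ∈ comp V A u) hsym ?_ hv
      hu (comp_self huV) h
    intro x _ hx' y hy hxy
    exact comp_closed hx' ((comp_sub v).subset hy) hxy

/-- Drawings may be found for each component separately. -/
theorem comb_iff_comp (hsym : ∀ u v, A u v → A v u) :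
    Comb V.toFinset A ↔ ∀ v ∈ V, Comb (comp V A v).toFinset A := by
  classical
  constructor
  · intro h v hv
    refine h.mono ?_
    intro u hu
    rw [List.mem_toFinset] at hu ⊢
    exact (comp_sub v).subset hu
  · intro h
    have hex : ∀ C : Finset ℕ, ∃ (s : ℕ → Bool) (p : ℕ → ℤ), Comb C A → Dr C A s p := by
      intro C
      by_cases hC : Comb C A
      · obtain ⟨s, p, hsp⟩ := hC
        exact ⟨s, p, fun _ => hsp⟩
      · exact ⟨fun _ => false, fun _ => 0, fun hh => absurd hh hC⟩
    choose s p hsp using hex
    set C : ℕ → Finset ℕ := fun v => (comp V A v).toFinset with hC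
    have hdr : ∀ v ∈ V, Dr (C v) A (s (C v)) (p (C v)) := fun v hv => hsp _ (h v hv)
    have hself : ∀ v ∈ V, v ∈ C v := fun v hv => List.mem_toFinset.2 (comp_self hv)
    have hCeq : ∀ u v, v ∈ V → u ∈ C v → C u = C v := by
      intro u v hv hu
      simp only [hC]
      rw [comp_eq hsym hv (List.mem_toFinset.1 hu)]
    -- the number of a component
    set c : ℕ → ℕ := fun v => sInf {u | u ∈ C v} with hc
    have hcmem : ∀ v ∈ V, c v ∈ C v := fun v hv => Nat.sInf_mem (s := {u | u ∈ C v}) ⟨v, hself v hv⟩
    have hceq : ∀ u ∈ V, ∀ v ∈ V, c u = c v → C u = C v := by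
      intro u hu v hv huv
      have h1 := hCeq _ _ hu (hcmem u hu)
      have h2 := hCeq _ _ hv (hcmem v hv)
      rw [← h1, ← h2, huv]
    obtain ⟨M, hM0, hM⟩ : ∃ M : ℤ, 0 < M ∧ ∀ v ∈ V, - M < p (C v) v ∧ p (C v) v < M := by
      refine ⟨(V.toFinset.sup (fun v => (p (C v) v).natAbs) : ℕ) + 1, by positivity,
        fun v hv => ?_⟩
      have : (p (C v) v).natAbs ≤ V.toFinset.sup (fun v => (p (C v) v).natAbs) :=
        Finset.le_sup (f := fun v => (p (C v) v).natAbs) (List.mem_toFinset.2 hv)
      omega
    set P : ℕ → ℤ := fun v => (c v : ℤ) * (2 * M) + p (C v) v with hP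
    have hlt : ∀ u ∈ V, ∀ v ∈ V, c u < c v → P u < P v := by
      intro u hu v hv huv
      have h1 : ((c u : ℤ) + 1) * (2 * M) ≤ (c v : ℤ) * (2 * M) :=
        mul_le_mul_of_nonneg_right (by exact_mod_cast huv) (by omega)
      have h4 := hM u hu
      have h5 := hM v hv
      simp only [hP]
      have h6 : ((c u : ℤ) + 1) * (2 * M) = (c u : ℤ) * (2 * M) + 2 * M := by ring
      omega
    have hsame : ∀ u ∈ V, ∀ v ∈ V, C u = C v → P v - P u = p (C v) v - p (C v) u := by
      intro u hu v hv huv
      have : c u = c v := by simp only [hc]; rw [huv]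
      simp only [hP]
      rw [this, huv]
      ring
    have hadj : ∀ u ∈ V, ∀ v ∈ V, A u v → C v = C u := by
      intro u hu v hv huv
      exact hCeq v u hu (List.mem_toFinset.2 (comp_closed (comp_self hu) hv huv))
    refine ⟨fun v => s (C v) v, P, ?_, ?_, ?_⟩
    · intro u hu v hv h1 h2
      rw [List.mem_toFinset] at hu hv
      have hcc : c u = c v := by
        rcases lt_trichotomy (c u) (c v) with h3 | h3 | h3
        · have := hlt u hu v hv h3; omega
        · exact h3
        · have := hlt v hv u hu h3; omega
      have hCC := hceq u hu v hv hcc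
      have h3 := hsame u hu v hv hCC
      have huv : u ∈ C v := by rw [← hCC]; exact hself u hu
      refine (hdr v hv).inj u huv v (hself v hv) ?_ (by omega)
      rw [hCC] at h1
      exact h1
    · intro u hu v hv huv
      rw [List.mem_toFinset] at hu hv
      have hCC := hadj u hu v hv huv
      have := (hdr u hu).bip u (hself u hu) v (by rw [← hCC]; exact hself v hv) huv
      simp only [hCC]
      exact this
    · intro a ha b hb c' hc' d hd u hu v hv s1 s2 A1 A2 A3 c1 c2
      rw [List.mem_toFinset] at ha hb hc' hd hu hv
      have eab := hadj a ha b hb A1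
      have ecd := hadj c' hc' d hd A2
      have euv := hadj u hu v hv A3
      have ccab : c b = c a := by simp only [hc]; rw [eab]
      have cccd : c d = c c' := by simp only [hc]; rw [ecd]
      have ccuv : c v = c u := by simp only [hc]; rw [euv]
      have gen : ∀ x ∈ V, ∀ y ∈ V, c y = c x → Cr P a b x y → c x = c a := by
        intro x hx y hy hxy hcr
        rcases lt_trichotomy (c x) (c a) with h3 | h3 | h3
        · have e1 := hlt x hx a ha h3
          have e2 := hlt y hy b hb (by omega)
          unfold Cr at hcr
          omega
        · exact h3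
        · have e1 := hlt a ha x hx h3
          have e2 := hlt b hb y hy (by omega)
          unfold Cr at hcr
          omega
      have e1 := hceq _ hc' _ ha (gen c' hc' d hd cccd c1)
      have e2 := hceq _ hu _ ha (gen u hu v hv ccuv c2)
      have fab := hsame a ha b hb eab.symm
      have fac := hsame c' hc' a ha e1
      have fad := hsame d hd a ha (ecd.trans e1)
      have fau := hsame u hu a ha e2
      have fav := hsame v hv a ha (euv.trans e2)
      have fbb := hsame b hb a ha eab
      have mem : ∀ x ∈ V, C x = C a → x ∈ C a := by
        intro x hx hxa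
        rw [← hxa]
        exact hself x hx
      simp only [e1, e2] at s1 s2
      exact (hdr a ha).fan a (hself a ha) b (mem b hb eab) c' (mem c' hc' e1) d
        (mem d hd (ecd.trans e1)) u (mem u hu e2) v (mem v hv (euv.trans e2)) s1 s2 A1 A2 A3
        (by unfold Cr at *; omega) (by unfold Cr at *; omega)

end Comp

end Pool.Agent.TH666.FP
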