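import Mathlib

/-!
# Two-layer fan-planar drawings, combinatorially

Reduction of twins of degree at most two, and the degree bound for reduced graphs.
-/

namespace Pool.Agent.TH666.FP

/-- The edges `ab` and `cd`, with `a` and `c` on one line and `b` and `d` on the other, cross. -/
def Cr (p : ℕ → ℤ) (a b c d : ℕ) : Prop :=
  (p a < p c ∧ p d < p b) ∨ (p c < p a ∧ p b < p d)

/-- `s` (the line) and `p` (the position) describe a fan-planar drawing on two lines. -/
structure Dr (V : Finset ℕ) (A : ℕ → ℕ → Prop) (s : ℕ → Bool) (p : ℕ → ℤ) : Prop where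
  inj : ∀ u ∈ V, ∀ v ∈ V, s u = s v → p u = p v → u = v
  bip : ∀ u ∈ V, ∀ v ∈ V, A u v → s u ≠ s v
  fan : ∀ a ∈ V, ∀ b ∈ V, ∀ c ∈ V, ∀ d ∈ V, ∀ u ∈ V, ∀ v ∈ V, s c = s a → s u = s a →
    A a b → A c d → A u v → Cr p a b c d → Cr p a b u v → c = u ∨ d = v

/-- There is a fan-planar drawing on two lines. -/
def Comb (V : Finset ℕ) (A : ℕ → ℕ → Prop) : Prop := ∃ s p, Dr V A s p

theorem Cr.swap {p : ℕ → ℤ} {a b c d : ℕ} (h : Cr p a b c d) : Cr p b a d c := by
  unfold Cr at *; omega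

theorem Cr.comm {p : ℕ → ℤ} {a b c d : ℕ} (h : Cr p a b c d) : Cr p c d a b := by
  unfold Cr at *; omega

variable {V : Finset ℕ} {A : ℕ → ℕ → Prop} {s : ℕ → Bool} {p : ℕ → ℤ}

theorem Dr.mono {W : Finset ℕ} (h : Dr V A s p) (hW : W ⊆ V) : Dr W A s p where
  inj u hu v hv := h.inj u (hW hu) v (hW hv)
  bip u hu v hv := h.bip u (hW hu) v (hW hv)
  fan a ha b hb c hc d hd u hu v hv :=
    h.fan a (hW ha) b (hW hb) c (hW hc) d (hW hd) u (hW hu) v (hW hv)

theorem Comb.mono {W : Finset ℕ} (h : Comb V A) (hW : W ⊆ V) : Comb W A := by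
  obtain ⟨s, p, h⟩ := h
  exact ⟨s, p, h.mono hW⟩

theorem Dr.congr {p' : ℕ → ℤ} {s' : ℕ → Bool} (h : Dr V A s p) (hp : ∀ v ∈ V, p' v = p v)
    (hs : ∀ v ∈ V, s' v = s v) : Dr V A s' p' where
  inj u hu v hv := by rw [hp u hu, hp v hv, hs u hu, hs v hv]; exact h.inj u hu v hv
  bip u hu v hv := by rw [hs u hu, hs v hv]; exact h.bip u hu v hv
  fan a ha b hb c hc d hd u hu v hv := by
    unfold Cr
    rw [hp a ha, hp b hb, hp c hc, hp d hd, hp u hu, hp v hv, hs c hc, hs a ha, hs u hu]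
    exact h.fan a ha b hb c hc d hd u hu v hv

open Classical in
/-- the neighbourhood of a vertex -/
noncomputable def nb (V : Finset ℕ) (A : ℕ → ℕ → Prop) (v : ℕ) : Finset ℕ := V.filter (A v)

theorem mem_nb {v u : ℕ} : u ∈ nb V A v ↔ u ∈ V ∧ A v u := by
  classical
  unfold nb
  rw [Finset.mem_filter]

open Classical in
/-- no vertex of degree at most 2 has three twins -/
def Reduced (V : Finset ℕ) (A : ℕ → ℕ → Prop) : Prop :=
  ∀ v ∈ V, (nb V A v).card ≤ 2 → (V.filter (fun u => nb V A u = nb V A v)).card ≤ 3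

/-! ### Inserting a twin -/

/-- Insertion of `z` immediately behind `y`. -/
def insP (p : ℕ → ℤ) (y z : ℕ) : ℕ → ℤ := fun x => if x = z then 2 * p y + 1 else 2 * p x

/-- Insertion of `z` on the line of `y`. -/
def insS (s : ℕ → Bool) (y z : ℕ) : ℕ → Bool := fun x => if x = z then s y else s x

theorem dr_insert {y z : ℕ} (h : Dr V A s p) (hsym : ∀ u v, A u v → A v u)
    (hirr : ∀ v, ¬ A v v) (hz : z ∉ V) (hy : y ∈ V)
    (hN : ∀ u ∈ V, A z u ↔ A y u)
    (key : ∀ a ∈ insert z V, ∀ b ∈ V, ∀ c ∈ insert z V, ∀ d ∈ V, ∀ u ∈ insert z V, ∀ v ∈ V,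
      insS s y z a = s y → insS s y z c = s y → insS s y z u = s y →
      A a b → A c d → A u v → Cr (insP p y z) a b c d → Cr (insP p y z) a b u v → c ≠ u → d ≠ v →
      (a = z ∨ c = z ∨ u = z) → False) :
    Dr (insert z V) A (insS s y z) (insP p y z) := by
  have hs : ∀ x ∈ V, insS s y z x = s x := by
    intro x hx
    unfold insS
    rw [if_neg (by rintro rfl; exact hz hx)]
  have hsz : insS s y z z = s y := by unfold insS; rw [if_pos rfl]
  have hpp : ∀ x ∈ V, insP p y z x = 2 * p x := by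
    intro x hx
    unfold insP
    rw [if_neg (by rintro rfl; exact hz hx)]
  have hpz : insP p y z z = 2 * p y + 1 := by unfold insP; rw [if_pos rfl]
  have hbip : ∀ u ∈ insert z V, ∀ v ∈ insert z V, A u v → insS s y z u ≠ insS s y z v := by
    intro u hu v hv huv
    rw [Finset.mem_insert] at hu hv
    rcases hu with rfl | hu
    · rcases hv with rfl | hv
      · exact absurd huv (hirr _)
      · rw [hsz, hs v hv]
        exact h.bip y hy v hv ((hN v hv).1 huv)
    · rcases hv with rfl | hv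
      · rw [hsz, hs u hu]
        exact h.bip u hu y hy (hsym _ _ ((hN u hu).1 (hsym _ _ huv)))
      · rw [hs u hu, hs v hv]
        exact h.bip u hu v hv huv
  have hne : ∀ b ∈ insert z V, insS s y z b ≠ s y → b ∈ V := by
    intro b hb hb'
    rw [Finset.mem_insert] at hb
    rcases hb with rfl | hb
    · exact absurd hsz hb'
    · exact hb
  have main : ∀ a ∈ insert z V, ∀ b ∈ insert z V, ∀ c ∈ insert z V, ∀ d ∈ insert z V,
      ∀ u ∈ insert z V, ∀ v ∈ insert z V, insS s y z a = s y → insS s y z c = s y →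
      insS s y z u = s y → A a b → A c d → A u v →
      Cr (insP p y z) a b c d → Cr (insP p y z) a b u v → c = u ∨ d = v := by
    intro a ha b hb c hc d hd u hu v hv h1 h2 h3 h4 h5 h6 h7 h8
    have hb' : b ∈ V := hne b hb (by rw [← h1]; exact (hbip a ha b hb h4).symm)
    have hd' : d ∈ V := hne d hd (by rw [← h2]; exact (hbip c hc d hd h5).symm)
    have hv' : v ∈ V := hne v hv (by rw [← h3]; exact (hbip u hu v hv h6).symm)
    by_contra hcon
    rw [not_or] at hcon
    by_cases hzz : a = z ∨ c = z ∨ u = z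
    · exact key a ha b hb' c hc d hd' u hu v hv' h1 h2 h3 h4 h5 h6 h7 h8 hcon.1 hcon.2 hzz
    · rw [not_or, not_or] at hzz
      have ha' : a ∈ V := (Finset.mem_insert.1 ha).resolve_left hzz.1
      have hc' : c ∈ V := (Finset.mem_insert.1 hc).resolve_left hzz.2.1
      have hu' : u ∈ V := (Finset.mem_insert.1 hu).resolve_left hzz.2.2
      rw [hs a ha'] at h1
      rw [hs c hc'] at h2
      rw [hs u hu'] at h3
      unfold Cr at h7 h8
      rw [hpp a ha', hpp b hb', hpp c hc', hpp d hd'] at h7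
      rw [hpp a ha', hpp b hb', hpp u hu', hpp v hv'] at h8
      have := h.fan a ha' b hb' c hc' d hd' u hu' v hv' (by rw [h2, h1]) (by rw [h3, h1]) h4 h5 h6
        (by unfold Cr; omega) (by unfold Cr; omega)
      tauto
  refine ⟨?_, hbip, ?_⟩
  · intro u hu v hv h1 h2
    rw [Finset.mem_insert] at hu hv
    rcases hu with rfl | hu
    · rcases hv with rfl | hv
      · rfl
      · rw [hpz, hpp v hv] at h2
        omega
    · rcases hv with rfl | hv
      · rw [hpz, hpp u hu] at h2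
        omega
      · rw [hs u hu, hs v hv] at h1
        rw [hpp u hu, hpp v hv] at h2
        exact h.inj u hu v hv h1 (by omega)
  · intro a ha b hb c hc d hd u hu v hv h1 h2 h4 h5 h6 h7 h8
    by_cases h0 : insS s y z a = s y
    · exact main a ha b hb c hc d hd u hu v hv h0 (h1.trans h0) (h2.trans h0) h4 h5 h6 h7 h8
    · have hb0 : insS s y z b = s y := by
        have := hbip a ha b hb h4
        revert this h0
        cases insS s y z a <;> cases insS s y z b <;> cases s y <;> simp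
      have hd0 : insS s y z d = s y := by
        have := hbip c hc d hd h5
        rw [h1] at this
        revert this h0
        cases insS s y z a <;> cases insS s y z d <;> cases s y <;> simp
      have hv0 : insS s y z v = s y := by
        have := hbip u hu v hv h6
        rw [h2] at this
        revert this h0
        cases insS s y z a <;> cases insS s y z v <;> cases s y <;> simp
      exact (main b hb a ha d hd c hc v hv u hu hb0 hd0 hv0 (hsym _ _ h4) (hsym _ _ h5)
        (hsym _ _ h6) h7.swap h8.swap).symm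

/-- Inserting a fourth twin of degree at most one. -/
theorem comb_insert_one {y z x : ℕ} (h : Comb V A) (hsym : ∀ u v, A u v → A v u)
    (hirr : ∀ v, ¬ A v v) (hz : z ∉ V) (hy : y ∈ V)
    (hN : ∀ u ∈ V, A z u ↔ A y u) (hx : ∀ u ∈ V, A y u → u = x) :
    Comb (insert z V) A := by
  obtain ⟨s, p, h⟩ := h
  refine ⟨insS s y z, insP p y z, dr_insert h hsym hirr hz hy hN ?_⟩
  have hpp : ∀ x ∈ V, insP p y z x = 2 * p x := by
    intro x hx
    unfold insP
    rw [if_neg (by rintro rfl; exact hz hx)]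
  have hpz : insP p y z z = 2 * p y + 1 := by unfold insP; rw [if_pos rfl]
  have hs : ∀ x ∈ V, insS s y z x = s x := by
    intro x hx
    unfold insS
    rw [if_neg (by rintro rfl; exact hz hx)]
  have hNz : ∀ u ∈ V, A z u → u = x := fun u hu hzu => hx u hu ((hN u hu).1 hzu)
  intro a ha b hb c hc d hd u hu v hv h1 h2 h3 h4 h5 h6 h7 h8 hcu hdv hz3
  -- the case where `e` is at `z` or at `y`
  have hyx : ∀ c ∈ insert z V, ∀ d ∈ V, A c d → d ≠ x → c ∈ V ∧ c ≠ y := by
    intro c hc d hd hcd hdx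
    rw [Finset.mem_insert] at hc
    rcases hc with rfl | hc
    · exact absurd (hNz d hd hcd) hdx
    · refine ⟨hc, ?_⟩
      rintro rfl
      exact hdx (hx d hd hcd)
  by_cases haz : a = z
  · subst haz
    have hbx := hNz b hb h4
    have hdx : d ≠ x := by
      rintro rfl
      rw [hbx] at h7
      unfold Cr at h7
      omega
    have hvx : v ≠ x := by
      rintro rfl
      rw [hbx] at h8
      unfold Cr at h8
      omega
    obtain ⟨hc', hcy⟩ := hyx c hc d hd h5 hdx
    obtain ⟨hu', huy⟩ := hyx u hu v hv h6 hvx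
    rw [hs c hc'] at h2
    rw [hs u hu'] at h3
    have hpc : p c ≠ p y := fun hh => hcy (h.inj c hc' y hy h2 hh)
    have hpu : p u ≠ p y := fun hh => huy (h.inj u hu' y hy h3 hh)
    unfold Cr at h7 h8
    rw [hpz, hpp b hb, hpp c hc', hpp d hd] at h7
    rw [hpz, hpp b hb, hpp u hu', hpp v hv] at h8
    have := h.fan y hy b hb c hc' d hd u hu' v hv h2 h3 ((hN b hb).1 h4) h5 h6
      (by unfold Cr; omega) (by unfold Cr; omega)
    tauto
  · have ha' : a ∈ V := (Finset.mem_insert.1 ha).resolve_left haz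
    rw [hs a ha'] at h1
    -- by symmetry `f` is at `z`
    have gen : ∀ d ∈ V, ∀ u ∈ insert z V, ∀ v ∈ V, insS s y z u = s y → A z d → A u v →
        Cr (insP p y z) a b z d → Cr (insP p y z) a b u v → z ≠ u → d ≠ v → False := by
      intro d hd u hu v hv h3 h5 h6 h7 h8 hcu hdv
      have hdx := hNz d hd h5
      obtain ⟨hu', huy⟩ := hyx u hu v hv h6 (by rw [← hdx]; exact hdv.symm)
      have hbx : b ≠ x := by
        rintro rfl
        rw [hdx] at h7
        unfold Cr at h7
        omega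
      obtain ⟨-, hay⟩ := hyx a ha b hb h4 hbx
      have hpa : p a ≠ p y := fun hh => hay (h.inj a ha' y hy h1 hh)
      rw [hs u hu'] at h3
      unfold Cr at h7 h8
      rw [hpz, hpp a ha', hpp b hb, hpp d hd] at h7
      rw [hpp a ha', hpp b hb, hpp u hu', hpp v hv] at h8
      have := h.fan a ha' b hb y hy d hd u hu' v hv h1.symm (by rw [h3, h1]) h4 ((hN d hd).1 h5) h6
        (by unfold Cr; omega) (by unfold Cr; omega)
      rcases this with h9 | h9
      · exact huy h9.symm
      · exact hdv h9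
    rcases hz3 with h9 | h9 | h9
    · exact haz h9
    · subst h9
      exact gen d hd u hu v hv h3 h5 h6 h7 h8 hcu hdv
    · subst h9
      exact gen v hv c hc d hd h2 h6 h5 h8 h7 hcu.symm hdv.symm

/-- Inserting a fourth twin of degree two. -/
theorem comb_insert_two {y1 y2 y3 z x1 x2 : ℕ} (h : Dr V A s p) (hsym : ∀ u v, A u v → A v u)
    (hirr : ∀ v, ¬ A v v) (hz : z ∉ V) (hy1 : y1 ∈ V) (hy2 : y2 ∈ V) (hy3 : y3 ∈ V)
    (h12 : p y1 < p y2) (h23 : p y2 < p y3)
    (hx1 : x1 ∈ V) (hx2 : x2 ∈ V) (hx12 : p x1 < p x2)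
    (hN1 : ∀ u ∈ V, A y1 u ↔ (u = x1 ∨ u = x2))
    (hN2 : ∀ u ∈ V, A y2 u ↔ (u = x1 ∨ u = x2))
    (hN3 : ∀ u ∈ V, A y3 u ↔ (u = x1 ∨ u = x2))
    (hN : ∀ u ∈ V, A z u ↔ (u = x1 ∨ u = x2)) :
    Comb (insert z V) A := by
  have hNz : ∀ u ∈ V, A z u ↔ A y2 u := fun u hu => (hN u hu).trans (hN2 u hu).symm
  refine ⟨insS s y2 z, insP p y2 z, dr_insert h hsym hirr hz hy2 hNz ?_⟩
  have hpp : ∀ x ∈ V, insP p y2 z x = 2 * p x := by
    intro x hx
    unfold insP
    rw [if_neg (by rintro rfl; exact hz hx)]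
  have hpz : insP p y2 z z = 2 * p y2 + 1 := by unfold insP; rw [if_pos rfl]
  have hs : ∀ x ∈ V, insS s y2 z x = s x := by
    intro x hx
    unfold insS
    rw [if_neg (by rintro rfl; exact hz hx)]
  -- sides of the twins
  have sx1 : ∀ y ∈ V, A y x1 → s y ≠ s x1 := fun y hy hh => h.bip y hy x1 hx1 hh
  have A11 : A y1 x1 := (hN1 x1 hx1).2 (Or.inl rfl)
  have A12 : A y1 x2 := (hN1 x2 hx2).2 (Or.inr rfl)
  have A21 : A y2 x1 := (hN2 x1 hx1).2 (Or.inl rfl)
  have A22 : A y2 x2 := (hN2 x2 hx2).2 (Or.inr rfl)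
  have A31 : A y3 x1 := (hN3 x1 hx1).2 (Or.inl rfl)
  have A32 : A y3 x2 := (hN3 x2 hx2).2 (Or.inr rfl)
  have s12 : s y1 = s y2 := by
    have e1 := sx1 y1 hy1 A11
    have e2 := sx1 y2 hy2 A21
    revert e1 e2
    cases s y1 <;> cases s y2 <;> cases s x1 <;> simp
  have s32 : s y3 = s y2 := by
    have e1 := sx1 y3 hy3 A31
    have e2 := sx1 y2 hy2 A21
    revert e1 e2
    cases s y3 <;> cases s y2 <;> cases s x1 <;> simp
  have P1 := hpp y1 hy1
  have P2 := hpp y2 hy2
  have P3 := hpp y3 hy3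
  have Q1 := hpp x1 hx1
  have Q2 := hpp x2 hx2
  -- fact 1
  have F1 : ∀ t ∈ insert z V, ∀ b ∈ V, insS s y2 z t = s y2 → A t b →
      insP p y2 z t < 2 * p y3 → p x1 < p b → b = x2 := by
    intro t ht b hb hst htb hlt hxb
    rw [Finset.mem_insert] at ht
    rcases ht with rfl | ht
    · rcases (hN b hb).1 htb with rfl | rfl
      · omega
      · rfl
    · rw [hs t ht] at hst
      rw [hpp t ht] at hlt
      have c0 : Cr p y3 x1 t b := by unfold Cr; omega
      have c1 : Cr p y3 x1 y1 x2 := by unfold Cr; omega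
      have c2 : Cr p y3 x1 y2 x2 := by unfold Cr; omega
      have f1 := h.fan y3 hy3 x1 hx1 t ht b hb y1 hy1 x2 hx2 (by rw [hst, s32]) (by rw [s12, s32])
        A31 htb A12 c0 c1
      have f2 := h.fan y3 hy3 x1 hx1 t ht b hb y2 hy2 x2 hx2 (by rw [hst, s32]) (by rw [s32])
        A31 htb A22 c0 c2
      rcases f1 with rfl | h1
      · rcases f2 with rfl | h2
        · omega
        · exact h2
      · exact h1
  -- fact 2
  have F2 : ∀ t ∈ insert z V, ∀ b ∈ V, insS s y2 z t = s y2 → A t b →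
      2 * p y1 < insP p y2 z t → p b < p x2 → b = x1 := by
    intro t ht b hb hst htb hlt hxb
    rw [Finset.mem_insert] at ht
    rcases ht with rfl | ht
    · rcases (hN b hb).1 htb with rfl | rfl
      · rfl
      · omega
    · rw [hs t ht] at hst
      rw [hpp t ht] at hlt
      have c0 : Cr p y1 x2 t b := by unfold Cr; omega
      have c1 : Cr p y1 x2 y2 x1 := by unfold Cr; omega
      have c2 : Cr p y1 x2 y3 x1 := by unfold Cr; omega
      have f1 := h.fan y1 hy1 x2 hx2 t ht b hb y2 hy2 x1 hx1 (by rw [hst, s12]) (by rw [s12])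
        A12 htb A21 c0 c1
      have f2 := h.fan y1 hy1 x2 hx2 t ht b hb y3 hy3 x1 hx1 (by rw [hst, s12]) (by rw [s12, s32])
        A12 htb A31 c0 c2
      rcases f1 with rfl | h1
      · rcases f2 with rfl | h2
        · omega
        · exact h2
      · exact h1
  intro a ha b hb c hc d hd u hu v hv h1 h2 h3 h4 h5 h6 h7 h8 hcu hdv hz3
  have Pb := hpp b hb
  -- crossing a new edge
  have G1 : ∀ c ∈ insert z V, ∀ d ∈ V, insS s y2 z c = s y2 → A c d →
      Cr (insP p y2 z) z x1 c d → d = x2 ∧ insP p y2 z c < insP p y2 z z := by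
    intro c hc d hd h2 h5 h7
    have Pd := hpp d hd
    unfold Cr at h7
    rcases h7 with h7 | h7
    · have := F2 c hc d hd h2 h5 (by omega) (by omega)
      subst this
      omega
    · exact ⟨F1 c hc d hd h2 h5 (by omega) (by omega), h7.1⟩
  have G2 : ∀ c ∈ insert z V, ∀ d ∈ V, insS s y2 z c = s y2 → A c d →
      Cr (insP p y2 z) z x2 c d → d = x1 ∧ insP p y2 z z < insP p y2 z c := by
    intro c hc d hd h2 h5 h7
    have Pd := hpp d hd
    unfold Cr at h7
    rcases h7 with h7 | h7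
    · exact ⟨F2 c hc d hd h2 h5 (by omega) (by omega), h7.1⟩
    · have := F1 c hc d hd h2 h5 (by omega) (by omega)
      subst this
      omega
  by_cases haz : a = z
  · subst haz
    rcases (hN b hb).1 h4 with rfl | rfl
    · exact hdv ((G1 c hc d hd h2 h5 h7).1.trans (G1 u hu v hv h3 h6 h8).1.symm)
    · exact hdv ((G2 c hc d hd h2 h5 h7).1.trans (G2 u hu v hv h3 h6 h8).1.symm)
  · have ha' : a ∈ V := (Finset.mem_insert.1 ha).resolve_left haz
    have Pa := hpp a ha'
    have h1' := h1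
    rw [hs a ha'] at h1'
    have gen : ∀ d ∈ V, ∀ u ∈ insert z V, ∀ v ∈ V, insS s y2 z u = s y2 → A z d → A u v →
        Cr (insP p y2 z) a b z d → Cr (insP p y2 z) a b u v → z ≠ u → d ≠ v → False := by
      intro d hd u hu v hv h3 h5 h6 h7 h8 hcu hdv
      have hu' : u ∈ V := (Finset.mem_insert.1 hu).resolve_left (Ne.symm hcu)
      have Pu := hpp u hu'
      have Pv := hpp v hv
      rw [hs u hu'] at h3
      rcases (hN d hd).1 h5 with rfl | rfl
      · obtain ⟨rfl, h9⟩ := G1 a ha b hb h1 h4 h7.comm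
        have c8 : Cr p a b u v := by unfold Cr at h8 ⊢; omega
        have c9 : Cr p a b y3 d := by unfold Cr; omega
        have := h.fan a ha' b hb y3 hy3 d hd u hu' v hv (by rw [s32, h1']) (by rw [h3, h1']) h4
          A31 h6 c9 c8
        rcases this with rfl | h10
        · rcases (hN3 v hv).1 h6 with rfl | rfl
          · exact hdv rfl
          · unfold Cr at c8
            omega
        · exact hdv h10
      · obtain ⟨rfl, h9⟩ := G2 a ha b hb h1 h4 h7.comm
        have c8 : Cr p a b u v := by unfold Cr at h8 ⊢; omega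
        have c9 : Cr p a b y1 d := by unfold Cr; omega
        have := h.fan a ha' b hb y1 hy1 d hd u hu' v hv (by rw [s12, h1']) (by rw [h3, h1']) h4
          A12 h6 c9 c8
        rcases this with rfl | h10
        · rcases (hN1 v hv).1 h6 with rfl | rfl
          · unfold Cr at c8
            omega
          · exact hdv rfl
        · exact hdv h10
    rcases hz3 with h9 | h9 | h9
    · exact haz h9
    · subst h9
      exact gen d hd u hu v hv h3 h5 h6 h7 h8 hcu hdv
    · subst h9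
      exact gen v hv c hc d hd h2 h6 h5 h8 h7 hcu.symm hdv.symm

/-! ### Removing a twin -/

/-- A vertex of degree at most two with three twins may be removed. -/
theorem comb_of_erase {z y1 y2 y3 : ℕ} (hsym : ∀ u v, A u v → A v u)
    (hirr : ∀ v, ¬ A v v) (hz : z ∈ V) (hdeg : (nb V A z).card ≤ 2)
    (hy1 : y1 ∈ V) (hy2 : y2 ∈ V) (hy3 : y3 ∈ V) (e1 : y1 ≠ z) (e2 : y2 ≠ z) (e3 : y3 ≠ z)
    (h12 : y1 ≠ y2) (h13 : y1 ≠ y3) (h23 : y2 ≠ y3)
    (n1 : nb V A y1 = nb V A z) (n2 : nb V A y2 = nb V A z) (n3 : nb V A y3 = nb V A z)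
    (h : Comb (V.erase z) A) : Comb V A := by
  classical
  have hins : insert z (V.erase z) = V := Finset.insert_erase hz
  have hzn : z ∉ V.erase z := Finset.notMem_erase z V
  have hmem : ∀ y, y ∈ V → y ≠ z → y ∈ V.erase z := fun y h1 h2 => Finset.mem_erase.2 ⟨h2, h1⟩
  have hA : ∀ y, nb V A y = nb V A z → ∀ u ∈ V.erase z, A y u ↔ A z u := by
    intro y hy u hu
    have hu' := Finset.mem_of_mem_erase hu
    have h1 : u ∈ nb V A y ↔ u ∈ nb V A z := by rw [hy]
    rw [mem_nb, mem_nb] at h1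
    tauto
  rw [← hins]
  have hcard : (nb V A z).card = 0 ∨ (nb V A z).card = 1 ∨ (nb V A z).card = 2 := by omega
  have one : ∀ x, (∀ u ∈ V.erase z, A z u → u = x) → Comb (insert z (V.erase z)) A := by
    intro x hx
    exact comb_insert_one (y := y1) (x := x) h hsym hirr hzn (hmem y1 hy1 e1)
      (fun u hu => (hA y1 n1 u hu).symm) (fun u hu hh => hx u hu ((hA y1 n1 u hu).1 hh))
  rcases hcard with h0 | h0 | h0
  · refine one z fun u hu hzu => ?_
    rw [Finset.card_eq_zero] at h0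
    have : u ∈ nb V A z := mem_nb.2 ⟨Finset.mem_of_mem_erase hu, hzu⟩
    rw [h0] at this
    simp at this
  · obtain ⟨x, hx⟩ := Finset.card_eq_one.1 h0
    refine one x fun u hu hzu => ?_
    have : u ∈ nb V A z := mem_nb.2 ⟨Finset.mem_of_mem_erase hu, hzu⟩
    rw [hx, Finset.mem_singleton] at this
    exact this
  · obtain ⟨x1, x2, hx12, hx⟩ := Finset.card_eq_two.1 h0
    have hx1 : x1 ∈ nb V A z := by rw [hx]; simp
    have hx2 : x2 ∈ nb V A z := by rw [hx]; simp
    rw [mem_nb] at hx1 hx2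
    have hx1z : x1 ≠ z := by rintro rfl; exact hirr _ hx1.2
    have hx2z : x2 ≠ z := by rintro rfl; exact hirr _ hx2.2
    have hNz : ∀ u ∈ V.erase z, A z u ↔ (u = x1 ∨ u = x2) := by
      intro u hu
      have h1 : u ∈ nb V A z ↔ u ∈ ({x1, x2} : Finset ℕ) := by rw [hx]
      rw [mem_nb, Finset.mem_insert, Finset.mem_singleton] at h1
      have := Finset.mem_of_mem_erase hu
      tauto
    have hNy : ∀ y, nb V A y = nb V A z → ∀ u ∈ V.erase z, A y u ↔ (u = x1 ∨ u = x2) :=
      fun y hy u hu => (hA y hy u hu).trans (hNz u hu)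
    obtain ⟨s, p, h⟩ := h
    -- the general statement for sorted twins and sorted neighbours
    have gen : ∀ w1 w2 w3 : ℕ, w1 ∈ V.erase z → w2 ∈ V.erase z → w3 ∈ V.erase z →
        nb V A w1 = nb V A z → nb V A w2 = nb V A z → nb V A w3 = nb V A z →
        p w1 < p w2 → p w2 < p w3 → Comb (insert z (V.erase z)) A := by
      intro w1 w2 w3 hw1 hw2 hw3 m1 m2 m3 l12 l23
      have hne : p x1 ≠ p x2 := by
        intro hh
        refine hx12 (h.inj x1 (hmem _ hx1.1 hx1z) x2 (hmem _ hx2.1 hx2z) ?_ hh)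
        have b1 := h.bip w1 hw1 x1 (hmem _ hx1.1 hx1z) ((hNy w1 m1 x1 (hmem _ hx1.1 hx1z)).2 (Or.inl rfl))
        have b2 := h.bip w1 hw1 x2 (hmem _ hx2.1 hx2z) ((hNy w1 m1 x2 (hmem _ hx2.1 hx2z)).2 (Or.inr rfl))
        revert b1 b2
        cases s w1 <;> cases s x1 <;> cases s x2 <;> simp
      rcases lt_or_gt_of_ne hne with hl | hl
      · exact comb_insert_two h hsym hirr hzn hw1 hw2 hw3 l12 l23 (hmem _ hx1.1 hx1z)
          (hmem _ hx2.1 hx2z) hl (hNy w1 m1) (hNy w2 m2) (hNy w3 m3) hNz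
      · exact comb_insert_two h hsym hirr hzn hw1 hw2 hw3 l12 l23 (hmem _ hx2.1 hx2z)
          (hmem _ hx1.1 hx1z) hl (fun u hu => (hNy w1 m1 u hu).trans or_comm)
          (fun u hu => (hNy w2 m2 u hu).trans or_comm)
          (fun u hu => (hNy w3 m3 u hu).trans or_comm) (fun u hu => (hNz u hu).trans or_comm)
    have m1 := hmem y1 hy1 e1
    have m2 := hmem y2 hy2 e2
    have m3 := hmem y3 hy3 e3
    have mx1 := hmem x1 hx1.1 hx1z
    have sy : ∀ y ∈ V.erase z, nb V A y = nb V A z → s y ≠ s x1 := fun y hy hn =>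
      h.bip y hy x1 mx1 ((hNy y hn x1 mx1).2 (Or.inl rfl))
    have seq : ∀ y ∈ V.erase z, ∀ y' ∈ V.erase z, nb V A y = nb V A z → nb V A y' = nb V A z →
        s y = s y' := by
      intro y hy y' hy' hn hn'
      have b1 := sy y hy hn
      have b2 := sy y' hy' hn'
      revert b1 b2
      cases s y <;> cases s y' <;> cases s x1 <;> simp
    have p12 : p y1 ≠ p y2 := fun hh => h12 (h.inj _ m1 _ m2 (seq _ m1 _ m2 n1 n2) hh)
    have p13 : p y1 ≠ p y3 := fun hh => h13 (h.inj _ m1 _ m3 (seq _ m1 _ m3 n1 n3) hh)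
    have p23 : p y2 ≠ p y3 := fun hh => h23 (h.inj _ m2 _ m3 (seq _ m2 _ m3 n2 n3) hh)
    rcases lt_or_gt_of_ne p12 with a | a <;> rcases lt_or_gt_of_ne p13 with b | b <;>
      rcases lt_or_gt_of_ne p23 with c | c
    · exact gen y1 y2 y3 m1 m2 m3 n1 n2 n3 a c
    · exact gen y1 y3 y2 m1 m3 m2 n1 n3 n2 b c
    · omega
    · exact gen y3 y1 y2 m3 m1 m2 n3 n1 n2 b a
    · exact gen y2 y1 y3 m2 m1 m3 n2 n1 n3 a b
    · omega
    · exact gen y2 y3 y1 m2 m3 m1 n2 n3 n1 c b
    · exact gen y3 y2 y1 m3 m2 m1 n3 n2 n1 c a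

open Classical in
theorem comb_erase_iff {z : ℕ} (hsym : ∀ u v, A u v → A v u)
    (hirr : ∀ v, ¬ A v v) (hz : z ∈ V) (hdeg : (nb V A z).card ≤ 2)
    (hc : 3 < (V.filter (fun u => nb V A u = nb V A z)).card) :
    Comb V A ↔ Comb (V.erase z) A := by
  refine ⟨fun h => h.mono (Finset.erase_subset _ _), fun h => ?_⟩
  set C := V.filter (fun u => nb V A u = nb V A z) with hC
  have hzC : z ∈ C := by rw [hC, Finset.mem_filter]; exact ⟨hz, rfl⟩
  have h3 : 2 < (C.erase z).card := by rw [Finset.card_erase_of_mem hzC]; omega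
  obtain ⟨y1, h1, y2, h2, y3, h3, h12, h13, h23⟩ := Finset.two_lt_card.1 h3
  have hm : ∀ y ∈ C.erase z, y ∈ V ∧ y ≠ z ∧ nb V A y = nb V A z := by
    intro y hy
    rw [Finset.mem_erase, hC, Finset.mem_filter] at hy
    exact ⟨hy.2.1, hy.1, hy.2.2⟩
  exact comb_of_erase hsym hirr hz hdeg (hm _ h1).1 (hm _ h2).1 (hm _ h3).1 (hm _ h1).2.1
    (hm _ h2).2.1 (hm _ h3).2.1 h12 h13 h23 (hm _ h1).2.2 (hm _ h2).2.2 (hm _ h3).2.2 h

/-! ### The degree bound -/

theorem side_eq (h : Dr V A s p) {t u v : ℕ} (ht : t ∈ V) (hu : u ∈ V) (hv : v ∈ V)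
    (h1 : A t u) (h2 : A t v) : s u = s v := by
  have b1 := h.bip t ht u hu h1
  have b2 := h.bip t ht v hv h2
  revert b1 b2
  cases s t <;> cases s u <;> cases s v <;> simp

open Classical in
theorem deg_le (h : Dr V A s p) (hsym : ∀ u v, A u v → A v u)
    (hred : Reduced V A) {t : ℕ} (ht : t ∈ V) : (nb V A t).card ≤ 15 := by
  rcases (nb V A t).eq_empty_or_nonempty with h0 | h0
  · rw [h0]; simp
  obtain ⟨b0, hb0, hmin⟩ := Finset.exists_min_image (nb V A t) p h0
  obtain ⟨b1, hb1, hmax⟩ := Finset.exists_max_image (nb V A t) p h0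
  have hb0' := mem_nb.1 hb0
  have hb1' := mem_nb.1 hb1
  set B := ((nb V A t).erase b0).erase b1 with hB
  have hBmem : ∀ b ∈ B, b ∈ V ∧ A t b ∧ p b0 < p b ∧ p b < p b1 := by
    intro b hb
    rw [hB, Finset.mem_erase, Finset.mem_erase] at hb
    obtain ⟨e1, e0, hb⟩ := hb
    have hb' := mem_nb.1 hb
    have h1 := hmin b hb
    have h2 := hmax b hb
    refine ⟨hb'.1, hb'.2, lt_of_le_of_ne h1 fun hh => e0 ?_, lt_of_le_of_ne h2 fun hh => e1 ?_⟩
    · exact (h.inj b0 hb0'.1 b hb'.1 (side_eq h ht hb0'.1 hb'.1 hb0'.2 hb'.2) hh).symm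
    · exact h.inj b hb'.1 b1 hb1'.1 (side_eq h ht hb'.1 hb1'.1 hb'.2 hb1'.2) hh
  have hcardB : (nb V A t).card ≤ B.card + 2 := by
    have h1 := Finset.pred_card_le_card_erase (s := nb V A t) (a := b0)
    have h2 := Finset.pred_card_le_card_erase (s := (nb V A t).erase b0) (a := b1)
    rw [← hB] at h2
    omega
  -- neighbours of interior neighbours are on the side of t
  have hside : ∀ b ∈ B, ∀ y ∈ nb V A b, s y = s t := by
    intro b hb y hy
    obtain ⟨hbV, htb, -, -⟩ := hBmem b hb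
    have hy' := mem_nb.1 hy
    exact side_eq h hbV hy'.1 ht hy'.2 (hsym _ _ htb)
  obtain ⟨sR, bR, hR⟩ : ∃ sR bR : ℕ, ∀ b ∈ B, b ≠ bR → ∀ y ∈ nb V A b, p t < p y → y = sR := by
    by_cases hex : ∃ b ∈ B, ∃ y ∈ nb V A b, p t < p y
    · obtain ⟨b', hb', y', hy', hty'⟩ := hex
      refine ⟨y', b', fun b hb hne y hy hty => ?_⟩
      obtain ⟨hbV, htb, l1, l2⟩ := hBmem b hb
      obtain ⟨hbV', htb', l1', l2'⟩ := hBmem b' hb'
      have my := mem_nb.1 hy
      have my' := mem_nb.1 hy'
      have := h.fan t ht b1 hb1'.1 y my.1 b hbV y' my'.1 b' hbV' (hside b hb y hy)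
        (hside b' hb' y' hy') hb1'.2 (hsym _ _ my.2) (hsym _ _ my'.2) (by unfold Cr; omega)
        (by unfold Cr; omega)
      exact this.resolve_right hne
    · refine ⟨0, 0, fun b hb _ y hy hty => absurd ⟨b, hb, y, hy, hty⟩ hex⟩
  obtain ⟨sL, bL, hL⟩ : ∃ sL bL : ℕ, ∀ b ∈ B, b ≠ bL → ∀ y ∈ nb V A b, p y < p t → y = sL := by
    by_cases hex : ∃ b ∈ B, ∃ y ∈ nb V A b, p y < p t
    · obtain ⟨b', hb', y', hy', hty'⟩ := hex
      refine ⟨y', b', fun b hb hne y hy hty => ?_⟩
      obtain ⟨hbV, htb, l1, l2⟩ := hBmem b hb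
      obtain ⟨hbV', htb', l1', l2'⟩ := hBmem b' hb'
      have my := mem_nb.1 hy
      have my' := mem_nb.1 hy'
      have := h.fan t ht b0 hb0'.1 y my.1 b hbV y' my'.1 b' hbV' (hside b hb y hy)
        (hside b' hb' y' hy') hb0'.2 (hsym _ _ my.2) (hsym _ _ my'.2) (by unfold Cr; omega)
        (by unfold Cr; omega)
      exact this.resolve_right hne
    · refine ⟨0, 0, fun b hb _ y hy hty => absurd ⟨b, hb, y, hy, hty⟩ hex⟩
  -- the classes
  set C4 := B.filter (fun b => (∃ y ∈ nb V A b, p t < p y) ∧ ∃ y ∈ nb V A b, p y < p t) with hC4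
  have card4 : C4.card ≤ 2 := by
    by_contra hcon
    have hne : C4.Nonempty := by rw [← Finset.card_pos]; omega
    obtain ⟨c0, hc0, hc0m⟩ := Finset.exists_min_image C4 p hne
    obtain ⟨c1, hc1, hc1m⟩ := Finset.exists_max_image C4 p hne
    have h1 := Finset.pred_card_le_card_erase (s := C4) (a := c0)
    have h2 := Finset.pred_card_le_card_erase (s := C4.erase c0) (a := c1)
    obtain ⟨c, hc⟩ : ((C4.erase c0).erase c1).Nonempty := by rw [← Finset.card_pos]; omega
    rw [Finset.mem_erase, Finset.mem_erase] at hc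
    obtain ⟨e1, e0, hc⟩ := hc
    have m0 := Finset.mem_filter.1 hc0
    have m1 := Finset.mem_filter.1 hc1
    have m := Finset.mem_filter.1 hc
    obtain ⟨hcV, htc, -, -⟩ := hBmem c m.1
    obtain ⟨hcV0, htc0, -, -⟩ := hBmem c0 m0.1
    obtain ⟨hcV1, htc1, -, -⟩ := hBmem c1 m1.1
    have l0 : p c0 < p c := lt_of_le_of_ne (hc0m c hc) fun hh =>
      e0 (h.inj c hcV c0 hcV0 (side_eq h ht hcV hcV0 htc htc0) hh.symm)
    have l1 : p c < p c1 := lt_of_le_of_ne (hc1m c hc) fun hh =>
      e1 (h.inj c hcV c1 hcV1 (side_eq h ht hcV hcV1 htc htc1) hh)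
    obtain ⟨y, hy, hty⟩ := m0.2.1
    obtain ⟨y', hy', hty'⟩ := m1.2.2
    have my := mem_nb.1 hy
    have my' := mem_nb.1 hy'
    have := h.fan t ht c hcV y my.1 c0 hcV0 y' my'.1 c1 hcV1 (hside c0 m0.1 y hy)
        (hside c1 m1.1 y' hy') htc (hsym _ _ my.2) (hsym _ _ my'.2) (by unfold Cr; omega)
        (by unfold Cr; omega)
    rcases this with rfl | rfl
    · omega
    · omega
  set K : Finset ℕ → Finset ℕ := fun N => V.filter (fun u => nb V A u = N) with hK
  have cardK : ∀ N : Finset ℕ, N.card ≤ 2 → (K N).card ≤ 3 := by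
    intro N hN
    rcases (K N).eq_empty_or_nonempty with h1 | ⟨v, hv⟩
    · rw [h1]; simp
    · rw [hK, Finset.mem_filter] at hv
      have := hred v hv.1 (by rw [hv.2]; exact hN)
      rw [hv.2] at this
      exact this
  have hsub : B ⊆ {bR, bL} ∪ (C4 ∪ (K {t} ∪ (K {t, sR} ∪ K {t, sL}))) := by
    intro b hb
    obtain ⟨hbV, htb, -, -⟩ := hBmem b hb
    simp only [Finset.mem_union, Finset.mem_insert, Finset.mem_singleton]
    by_cases e1 : b = bR
    · exact Or.inl (Or.inl e1)
    by_cases e2 : b = bL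
    · exact Or.inl (Or.inr e2)
    right
    by_cases h4 : b ∈ C4
    · exact Or.inl h4
    right
    have tmem : t ∈ nb V A b := mem_nb.2 ⟨ht, hsym _ _ htb⟩
    have hcls : ∀ y ∈ nb V A b, y = t ∨ (y = sR ∧ p t < p y) ∨ (y = sL ∧ p y < p t) := by
      intro y hy
      rcases lt_trichotomy (p y) (p t) with hl | hl | hl
      · exact Or.inr (Or.inr ⟨hL b hb e2 y hy hl, hl⟩)
      · exact Or.inl (h.inj y (mem_nb.1 hy).1 t ht (hside b hb y hy) hl)
      · exact Or.inr (Or.inl ⟨hR b hb e1 y hy hl, hl⟩)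
    rw [hC4, Finset.mem_filter] at h4
    have h4' : ¬ ((∃ y ∈ nb V A b, p t < p y) ∧ ∃ y ∈ nb V A b, p y < p t) := fun hh =>
      h4 ⟨hb, hh⟩
    by_cases hu : ∃ y ∈ nb V A b, p t < p y
    · have hd : ¬ ∃ y ∈ nb V A b, p y < p t := fun hh => h4' ⟨hu, hh⟩
      right; left
      rw [hK, Finset.mem_filter]
      refine ⟨hbV, ?_⟩
      obtain ⟨y, hy, hty⟩ := hu
      have hyR : y = sR := by
        rcases hcls y hy with rfl | h5 | h5
        · omega
        · exact h5.1
        · omega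
      ext w
      rw [Finset.mem_insert, Finset.mem_singleton]
      constructor
      · intro hw
        rcases hcls w hw with h5 | h5 | h5
        · exact Or.inl h5
        · exact Or.inr h5.1
        · exact absurd ⟨w, hw, h5.2⟩ hd
      · rintro (rfl | rfl)
        · exact tmem
        · rw [← hyR]; exact hy
    · by_cases hd : ∃ y ∈ nb V A b, p y < p t
      · right; right
        rw [hK, Finset.mem_filter]
        refine ⟨hbV, ?_⟩
        obtain ⟨y, hy, hty⟩ := hd
        have hyR : y = sL := by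
          rcases hcls y hy with rfl | h5 | h5
          · omega
          · omega
          · exact h5.1
        ext w
        rw [Finset.mem_insert, Finset.mem_singleton]
        constructor
        · intro hw
          rcases hcls w hw with h5 | h5 | h5
          · exact Or.inl h5
          · exact absurd ⟨w, hw, h5.2⟩ hu
          · exact Or.inr h5.1
        · rintro (rfl | rfl)
          · exact tmem
          · rw [← hyR]; exact hy
      · left
        rw [hK, Finset.mem_filter]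
        refine ⟨hbV, ?_⟩
        ext w
        rw [Finset.mem_singleton]
        constructor
        · intro hw
          rcases hcls w hw with h5 | h5 | h5
          · exact h5
          · exact absurd ⟨w, hw, h5.2⟩ hu
          · exact absurd ⟨w, hw, h5.2⟩ hd
        · rintro rfl
          exact tmem
  have c1 := Finset.card_le_card hsub
  have c2 := Finset.card_union_le {bR, bL} (C4 ∪ (K {t} ∪ (K {t, sR} ∪ K {t, sL})))
  have c3 := Finset.card_union_le C4 (K {t} ∪ (K {t, sR} ∪ K {t, sL}))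
  have c4 := Finset.card_union_le (K {t}) (K {t, sR} ∪ K {t, sL})
  have c5 := Finset.card_union_le (K {t, sR}) (K {t, sL})
  have k1 := cardK {t} (by simp)
  have k2 := cardK {t, sR} Finset.card_le_two
  have k3 := cardK {t, sL} Finset.card_le_two
  have k4 : ({bR, bL} : Finset ℕ).card ≤ 2 := Finset.card_le_two
  omega

end Pool.Agent.TH666.FP
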