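import Mathlib

/-!
# Two-layer fan-planar graphs

Straight-line drawings in the plane, crossings, fan-planar drawings, and drawings on two horizontal
lines.
-/

namespace Pool.Agent.TH666.FP

/-- The cross product of two vectors of the plane. -/
def cross (u v : ℝ × ℝ) : ℝ := u.1 * v.2 - u.2 * v.1

/-- The segments `p a p b` and `p c p d` cross properly at the point `x`: it lies in the interior
of both of them, and they have different directions. -/
def CrossAt {V : Type} (p : V → ℝ × ℝ) (a b c d : V) (x : ℝ × ℝ) : Prop :=
  x ∈ openSegment ℝ (p a) (p b) ∧ x ∈ openSegment ℝ (p c) (p d) ∧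
    cross (p b - p a) (p d - p c) ≠ 0

/-- The segments `p a p b` and `p c p d` cross. -/
def Crosses {V : Type} (p : V → ℝ × ℝ) (a b c d : V) : Prop := ∃ x, CrossAt p a b c d x

/-- `p` is (the vertex placement of) a straight-line drawing of `G`: the vertices are distinct
points, no edge passes through a vertex other than its ends, two different edges meet only in
common end-vertices and in proper crossings, and no three edges cross at one point. -/
structure IsDrawing {V : Type} (G : SimpleGraph V) (p : V → ℝ × ℝ) : Prop where
  /-- the vertices are distinct points -/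
  inj : Function.Injective p
  /-- no edge passes through another vertex -/
  avoid : ∀ u v w, G.Adj u v → w ≠ u → w ≠ v → p w ∉ segment ℝ (p u) (p v)
  /-- two edges meet only at a common end-vertex or at a proper crossing -/
  meet : ∀ a b c d, G.Adj a b → G.Adj c d → s(a, b) ≠ s(c, d) →
    ∀ x, x ∈ segment ℝ (p a) (p b) → x ∈ segment ℝ (p c) (p d) →
      (∃ e, (e = a ∨ e = b) ∧ (e = c ∨ e = d) ∧ x = p e) ∨ CrossAt p a b c d x
  /-- no three edges cross at one point -/
  triple : ∀ a b c d e f, G.Adj a b → G.Adj c d → G.Adj e f →
    s(a, b) ≠ s(c, d) → s(a, b) ≠ s(e, f) → s(c, d) ≠ s(e, f) →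
    ∀ x, x ∈ openSegment ℝ (p a) (p b) → x ∈ openSegment ℝ (p c) (p d) →
      x ∉ openSegment ℝ (p e) (p f)

/-- The drawing is fan-planar.

(I) No edge `ab` is crossed by two edges `cd` and `uv` without a common end-vertex.

(II) No edge `ab` is crossed by two edges `uv` and `uw` from opposite sides: orient `ab` from `a` to
`b`, and the other edges away from `u`; an edge `uv` that crosses `ab` passes from the left to the
right of `ab` if `cross (p b - p a) (p v - p u)` is negative, and from the right to the left if it
is positive. -/
structure IsFanPlanar {V : Type} (G : SimpleGraph V) (p : V → ℝ × ℝ) : Prop where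
  /-- configuration (I) does not occur -/
  no_I : ∀ a b c d u v, G.Adj a b → G.Adj c d → G.Adj u v → Crosses p a b c d →
    Crosses p a b u v → c = u ∨ c = v ∨ d = u ∨ d = v
  /-- configuration (II) does not occur -/
  no_II : ∀ a b u v w, G.Adj a b → G.Adj u v → G.Adj u w → Crosses p a b u v →
    Crosses p a b u w → ¬ (cross (p b - p a) (p v - p u) < 0 ∧ 0 < cross (p b - p a) (p w - p u))

/-- `G` is 2-layer fan-planar: it has a fan-planar drawing in which every vertex lies on one of two
distinct horizontal lines and every edge is a straight segment joining vertices on different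
lines. -/
def TwoLayerFanPlanar {V : Type} (G : SimpleGraph V) : Prop :=
  ∃ p : V → ℝ × ℝ, IsDrawing G p ∧ IsFanPlanar G p ∧
    ∃ y₀ y₁ : ℝ, y₀ ≠ y₁ ∧ (∀ v, (p v).2 = y₀ ∨ (p v).2 = y₁) ∧
      ∀ u v, G.Adj u v → (p u).2 ≠ (p v).2

/-- The graph presented by a list of vertices and a list of pairs of vertices: its vertices are
the members of the first list, and two different vertices are adjacent when the second list
contains them as a pair, in one of the two orders. -/
def graphOf (I : List ℕ × List (ℕ × ℕ)) : SimpleGraph {v : ℕ // v ∈ I.1} where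
  Adj u v := u ≠ v ∧ ((u.1, v.1) ∈ I.2 ∨ (v.1, u.1) ∈ I.2)
  symm := ⟨fun _ _ h => ⟨h.1.symm, h.2.symm⟩⟩
  loopless := ⟨fun _ h => h.1 rfl⟩

end Pool.Agent.TH666.FP
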