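import Pool.Agent.TH666.FP.Defs
import Pool.Agent.TH666.FP.Alg

/-!
# Geometric and combinatorial two-layer fan-planar drawings
-/

namespace Pool.Agent.TH666.FP

/-- crossing, for real positions -/
def RCr (xa xb xc xd : ℝ) : Prop := (xa < xc ∧ xd < xb) ∨ (xc < xa ∧ xb < xd)

theorem mem_seg {x a b : ℝ × ℝ} : x ∈ segment ℝ a b ↔
    ∃ t : ℝ, 0 ≤ t ∧ t ≤ 1 ∧ x.1 = (1 - t) * a.1 + t * b.1 ∧ x.2 = (1 - t) * a.2 + t * b.2 := by
  rw [segment_eq_image, Set.mem_image]
  constructor
  · rintro ⟨t, ⟨h0, h1⟩, rfl⟩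
    exact ⟨t, h0, h1, by simp, by simp⟩
  · rintro ⟨t, h0, h1, h2, h3⟩
    exact ⟨t, ⟨h0, h1⟩, Prod.ext (by simpa using h2.symm) (by simpa using h3.symm)⟩

theorem mem_open {x a b : ℝ × ℝ} : x ∈ openSegment ℝ a b ↔
    ∃ t : ℝ, 0 < t ∧ t < 1 ∧ x.1 = (1 - t) * a.1 + t * b.1 ∧ x.2 = (1 - t) * a.2 + t * b.2 := by
  rw [openSegment_eq_image, Set.mem_image]
  constructor
  · rintro ⟨t, ⟨h0, h1⟩, rfl⟩
    exact ⟨t, h0, h1, by simp, by simp⟩
  · rintro ⟨t, h0, h1, h2, h3⟩
    exact ⟨t, ⟨h0, h1⟩, Prod.ext (by simpa using h2.symm) (by simpa using h3.symm)⟩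

theorem crossAt_rcr {V : Type} {p : V → ℝ × ℝ} {a b c d : V} {x : ℝ × ℝ}
    (h : CrossAt p a b c d x) (hac : (p a).2 = (p c).2) (hbd : (p b).2 = (p d).2)
    (hab : (p a).2 ≠ (p b).2) : RCr (p a).1 (p b).1 (p c).1 (p d).1 := by
  obtain ⟨h1, h2, h3⟩ := h
  rw [mem_open] at h1 h2
  obtain ⟨t, t0, t1, e1, e2⟩ := h1
  obtain ⟨s, s0, s1, e3, e4⟩ := h2
  rw [← hac, ← hbd] at e4
  have hst : s = t := by
    have : (s - t) * ((p b).2 - (p a).2) = 0 := by linarith
    rcases mul_eq_zero.1 this with h | h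
    · linarith
    · exact absurd (by linarith) hab
  subst hst
  have key : (1 - s) * ((p c).1 - (p a).1) = s * ((p b).1 - (p d).1) := by linarith
  rcases lt_trichotomy (p a).1 (p c).1 with h | h | h
  · left
    refine ⟨h, ?_⟩
    have : 0 < s * ((p b).1 - (p d).1) := by
      rw [← key]
      exact mul_pos (by linarith) (by linarith)
    have := (mul_pos_iff_of_pos_left s0).1 this
    linarith
  · exfalso
    rw [h, sub_self, mul_zero] at key
    have h4 : (p b).1 = (p d).1 := by
      rcases mul_eq_zero.1 key.symm with h5 | h5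
      · linarith
      · linarith
    apply h3
    unfold cross
    simp only [Prod.fst_sub, Prod.snd_sub]
    rw [h, h4, hac, hbd]
    ring
  · right
    refine ⟨h, ?_⟩
    have : 0 < s * ((p d).1 - (p b).1) := by
      have : s * ((p d).1 - (p b).1) = (1 - s) * ((p a).1 - (p c).1) := by linarith
      rw [this]
      exact mul_pos (by linarith) (by linarith)
    have := (mul_pos_iff_of_pos_left s0).1 this
    linarith

theorem cross_eq {V : Type} {p : V → ℝ × ℝ} {a b c d : V} (hac : (p a).2 = (p c).2)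
    (hbd : (p b).2 = (p d).2) : cross (p b - p a) (p d - p c) =
      ((p b).2 - (p a).2) * (((p c).1 - (p a).1) + ((p b).1 - (p d).1)) := by
  unfold cross
  simp only [Prod.fst_sub, Prod.snd_sub]
  rw [← hac, ← hbd]
  ring

theorem crosses_of_rcr {V : Type} {p : V → ℝ × ℝ} {a b c d : V}
    (h : RCr (p a).1 (p b).1 (p c).1 (p d).1) (hac : (p a).2 = (p c).2)
    (hbd : (p b).2 = (p d).2) (hab : (p a).2 ≠ (p b).2) : Crosses p a b c d := by
  have hne : ((p c).1 - (p a).1) + ((p b).1 - (p d).1) ≠ 0 := by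
    rcases h with h | h
    · have : 0 < ((p c).1 - (p a).1) + ((p b).1 - (p d).1) := by linarith [h.1, h.2]
      exact this.ne'
    · have : ((p c).1 - (p a).1) + ((p b).1 - (p d).1) < 0 := by linarith [h.1, h.2]
      exact this.ne
  set D := ((p c).1 - (p a).1) + ((p b).1 - (p d).1) with hD
  set t := ((p c).1 - (p a).1) / D with ht
  have ht0 : 0 < t := by
    rcases h with h | h
    · exact div_pos (by linarith [h.1]) (by linarith [h.1, h.2])
    · exact div_pos_of_neg_of_neg (by linarith [h.1]) (by linarith [h.1, h.2])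
  have ht1 : t < 1 := by
    have : 1 - t = ((p b).1 - (p d).1) / D := by
      rw [ht]
      field_simp
      rw [hD]
      ring
    have h5 : 0 < 1 - t := by
      rw [this]
      rcases h with h | h
      · exact div_pos (by linarith [h.2]) (by linarith [h.1, h.2])
      · exact div_pos_of_neg_of_neg (by linarith [h.2]) (by linarith [h.1, h.2])
    linarith
  refine ⟨((1 - t) * (p a).1 + t * (p b).1, (1 - t) * (p a).2 + t * (p b).2), ?_, ?_, ?_⟩
  · rw [mem_open]
    exact ⟨t, ht0, ht1, rfl, rfl⟩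
  · rw [mem_open]
    refine ⟨t, ht0, ht1, ?_, ?_⟩
    · have : t * D = (p c).1 - (p a).1 := by
        rw [ht]
        field_simp
      rw [hD] at this
      change (1 - t) * (p a).1 + t * (p b).1 = (1 - t) * (p c).1 + t * (p d).1
      linarith
    · change (1 - t) * (p a).2 + t * (p b).2 = (1 - t) * (p c).2 + t * (p d).2
      rw [hac, hbd]
  · rw [cross_eq hac hbd]
    exact mul_ne_zero (sub_ne_zero.2 hab.symm) hne

theorem crosses_swap {V : Type} {p : V → ℝ × ℝ} {a b c d : V} (h : Crosses p a b c d) :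
    Crosses p a b d c := by
  obtain ⟨x, h1, h2, h3⟩ := h
  refine ⟨x, h1, by rw [openSegment_symm]; exact h2, ?_⟩
  intro h4
  apply h3
  unfold cross at *
  simp only [Prod.fst_sub, Prod.snd_sub] at *
  linarith

/-- replace real positions by integers -/
theorem exists_rank (V : Finset ℕ) (x : ℕ → ℝ) :
    ∃ P : ℕ → ℤ, ∀ u ∈ V, ∀ v ∈ V, (P u < P v ↔ x u < x v) := by
  classical
  refine ⟨fun v => ((V.filter (fun z => x z < x v)).card : ℤ), ?_⟩
  have mono : ∀ u v, x u ≤ x v →
      (V.filter (fun z => x z < x u)).card ≤ (V.filter (fun z => x z < x v)).card := by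
    intro u v huv
    refine Finset.card_le_card ?_
    intro z hz
    rw [Finset.mem_filter] at hz ⊢
    exact ⟨hz.1, hz.2.trans_le huv⟩
  intro u hu v hv
  rw [Nat.cast_lt]
  constructor
  · intro h
    by_contra hcon
    have := mono v u (not_lt.1 hcon)
    omega
  · intro h
    refine Finset.card_lt_card ⟨?_, ?_⟩
    · intro z hz
      rw [Finset.mem_filter] at hz ⊢
      exact ⟨hz.1, hz.2.trans h⟩
    · intro hh
      have : u ∈ V.filter (fun z => x z < x u) := hh (Finset.mem_filter.2 ⟨hu, h⟩)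
      rw [Finset.mem_filter] at this
      exact lt_irrefl _ this.2

theorem comb_of_geom (I : List ℕ × List (ℕ × ℕ)) (h : TwoLayerFanPlanar (graphOf I)) :
    Comb I.1.toFinset (adj I.2) := by
  classical
  obtain ⟨p, hd, hf, y0, y1, hy, hl, he⟩ := h
  -- extend to all numbers
  set s : ℕ → Bool := fun v => if hv : v ∈ I.1 then decide ((p ⟨v, hv⟩).2 = y1) else false with hs
  set x : ℕ → ℝ := fun v => if hv : v ∈ I.1 then (p ⟨v, hv⟩).1 else 0 with hx
  have hsv : ∀ v (hv : v ∈ I.1), s v = decide ((p ⟨v, hv⟩).2 = y1) := by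
    intro v hv
    simp only [hs, dif_pos hv]
  have hxv : ∀ v (hv : v ∈ I.1), x v = (p ⟨v, hv⟩).1 := by
    intro v hv
    simp only [hx, dif_pos hv]
  have hss : ∀ u (hu : u ∈ I.1) v (hv : v ∈ I.1), s u = s v ↔ (p ⟨u, hu⟩).2 = (p ⟨v, hv⟩).2 := by
    intro u hu v hv
    rw [hsv u hu, hsv v hv, decide_eq_decide]
    rcases hl ⟨u, hu⟩ with h1 | h1 <;> rcases hl ⟨v, hv⟩ with h2 | h2 <;> rw [h1, h2] <;>
      simp [hy, hy.symm]
  obtain ⟨P, hP⟩ := exists_rank I.1.toFinset x
  have hadj : ∀ u (hu : u ∈ I.1) v (hv : v ∈ I.1), adj I.2 u v →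
      (graphOf I).Adj ⟨u, hu⟩ ⟨v, hv⟩ := by
    intro u hu v hv huv
    exact ⟨fun hh => huv.1 (congrArg Subtype.val hh), huv.2⟩
  refine ⟨s, P, ?_, ?_, ?_⟩
  · intro u hu v hv h1 h2
    have e1 := hP u hu v hv
    have e2 := hP v hv u hu
    rw [List.mem_toFinset] at hu hv
    have hxx : x u = x v := by
      rcases lt_trichotomy (x u) (x v) with h3 | h3 | h3
      · have := e1.2 h3; omega
      · exact h3
      · have := e2.2 h3; omega
    rw [hxv u hu, hxv v hv] at hxx
    have := hd.inj (Prod.ext hxx ((hss u hu v hv).1 h1))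
    exact congrArg Subtype.val this
  · intro u hu v hv huv h1
    rw [List.mem_toFinset] at hu hv
    exact he _ _ (hadj u hu v hv huv) ((hss u hu v hv).1 h1)
  · intro a ha b hb c hc d hd' u hu v hv s1 s2 A1 A2 A3 c1 c2
    have r : ∀ a ∈ I.1.toFinset, ∀ b ∈ I.1.toFinset, ∀ c ∈ I.1.toFinset, ∀ d ∈ I.1.toFinset,
        Cr P a b c d → RCr (x a) (x b) (x c) (x d) := by
      intro a ha b hb c hc d hd h
      unfold Cr at h
      unfold RCr
      rw [hP a ha c hc, hP d hd b hb, hP c hc a ha, hP b hb d hd] at h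
      exact h
    have r1 := r a ha b hb c hc d hd' c1
    have r2 := r a ha b hb u hu v hv c2
    rw [List.mem_toFinset] at ha hb hc hd' hu hv
    have B1 := hadj a ha b hb A1
    have B2 := hadj c hc d hd' A2
    have B3 := hadj u hu v hv A3
    have n1 := he _ _ B1
    have n2 := he _ _ B2
    have n3 := he _ _ B3
    have hca := (hss c hc a ha).1 s1
    have hua := (hss u hu a ha).1 s2
    have two : ∀ i j k l : {v : ℕ // v ∈ I.1}, (p i).2 ≠ (p j).2 → (p k).2 ≠ (p l).2 →
        (p k).2 = (p i).2 → (p l).2 = (p j).2 := by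
      intro i j k l h1 h2 h3
      rcases hl i with a1 | a1 <;> rcases hl j with a2 | a2 <;> rcases hl k with a3 | a3 <;>
        rcases hl l with a4 | a4 <;> rw [a1] at h1 h3 <;> rw [a2] at h1 ⊢ <;> rw [a3] at h2 h3 <;>
        rw [a4] at h2 ⊢
      all_goals first
        | rfl
        | exact absurd rfl h1
        | exact absurd rfl h2
        | exact absurd h3 hy
        | exact absurd h3.symm hy
    have hdb := two _ _ _ _ n1 n2 hca
    have hvb := two _ _ _ _ n1 n3 hua
    rw [hxv a ha, hxv b hb, hxv c hc, hxv d hd'] at r1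
    rw [hxv a ha, hxv b hb, hxv u hu, hxv v hv] at r2
    have C1 := crosses_of_rcr r1 hca.symm hdb.symm n1
    have C2 := crosses_of_rcr r2 hua.symm hvb.symm n1
    rcases hf.no_I _ _ _ _ _ _ B1 B2 B3 C1 C2 with h1 | h1 | h1 | h1
    · exact Or.inl (congrArg Subtype.val h1)
    · exfalso
      rw [← h1] at hvb
      exact n1 (hca.symm.trans hvb)
    · exfalso
      rw [h1] at hdb
      exact n1 (hua.symm.trans hdb)
    · exact Or.inr (congrArg Subtype.val h1)

theorem geom_of_comb (I : List ℕ × List (ℕ × ℕ)) (h : Comb I.1.toFinset (adj I.2)) :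
    TwoLayerFanPlanar (graphOf I) := by
  classical
  obtain ⟨s, P, h⟩ := h
  set p : {v : ℕ // v ∈ I.1} → ℝ × ℝ := fun v => ((P v.1 : ℝ), if s v.1 = true then 1 else 0) with hp
  have hp1 : ∀ v, (p v).1 = (P v.1 : ℝ) := fun v => rfl
  have hp2 : ∀ v, (p v).2 = if s v.1 = true then (1 : ℝ) else 0 := fun v => rfl
  have hss : ∀ u v : {v : ℕ // v ∈ I.1}, (p u).2 = (p v).2 ↔ s u.1 = s v.1 := by
    intro u v
    rw [hp2, hp2]
    cases s u.1 <;> cases s v.1 <;> simp
  have hm : ∀ v : {v : ℕ // v ∈ I.1}, v.1 ∈ I.1.toFinset := fun v => List.mem_toFinset.2 v.2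
  have hinj : ∀ u v : {v : ℕ // v ∈ I.1}, (p u).2 = (p v).2 → (p u).1 = (p v).1 → u = v := by
    intro u v h1 h2
    rw [hp1, hp1] at h2
    exact Subtype.ext (h.inj _ (hm u) _ (hm v) ((hss u v).1 h1) (by exact_mod_cast h2))
  have hadj : ∀ u v, (graphOf I).Adj u v → adj I.2 u.1 v.1 := by
    intro u v huv
    exact ⟨fun hh => huv.1 (Subtype.ext hh), huv.2⟩
  have he : ∀ u v, (graphOf I).Adj u v → (p u).2 ≠ (p v).2 := by
    intro u v huv hh
    exact h.bip _ (hm u) _ (hm v) (hadj u v huv) ((hss u v).1 hh)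
  have hl : ∀ v, (p v).2 = 0 ∨ (p v).2 = 1 := by
    intro v
    rw [hp2]
    cases s v.1 <;> simp
  -- orientation of edges
  have two : ∀ a b c d, (p a).2 ≠ (p b).2 → (p c).2 ≠ (p d).2 →
      ((p a).2 = (p c).2 ∧ (p b).2 = (p d).2) ∨ ((p a).2 = (p d).2 ∧ (p b).2 = (p c).2) := by
    intro a b c d h1 h2
    rcases hl a with a1 | a1 <;> rcases hl b with a2 | a2 <;> rcases hl c with a3 | a3 <;>
      rcases hl d with a4 | a4 <;> rw [a1, a2] at h1 <;> rw [a3, a4] at h2 <;>
      rw [a1, a2, a3, a4] <;> simp at h1 h2 ⊢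
  -- common points of oriented edges
  have meet : ∀ a b c d, (p a).2 ≠ (p b).2 → (p a).2 = (p c).2 → (p b).2 = (p d).2 →
      ∀ x, x ∈ segment ℝ (p a) (p b) → x ∈ segment ℝ (p c) (p d) →
        (a = c ∧ x = p a) ∨ (b = d ∧ x = p b) ∨ (a = c ∧ b = d) ∨ CrossAt p a b c d x := by
    intro a b c d hab hac hbd x hx1 hx2
    rw [mem_seg] at hx1 hx2
    obtain ⟨t, t0, t1, e1, e2⟩ := hx1
    obtain ⟨r, r0, r1, e3, e4⟩ := hx2
    rw [← hac, ← hbd] at e4
    have hrt : r = t := by
      have : (r - t) * ((p b).2 - (p a).2) = 0 := by linarith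
      rcases mul_eq_zero.1 this with h | h
      · linarith
      · exact absurd (by linarith) hab
    subst hrt
    have key : (1 - r) * ((p c).1 - (p a).1) = r * ((p b).1 - (p d).1) := by linarith
    rcases eq_or_lt_of_le t0 with h0 | h0
    · subst h0
      left
      have h5 : (p a).1 = (p c).1 := by linarith
      refine ⟨hinj a c hac h5, Prod.ext ?_ ?_⟩
      · rw [e1]; ring
      · rw [e2]; ring
    rcases eq_or_lt_of_le t1 with h1 | h1
    · subst h1
      right; left
      have h5 : (p b).1 = (p d).1 := by linarith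
      refine ⟨hinj b d hbd h5, Prod.ext ?_ ?_⟩
      · rw [e1]; ring
      · rw [e2]; ring
    right; right
    by_cases hac1 : (p a).1 = (p c).1
    · left
      rw [hac1, sub_self, mul_zero] at key
      have h5 : (p b).1 = (p d).1 := by
        rcases mul_eq_zero.1 key.symm with h6 | h6
        · linarith
        · linarith
      exact ⟨hinj a c hac hac1, hinj b d hbd h5⟩
    · right
      refine ⟨mem_open.2 ⟨r, h0, h1, e1, e2⟩, mem_open.2 ⟨r, h0, h1, e3, ?_⟩, ?_⟩
      · rw [← hac, ← hbd]; exact e4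
      · rw [cross_eq hac hbd]
        refine mul_ne_zero (sub_ne_zero.2 hab.symm) ?_
        intro h6
        have h7 : (p b).1 - (p d).1 = -((p c).1 - (p a).1) := by linarith
        rw [h7] at key
        have h8 : (p c).1 - (p a).1 = 0 := by linarith
        exact hac1 (by linarith)
  have cr : ∀ a b c d, (p a).2 ≠ (p b).2 → (p a).2 = (p c).2 → (p b).2 = (p d).2 →
      Crosses p a b c d → Cr P a.1 b.1 c.1 d.1 := by
    rintro a b c d hab hac hbd ⟨x, hx⟩
    have h1 := crossAt_rcr hx hac hbd hab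
    unfold RCr at h1
    rw [hp1, hp1, hp1, hp1] at h1
    unfold Cr
    exact_mod_cast h1
  -- fan condition for oriented edges
  have fan : ∀ a b c d u v, (graphOf I).Adj a b → (graphOf I).Adj c d → (graphOf I).Adj u v →
      (p a).2 = (p c).2 → (p b).2 = (p d).2 → (p a).2 = (p u).2 → (p b).2 = (p v).2 →
      Crosses p a b c d → Crosses p a b u v → c = u ∨ d = v := by
    intro a b c d u v A1 A2 A3 h1 h2 h3 h4 c1 c2
    have := h.fan _ (hm a) _ (hm b) _ (hm c) _ (hm d) _ (hm u) _ (hm v)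
      ((hss c a).1 h1.symm) ((hss u a).1 h3.symm) (hadj _ _ A1) (hadj _ _ A2) (hadj _ _ A3)
      (cr a b c d (he _ _ A1) h1 h2 c1) (cr a b u v (he _ _ A1) h3 h4 c2)
    rcases this with h5 | h5
    · exact Or.inl (Subtype.ext h5)
    · exact Or.inr (Subtype.ext h5)
  have noI : ∀ a b c d u v, (graphOf I).Adj a b → (graphOf I).Adj c d → (graphOf I).Adj u v →
      Crosses p a b c d → Crosses p a b u v → c = u ∨ c = v ∨ d = u ∨ d = v := by
    intro a b c d u v A1 A2 A3 c1 c2
    rcases two a b c d (he _ _ A1) (he _ _ A2) with ⟨h1, h2⟩ | ⟨h1, h2⟩ <;>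
      rcases two a b u v (he _ _ A1) (he _ _ A3) with ⟨h3, h4⟩ | ⟨h3, h4⟩
    · rcases fan a b c d u v A1 A2 A3 h1 h2 h3 h4 c1 c2 with h5 | h5
      · exact Or.inl h5
      · exact Or.inr (Or.inr (Or.inr h5))
    · rcases fan a b c d v u A1 A2 A3.symm h1 h2 h3 h4 c1 (crosses_swap c2) with h5 | h5
      · exact Or.inr (Or.inl h5)
      · exact Or.inr (Or.inr (Or.inl h5))
    · rcases fan a b d c u v A1 A2.symm A3 h1 h2 h3 h4 (crosses_swap c1) c2 with h5 | h5
      · exact Or.inr (Or.inr (Or.inl h5))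
      · exact Or.inr (Or.inl h5)
    · rcases fan a b d c v u A1 A2.symm A3.symm h1 h2 h3 h4 (crosses_swap c1) (crosses_swap c2)
        with h5 | h5
      · exact Or.inr (Or.inr (Or.inr h5))
      · exact Or.inl h5
  have meet' : ∀ a b c d, (graphOf I).Adj a b → (graphOf I).Adj c d → s(a, b) ≠ s(c, d) →
      ∀ x, x ∈ segment ℝ (p a) (p b) → x ∈ segment ℝ (p c) (p d) →
        (∃ e, (e = a ∨ e = b) ∧ (e = c ∨ e = d) ∧ x = p e) ∨ CrossAt p a b c d x := by
    intro a b c d A1 A2 hne x hx1 hx2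
    rcases two a b c d (he _ _ A1) (he _ _ A2) with ⟨h1, h2⟩ | ⟨h1, h2⟩
    · rcases meet a b c d (he _ _ A1) h1 h2 x hx1 hx2 with ⟨h3, h4⟩ | ⟨h3, h4⟩ | ⟨h3, h4⟩ | h3
      · exact Or.inl ⟨a, Or.inl rfl, Or.inl h3, h4⟩
      · exact Or.inl ⟨b, Or.inr rfl, Or.inr h3, h4⟩
      · exact absurd (by rw [h3, h4]) hne
      · exact Or.inr h3
    · rw [segment_symm] at hx2
      rcases meet a b d c (he _ _ A1) h1 h2 x hx1 hx2 with ⟨h3, h4⟩ | ⟨h3, h4⟩ | ⟨h3, h4⟩ | h3
      · exact Or.inl ⟨a, Or.inl rfl, Or.inr h3, h4⟩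
      · exact Or.inl ⟨b, Or.inr rfl, Or.inl h3, h4⟩
      · exact absurd (by rw [h3, h4]; exact Sym2.eq_swap) hne
      · right
        obtain ⟨h4, h5, h6⟩ := h3
        refine ⟨h4, by rw [openSegment_symm]; exact h5, ?_⟩
        intro h7
        apply h6
        unfold cross at *
        simp only [Prod.fst_sub, Prod.snd_sub] at *
        linarith
  -- end-vertices do not lie in the interior
  have hopen : ∀ a b, (p a).2 ≠ (p b).2 → p a ∉ openSegment ℝ (p a) (p b) ∧
      p b ∉ openSegment ℝ (p a) (p b) := by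
    intro a b hab
    constructor
    · intro hh
      obtain ⟨t, t0, t1, -, e⟩ := mem_open.1 hh
      have : t * ((p b).2 - (p a).2) = 0 := by linarith
      rcases mul_eq_zero.1 this with h1 | h1
      · linarith
      · exact hab (by linarith)
    · intro hh
      obtain ⟨t, t0, t1, -, e⟩ := mem_open.1 hh
      have : (1 - t) * ((p b).2 - (p a).2) = 0 := by linarith
      rcases mul_eq_zero.1 this with h1 | h1
      · linarith
      · exact hab (by linarith)
  have crossOpen : ∀ a b c d, (graphOf I).Adj a b → (graphOf I).Adj c d → s(a, b) ≠ s(c, d) →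
      ∀ x, x ∈ openSegment ℝ (p a) (p b) → x ∈ openSegment ℝ (p c) (p d) →
        CrossAt p a b c d x := by
    intro a b c d A1 A2 hne x hx1 hx2
    rcases meet' a b c d A1 A2 hne x (openSegment_subset_segment ℝ _ _ hx1)
      (openSegment_subset_segment ℝ _ _ hx2) with ⟨e, h1, h2, h3⟩ | h1
    · exfalso
      rcases h1 with rfl | rfl
      · rw [h3] at hx1
        exact (hopen _ _ (he _ _ A1)).1 hx1
      · rw [h3] at hx1
        exact (hopen _ _ (he _ _ A1)).2 hx1
    · exact h1
  refine ⟨p, ⟨?_, ?_, meet', ?_⟩, ⟨noI, ?_⟩, 0, 1, zero_ne_one, hl, he⟩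
  · intro u v huv
    exact hinj u v (congrArg Prod.snd huv) (congrArg Prod.fst huv)
  · intro u v w huv h1 h2 hw
    obtain ⟨t, t0, t1, e1, e2⟩ := mem_seg.1 hw
    have huv' := he u v huv
    have hor : (p w).2 = (p u).2 ∨ (p w).2 = (p v).2 := by
      rcases hl u with a1 | a1 <;> rcases hl v with a2 | a2 <;> rcases hl w with a3 | a3 <;>
        rw [a1, a2] at huv' <;> rw [a1, a2, a3] <;> simp at huv' ⊢
    rcases hor with a3 | a3
    · have h4 : t * ((p v).2 - (p u).2) = 0 := by linarith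
      have h5 : t = 0 := by
        rcases mul_eq_zero.1 h4 with h6 | h6
        · exact h6
        · exact absurd (by linarith) huv'
      exact h1 (hinj w u a3 (by rw [e1, h5]; ring))
    · have h4 : (1 - t) * ((p v).2 - (p u).2) = 0 := by linarith
      have h5 : t = 1 := by
        rcases mul_eq_zero.1 h4 with h6 | h6
        · linarith
        · exact absurd (by linarith) huv'
      exact h2 (hinj w v a3 (by rw [e1, h5]; ring))
  · intro a b c d e f A1 A2 A3 n1 n2 n3 x hx1 hx2 hx3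
    have c1 := crossOpen a b c d A1 A2 n1 x hx1 hx2
    have c2 := crossOpen a b e f A1 A3 n2 x hx1 hx3
    have c3 := crossOpen c d e f A2 A3 n3 x hx2 hx3
    -- crossing edges have no common end-vertex
    have hno : ∀ a b c d, (graphOf I).Adj a b → (graphOf I).Adj c d → Crosses p a b c d →
        a ≠ c ∧ b ≠ d ∧ a ≠ d ∧ b ≠ c := by
      intro a b c d A1 A2 hc
      rcases two a b c d (he _ _ A1) (he _ _ A2) with ⟨h1, h2⟩ | ⟨h1, h2⟩
      · have h3 := cr a b c d (he _ _ A1) h1 h2 hc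
        refine ⟨?_, ?_, ?_, ?_⟩
        · rintro rfl; unfold Cr at h3; omega
        · rintro rfl; unfold Cr at h3; omega
        · rintro rfl; exact he _ _ A1 h2.symm
        · rintro rfl; exact he _ _ A1 h1
      · have h3 := cr a b d c (he _ _ A1) h1 h2 (crosses_swap hc)
        refine ⟨?_, ?_, ?_, ?_⟩
        · rintro rfl; exact he _ _ A1 h2.symm
        · rintro rfl; exact he _ _ A1 h1
        · rintro rfl; unfold Cr at h3; omega
        · rintro rfl; unfold Cr at h3; omega
    have h4 := hno c d e f A2 A3 ⟨x, c3⟩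
    rcases noI a b c d e f A1 A2 A3 ⟨x, c1⟩ ⟨x, c2⟩ with h5 | h5 | h5 | h5
    · exact h4.1 h5
    · exact h4.2.2.1 h5
    · exact h4.2.2.2 h5
    · exact h4.2.1 h5
  · rintro a b u v w A1 A2 A3 c1 c2 ⟨l1, l2⟩
    rcases two a b u v (he _ _ A1) (he _ _ A2) with ⟨h1, h2⟩ | ⟨h1, h2⟩
    · have h3 : (p b).2 = (p w).2 := by
        rcases two a b u w (he _ _ A1) (he _ _ A3) with ⟨h3, h4⟩ | ⟨h3, h4⟩
        · exact h4
        · exact absurd (h1.trans h4.symm) (he _ _ A1)
      obtain ⟨x1, hx1⟩ := c1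
      obtain ⟨x2, hx2⟩ := c2
      have r1 := crossAt_rcr hx1 h1 h2 (he _ _ A1)
      have r2 := crossAt_rcr hx2 h1 h3 (he _ _ A1)
      rw [cross_eq h1 h2] at l1
      rw [cross_eq h1 h3] at l2
      unfold RCr at r1 r2
      rcases lt_or_gt_of_ne (he _ _ A1) with h5 | h5
      · have g1 := (mul_pos_iff_of_pos_left (sub_pos.2 h5)).1 l2
        have g2 : ((p u).1 - (p a).1) + ((p b).1 - (p v).1) < 0 := by
          by_contra hcon
          exact absurd l1 (not_lt.2 (mul_nonneg (sub_pos.2 h5).le (not_lt.1 hcon)))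
        rcases r1 with r1 | r1 <;> rcases r2 with r2 | r2 <;> linarith [r1.1, r1.2, r2.1, r2.2]
      · have h5' : (p b).2 - (p a).2 < 0 := sub_neg.2 h5
        have g1 : ((p u).1 - (p a).1) + ((p b).1 - (p w).1) < 0 := by
          by_contra hcon
          exact absurd l2 (not_lt.2 (mul_nonpos_of_nonpos_of_nonneg h5'.le (not_lt.1 hcon)))
        have g2 : 0 < ((p u).1 - (p a).1) + ((p b).1 - (p v).1) := by
          by_contra hcon
          exact absurd l1 (not_lt.2 (mul_nonneg_of_nonpos_of_nonpos h5'.le (not_lt.1 hcon)))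
        rcases r1 with r1 | r1 <;> rcases r2 with r2 | r2 <;> linarith [r1.1, r1.2, r2.1, r2.2]
    · have h3 : (p a).2 = (p w).2 := by
        rcases two a b u w (he _ _ A1) (he _ _ A3) with ⟨h3, h4⟩ | ⟨h3, h4⟩
        · exact absurd (h3.trans h2.symm) (he _ _ A1)
        · exact h3
      obtain ⟨x1, hx1⟩ := crosses_swap c1
      obtain ⟨x2, hx2⟩ := crosses_swap c2
      have r1 := crossAt_rcr hx1 h1 h2 (he _ _ A1)
      have r2 := crossAt_rcr hx2 h3 h2 (he _ _ A1)
      have q1 : cross (p b - p a) (p v - p u) = - cross (p b - p a) (p u - p v) := by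
        unfold cross
        simp only [Prod.fst_sub, Prod.snd_sub]
        ring
      have q2 : cross (p b - p a) (p w - p u) = - cross (p b - p a) (p u - p w) := by
        unfold cross
        simp only [Prod.fst_sub, Prod.snd_sub]
        ring
      rw [q1, cross_eq h1 h2] at l1
      rw [q2, cross_eq h3 h2] at l2
      unfold RCr at r1 r2
      have l1' : 0 < ((p b).2 - (p a).2) * (((p v).1 - (p a).1) + ((p b).1 - (p u).1)) := by linarith
      have l2' : ((p b).2 - (p a).2) * (((p w).1 - (p a).1) + ((p b).1 - (p u).1)) < 0 := by linarith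
      rcases lt_or_gt_of_ne (he _ _ A1) with h5 | h5
      · have g1 := (mul_pos_iff_of_pos_left (sub_pos.2 h5)).1 l1'
        have g2 : ((p w).1 - (p a).1) + ((p b).1 - (p u).1) < 0 := by
          by_contra hcon
          exact absurd l2' (not_lt.2 (mul_nonneg (sub_pos.2 h5).le (not_lt.1 hcon)))
        rcases r1 with r1 | r1 <;> rcases r2 with r2 | r2 <;> linarith [r1.1, r1.2, r2.1, r2.2]
      · have h5' : (p b).2 - (p a).2 < 0 := sub_neg.2 h5
        have g1 : ((p v).1 - (p a).1) + ((p b).1 - (p u).1) < 0 := by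
          by_contra hcon
          exact absurd l1' (not_lt.2 (mul_nonpos_of_nonpos_of_nonneg h5'.le (not_lt.1 hcon)))
        have g2 : 0 < ((p w).1 - (p a).1) + ((p b).1 - (p u).1) := by
          by_contra hcon
          exact absurd l2' (not_lt.2 (mul_nonneg_of_nonpos_of_nonpos h5'.le (not_lt.1 hcon)))
        rcases r1 with r1 | r1 <;> rcases r2 with r2 | r2 <;> linarith [r1.1, r1.2, r2.1, r2.2]

/-- The geometric and the combinatorial notion agree. -/
theorem geom_iff_comb (I : List ℕ × List (ℕ × ℕ)) :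
    TwoLayerFanPlanar (graphOf I) ↔ Comb I.1.toFinset (adj I.2) :=
  ⟨comb_of_geom I, geom_of_comb I⟩

end Pool.Agent.TH666.FP
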