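import Pool.Agent.TH666.FP.State
import Pool.Agent.H601R2.PP
import Pool.Agent.NPC.Dec

/-!
# The layers are computable in polynomial time
-/

namespace Pool.Agent.TH666.FP

open Pool.Agent.NPC

/-! ### Generalities -/

theorem sz_sublist {β : Type} [TEnc β] {l l' : List β} (h : l.Sublist l') : sz l ≤ sz l' := by
  induction h with
  | slnil => exact le_rfl
  | cons a _ ih => simp; omega
  | cons_cons a _ ih => simp; omega

theorem poly_dedup {α β : Type} [TEnc α] [TEnc β] [DecidableEq β] {l : α → List β}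
    (hl : NPC.Poly l) : NPC.Poly (fun a => (l a).dedup) := by
  obtain ⟨r, hr⟩ := hl.sz_le
  have key : ∀ l : List β, l.foldr (fun b acc => if b ∈ acc then acc else b :: acc) [] =
      l.dedup := by
    intro l
    induction l with
    | nil => rfl
    | cons b l ih =>
      rw [List.foldr_cons, ih]
      by_cases h : b ∈ l
      · rw [if_pos (List.mem_dedup.2 h), List.dedup_cons_of_mem h]
      · rw [if_neg (fun h' => h (List.mem_dedup.1 h')), List.dedup_cons_of_notMem h]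
  refine (NPC.Poly.foldr (l := l) (s := fun _ => ([] : List β))
    (F := fun _ b acc => if b ∈ acc then acc else b :: acc) hl (NPC.Poly.const _)
    (NPC.Poly.ite (NPC.Poly.decide_mem (NPC.Poly.fst (NPC.Poly.snd NPC.Poly.id))
      (NPC.Poly.snd (NPC.Poly.snd NPC.Poly.id)))
      (NPC.Poly.snd (NPC.Poly.snd NPC.Poly.id))
      (NPC.Poly.cons (NPC.Poly.fst (NPC.Poly.snd NPC.Poly.id))
        (NPC.Poly.snd (NPC.Poly.snd NPC.Poly.id)))) r ?_).congr
    fun a => key (l a)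
  intro a k _
  rw [key]
  exact (sz_sublist (List.dedup_sublist _)).trans ((NPC.Poly.sz_drop_le _ _).trans (hr a))

theorem poly_take' {β : Type} [TEnc β] (n : ℕ) : NPC.Poly (fun l : List β => l.take n) := by
  induction n with
  | zero => exact (NPC.Poly.const ([] : List β)).congr fun a => by simp
  | succ n ih =>
    refine (NPC.Poly.listCases (l := fun l : List β => l) (g := fun _ => ([] : List β))
      (h := fun _ b t => b :: t.take n) NPC.Poly.id (NPC.Poly.const _) ?_).congr ?_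
    · exact NPC.Poly.cons (NPC.Poly.fst (NPC.Poly.snd NPC.Poly.id))
        (ih.comp (NPC.Poly.snd (NPC.Poly.snd NPC.Poly.id)))
    · intro a
      cases a <;> simp

theorem poly_take {α β : Type} [TEnc α] [TEnc β] {l : α → List β} (n : ℕ)
    (hl : NPC.Poly l) : NPC.Poly (fun a => (l a).take n) := (poly_take' n).comp hl

theorem poly_drop {α β : Type} [TEnc α] [TEnc β] {l : α → List β} (n : ℕ)
    (hl : NPC.Poly l) : NPC.Poly (fun a => (l a).drop n) := by
  induction n with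
  | zero => exact hl.congr fun a => by simp
  | succ n ih => exact (NPC.Poly.tail ih).congr fun a => by simp

theorem ppAllLt {α β : Type} [TEnc α] [TEnc β] {l : α → List β} (hl : NPC.Poly l)
    {r : α → ℕ → Prop} (hr : PP (fun p : α × ℕ => r p.1 p.2)) :
    PP (fun a => ∀ x < (l a).length, r a x) :=
  (PP.ball (NPC.Poly.range_length hl) hr).congr fun a => by simp only [List.mem_range]

theorem ppImp {α : Type} [TEnc α] {p q : α → Prop} (hp : PP p) (hq : PP q) :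
    PP (fun b => p b → q b) :=
  (hp.not.or hq).congr fun b => by tauto

theorem ppBoolEq {α : Type} [TEnc α] {f g : α → Bool} (hf : NPC.Poly f) (hg : NPC.Poly g) :
    PP (fun b => f b = g b) := PP.eq hf hg

/-- Iterated layers with polynomially bounded sizes. -/
theorem poly_layers {α σ : Type} [TEnc α] [TEnc σ] [DecidableEq σ] {n : α → ℕ} (hn : UPoly n)
    {init : α → List σ} (hinit : NPC.Poly init) {F : α → σ → List σ}
    (hF : NPC.Poly (fun p : α × σ => F p.1 p.2)) (q : Polynomial ℕ)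
    (hq : ∀ a, ∀ k ≤ n a, sz ((fun S => (S.flatMap (F a)).dedup)^[k] (init a)) ≤ q.eval (sz a)) :
    NPC.Poly (fun a => (fun S => (S.flatMap (F a)).dedup)^[n a] (init a)) := by
  refine (NPC.Poly.iterLen (l := fun a => List.replicate (n a) ())
    (F := fun a S => (S.flatMap (F a)).dedup) hn hinit ?_ q ?_).congr fun a => ?_
  · refine poly_dedup (NPC.Poly.flatMap (l := fun p : α × List σ => p.2)
      (F := fun p st => F p.1 st) (NPC.Poly.snd NPC.Poly.id) ?_)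
    exact hF.comp (NPC.Poly.pair (NPC.Poly.fst (NPC.Poly.fst NPC.Poly.id))
      (NPC.Poly.snd NPC.Poly.id))
  · intro a k hk
    rw [List.length_replicate] at hk
    exact hq a k hk
  · simp only [List.length_replicate]

/-! ### The graph -/

/-- adjacency in the graph with the edge list `E` -/
def adj (E : List (ℕ × ℕ)) (u v : ℕ) : Prop := u ≠ v ∧ ((u, v) ∈ E ∨ (v, u) ∈ E)

theorem adj_symm {E : List (ℕ × ℕ)} (u v : ℕ) (h : adj E u v) : adj E v u :=
  ⟨h.1.symm, h.2.symm⟩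

theorem adj_irrefl {E : List (ℕ × ℕ)} (v : ℕ) : ¬ adj E v v := fun h => h.1 rfl

theorem pp_adj {α : Type} [TEnc α] {E : α → List (ℕ × ℕ)} {u v : α → ℕ} (hE : NPC.Poly E)
    (hu : NPC.Poly u) (hv : NPC.Poly v) : PP (fun a => adj (E a) (u a) (v a)) :=
  (PP.ne hu hv).and ((PP.mem (NPC.Poly.pair hu hv) hE).or (PP.mem (NPC.Poly.pair hv hu) hE))

theorem poly_ge {α : Type} [TEnc α] {L : α → List (ℕ × Bool)} {i : α → ℕ} (hL : NPC.Poly L)
    (hi : NPC.Poly i) : NPC.Poly (fun a => ge (L a) (i a)) :=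
  NPC.Poly.getD hL hi (NPC.Poly.const _)

attribute [local fun_prop] poly_ge

theorem pp_adjge {α : Type} [TEnc α] {E : α → List (ℕ × ℕ)} {L : α → List (ℕ × Bool)}
    {i j : α → ℕ} (hE : NPC.Poly E) (hL : NPC.Poly L) (hi : NPC.Poly i) (hj : NPC.Poly j) :
    PP (fun a => adj (E a) (ge (L a) (i a)).1 (ge (L a) (j a)).1) :=
  pp_adj hE (NPC.Poly.fst (poly_ge hL hi)) (NPC.Poly.fst (poly_ge hL hj))

theorem pp_icr {α : Type} [TEnc α] {a b c d : α → ℕ} (ha : NPC.Poly a) (hb : NPC.Poly b)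
    (hc : NPC.Poly c) (hd : NPC.Poly d) : PP (fun x => ICr (a x) (b x) (c x) (d x)) :=
  ((PP.lt ha hc).and (PP.lt hd hb)).or ((PP.lt hc ha).and (PP.lt hb hd))

theorem pp_fanL {α : Type} [TEnc α] (K : ℕ) {E : α → List (ℕ × ℕ)} {L : α → List (ℕ × Bool)}
    (hE : NPC.Poly E) (hL : NPC.Poly L) : PP (fun a => FanL (adj (E a)) K (L a)) := by
  have hE' := hE
  have hL' := hL
  refine PP.and ?_ ?_
  · refine ppAllLt hL (ppAllLt (hL.comp (NPC.Poly.fst NPC.Poly.id)) (ppImp ?_ (PP.and ?_ ?_)))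
    · exact pp_adjge (hE.comp (NPC.Poly.fst (NPC.Poly.fst NPC.Poly.id)))
        (hL.comp (NPC.Poly.fst (NPC.Poly.fst NPC.Poly.id))) (by fun_prop) (by fun_prop)
    · exact PP.ne (NPC.Poly.snd (poly_ge (hL.comp (NPC.Poly.fst (NPC.Poly.fst NPC.Poly.id)))
        (by fun_prop))) (NPC.Poly.snd (poly_ge (hL.comp (NPC.Poly.fst (NPC.Poly.fst NPC.Poly.id)))
        (by fun_prop)))
    · exact PP.le (by fun_prop) (by fun_prop)
  · have g1 : NPC.Poly (fun p : α × ℕ => L p.1) := hL.comp (NPC.Poly.fst NPC.Poly.id)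
    have g2 : NPC.Poly (fun p : (α × ℕ) × ℕ => L p.1.1) := g1.comp (NPC.Poly.fst NPC.Poly.id)
    have g3 : NPC.Poly (fun p : ((α × ℕ) × ℕ) × ℕ => L p.1.1.1) := g2.comp (NPC.Poly.fst NPC.Poly.id)
    have g4 : NPC.Poly (fun p : (((α × ℕ) × ℕ) × ℕ) × ℕ => L p.1.1.1.1) :=
      g3.comp (NPC.Poly.fst NPC.Poly.id)
    have g5 : NPC.Poly (fun p : ((((α × ℕ) × ℕ) × ℕ) × ℕ) × ℕ => L p.1.1.1.1.1) :=
      g4.comp (NPC.Poly.fst NPC.Poly.id)
    have g6 : NPC.Poly (fun p : (((((α × ℕ) × ℕ) × ℕ) × ℕ) × ℕ) × ℕ => L p.1.1.1.1.1.1) :=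
      g5.comp (NPC.Poly.fst NPC.Poly.id)
    have e6 : NPC.Poly (fun p : (((((α × ℕ) × ℕ) × ℕ) × ℕ) × ℕ) × ℕ => E p.1.1.1.1.1.1) :=
      hE.comp (NPC.Poly.fst (NPC.Poly.fst (NPC.Poly.fst (NPC.Poly.fst (NPC.Poly.fst
        (NPC.Poly.fst NPC.Poly.id))))))
    refine ppAllLt hL (ppAllLt g1 (ppAllLt g2 (ppAllLt g3 (ppAllLt g4 (ppAllLt g5
      (ppImp ?_ (ppImp ?_ (ppImp ?_ (ppImp ?_ (ppImp ?_ (ppImp ?_ (ppImp ?_ (PP.or ?_ ?_)))))))))))))
    · exact PP.eq (NPC.Poly.snd (poly_ge g6 (by fun_prop))) (NPC.Poly.snd (poly_ge g6 (by fun_prop)))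
    · exact PP.eq (NPC.Poly.snd (poly_ge g6 (by fun_prop))) (NPC.Poly.snd (poly_ge g6 (by fun_prop)))
    · exact pp_adjge e6 g6 (by fun_prop) (by fun_prop)
    · exact pp_adjge e6 g6 (by fun_prop) (by fun_prop)
    · exact pp_adjge e6 g6 (by fun_prop) (by fun_prop)
    · exact pp_icr (by fun_prop) (by fun_prop) (by fun_prop) (by fun_prop)
    · exact pp_icr (by fun_prop) (by fun_prop) (by fun_prop) (by fun_prop)
    · exact PP.eq (by fun_prop) (by fun_prop)
    · exact PP.eq (by fun_prop) (by fun_prop)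

theorem poly_fsts {α : Type} [TEnc α] {w : α → List (ℕ × Bool)} (hw : NPC.Poly w) :
    NPC.Poly (fun a => (w a).map Prod.fst) :=
  NPC.Poly.map (F := fun _ (x : ℕ × Bool) => x.1) hw (NPC.Poly.fst (NPC.Poly.snd NPC.Poly.id))

theorem pp_okk {α : Type} [TEnc α] (W K : ℕ) {V : α → List ℕ} {E : α → List (ℕ × ℕ)}
    {st : α → St} {x : α → ℕ × Bool} (hV : NPC.Poly V) (hE : NPC.Poly E) (hst : NPC.Poly st)
    (hx : NPC.Poly x) : PP (fun a => okk (V a) (adj (E a)) W K (st a) (x a)) := by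
  have hx1 := NPC.Poly.fst hx
  have hs1 := NPC.Poly.fst hst
  have hs2 := NPC.Poly.snd hst
  have hf := poly_fsts hs1
  refine (PP.mem hx1 hV).and ((PP.mem hx1 hf).not.and ((PP.mem hx1 hs2).not.and
    ((pp_fanL K hE (NPC.Poly.cons hx hs1)).and ?_)))
  have g1 : ∀ {β : Type} [TEnc β] {f : α → β}, NPC.Poly f → NPC.Poly (fun p : α × ℕ => f p.1) :=
    fun hf => hf.comp (NPC.Poly.fst NPC.Poly.id)
  have g2 : ∀ {β : Type} [TEnc β] {f : α → β}, NPC.Poly f →
      NPC.Poly (fun p : (α × ℕ) × ℕ => f p.1.1) :=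
    fun hf => hf.comp (NPC.Poly.fst (NPC.Poly.fst NPC.Poly.id))
  refine PP.ball hV (ppImp (PP.or ?_ ?_) (PP.ball (g1 hV) (ppImp ?_ (PP.or ?_ (PP.or ?_ ?_)))))
  · exact PP.mem (NPC.Poly.snd NPC.Poly.id) (g1 hs2)
  · exact PP.mem (NPC.Poly.snd NPC.Poly.id) (poly_fsts (poly_drop (W - 1) (g1 hs1)))
  · exact pp_adj (g2 hE) (by fun_prop) (by fun_prop)
  · exact PP.eq (by fun_prop) (g2 hx1)
  · exact PP.mem (by fun_prop) (g2 hf)
  · exact PP.mem (by fun_prop) (g2 hs2)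

theorem poly_upd {α : Type} [TEnc α] (W : ℕ) {V : α → List ℕ}
    {st : α → St} {x : α → ℕ × Bool} (hV : NPC.Poly V) (hst : NPC.Poly st)
    (hx : NPC.Poly x) : NPC.Poly (fun a => upd (V a) W (st a) (x a)) := by
  have hs1 := NPC.Poly.fst hst
  have hs2 := NPC.Poly.snd hst
  have g1 : ∀ {β : Type} [TEnc β] {f : α → β}, NPC.Poly f → NPC.Poly (fun p : α × ℕ => f p.1) :=
    fun hf => hf.comp (NPC.Poly.fst NPC.Poly.id)
  refine NPC.Poly.pair (NPC.Poly.cons hx (poly_take (W - 1) hs1)) ?_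
  refine PP.filter (r := fun a v => v ∈ (st a).2 ∨ v ∈ ((st a).1.drop (W - 1)).map Prod.fst) hV
    (PP.or ?_ ?_)
  · exact PP.mem (NPC.Poly.snd NPC.Poly.id) (g1 hs2)
  · exact PP.mem (NPC.Poly.snd NPC.Poly.id) (poly_fsts (poly_drop (W - 1) (g1 hs1)))

theorem poly_nexts (W K : ℕ) : NPC.Poly (fun p : (List ℕ × List (ℕ × ℕ)) × St =>
    nexts p.1.1 (adj p.1.2) W K p.2) := by
  classical
  unfold nexts
  refine NPC.Poly.map (F := fun (p : (List ℕ × List (ℕ × ℕ)) × St) (x : ℕ × Bool) =>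
    upd p.1.1 W p.2 x) ?_ ?_
  · refine PP.filter (r := fun (p : (List ℕ × List (ℕ × ℕ)) × St) (x : ℕ × Bool) =>
      okk p.1.1 (adj p.1.2) W K p.2 x) ?_ ?_
    · fun_prop
    · exact pp_okk W K (NPC.Poly.fst (NPC.Poly.fst (NPC.Poly.fst NPC.Poly.id)))
        (NPC.Poly.snd (NPC.Poly.fst (NPC.Poly.fst NPC.Poly.id)))
        (NPC.Poly.snd (NPC.Poly.fst NPC.Poly.id)) (NPC.Poly.snd NPC.Poly.id)
  · exact poly_upd W (NPC.Poly.fst (NPC.Poly.fst (NPC.Poly.fst NPC.Poly.id)))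
      (NPC.Poly.snd (NPC.Poly.fst NPC.Poly.id)) (NPC.Poly.snd NPC.Poly.id)

end Pool.Agent.TH666.FP
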