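import Pool.Agent.TH666.FP.Win

/-!
# The states of the algorithm
-/

namespace Pool.Agent.TH666.FP

abbrev St := List (ℕ × Bool) × List ℕ

variable (V : List ℕ) (A : ℕ → ℕ → Prop) (W K : ℕ)

open Classical in
/-- the state of a partial order -/
noncomputable def stt (L : List (ℕ × Bool)) : St :=
  (L.take W, V.filter (fun v => decide (v ∈ (L.drop W).map Prod.fst)))

/-- the next vertex may be added -/
def okk (st : St) (x : ℕ × Bool) : Prop :=
  x.1 ∈ V ∧ x.1 ∉ st.1.map Prod.fst ∧ x.1 ∉ st.2 ∧ FanL A K (x :: st.1) ∧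
    ∀ a ∈ V, (a ∈ st.2 ∨ a ∈ (st.1.drop (W - 1)).map Prod.fst) → ∀ b ∈ V, A a b →
      (b = x.1 ∨ b ∈ st.1.map Prod.fst ∨ b ∈ st.2)

open Classical in
/-- the new state -/
noncomputable def upd (st : St) (x : ℕ × Bool) : St :=
  (x :: st.1.take (W - 1),
    V.filter (fun v => decide (v ∈ st.2 ∨ v ∈ (st.1.drop (W - 1)).map Prod.fst)))

variable {V A W K}

theorem drop_pred (hW : 1 ≤ W) (L : List (ℕ × Bool)) :
    L.drop (W - 1) = (L.take W).drop (W - 1) ++ L.drop W := by
  have h1 : (L.take W).drop (W - 1) = (L.drop (W - 1)).take 1 := by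
    rw [List.drop_take]
    congr 1
    omega
  have h2 : L.drop W = (L.drop (W - 1)).drop 1 := by
    rw [List.drop_drop]
    congr 1
    omega
  rw [h1, h2, List.take_append_drop]

theorem cons_drop (hW : 1 ≤ W) (x : ℕ × Bool) (L : List (ℕ × Bool)) :
    (x :: L).drop W = L.drop (W - 1) := by
  obtain ⟨W', rfl⟩ : ∃ W', W = W' + 1 := ⟨W - 1, by omega⟩
  simp

theorem cons_take (hW : 1 ≤ W) (x : ℕ × Bool) (L : List (ℕ × Bool)) :
    (x :: L).take W = x :: L.take (W - 1) := by
  obtain ⟨W', rfl⟩ : ∃ W', W = W' + 1 := ⟨W - 1, by omega⟩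
  simp

theorem stt_cons (hW : 1 ≤ W) (x : ℕ × Bool) (L : List (ℕ × Bool)) :
    stt V W (x :: L) = upd V W (stt V W L) x := by
  classical
  unfold stt upd
  refine Prod.ext ?_ ?_
  · change (x :: L).take W = x :: (L.take W).take (W - 1)
    rw [cons_take hW, List.take_take, min_eq_left (by omega)]
  · change V.filter _ = V.filter _
    refine List.filter_congr fun v hv => ?_
    rw [decide_eq_decide, cons_drop hW, drop_pred hW, List.map_append, List.mem_append,
      List.mem_filter, decide_eq_true_eq]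
    tauto

theorem mem_iff_take_drop {L : List (ℕ × Bool)} (v : ℕ) :
    v ∈ L.map Prod.fst ↔ v ∈ (L.take W).map Prod.fst ∨ v ∈ (L.drop W).map Prod.fst := by
  conv_lhs => rw [← List.take_append_drop W L]
  rw [List.map_append, List.mem_append]

theorem okk_iff (hW : 1 ≤ W) {L : List (ℕ × Bool)} (h : Valid V A W K L) (x : ℕ × Bool) :
    okk V A W K (stt V W L) x ↔ Valid V A W K (x :: L) := by
  classical
  have e1 : ∀ v ∈ V, v ∈ (stt V W L).2 ↔ v ∈ (L.drop W).map Prod.fst := by
    intro v hv
    unfold stt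
    rw [List.mem_filter, decide_eq_true_eq]
    exact ⟨fun hh => hh.2, fun hh => ⟨hv, hh⟩⟩
  have e2 : (stt V W L).1 = L.take W := rfl
  have e3 : ∀ v ∈ V, v ∈ ((x :: L).drop W).map Prod.fst ↔
      (v ∈ (stt V W L).2 ∨ v ∈ ((stt V W L).1.drop (W - 1)).map Prod.fst) := by
    intro v hv
    rw [cons_drop hW, drop_pred hW, List.map_append, List.mem_append, e1 v hv, e2]
    tauto
  have e4 : ∀ v ∈ V, v ∈ (x :: L).map Prod.fst ↔
      (v = x.1 ∨ v ∈ (stt V W L).1.map Prod.fst ∨ v ∈ (stt V W L).2) := by
    intro v hv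
    rw [List.map_cons, List.mem_cons, mem_iff_take_drop (W := W), e1 v hv, e2]
  constructor
  · rintro ⟨h1, h2, h3, h4, h5⟩
    refine ⟨h, h1, ?_, h4, ?_⟩
    · rw [mem_iff_take_drop (W := W), ← e1 _ h1]
      rw [e2] at h2
      tauto
    · intro a ha ha' b hb hab
      rw [e3 a ha] at ha'
      rw [e4 b hb]
      exact h5 a ha ha' b hb hab
  · rintro ⟨-, h1, h2, h4, h5⟩
    rw [mem_iff_take_drop (W := W), ← e1 _ h1, not_or] at h2
    refine ⟨h1, h2.1, h2.2, h4, ?_⟩
    intro a ha ha' b hb hab
    rw [← e3 a ha] at ha'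
    rw [← e4 b hb]
    exact h5 a ha ha' b hb hab

/-! ### Layers -/

variable (V A W K)

open Classical in
/-- all successors of a state -/
noncomputable def nexts (st : St) : List St :=
  ((V.flatMap (fun v => [(v, false), (v, true)])).filter
    (fun x => decide (okk V A W K st x))).map (upd V W st)

open Classical in
/-- the next layer -/
noncomputable def layer (S : List St) : List St := (S.flatMap (nexts V A W K)).dedup

variable {V A W K}

theorem mem_cand {x : ℕ × Bool} : x ∈ V.flatMap (fun v => [(v, false), (v, true)]) ↔ x.1 ∈ V := by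
  rw [List.mem_flatMap]
  constructor
  · rintro ⟨v, hv, hx⟩
    simp only [List.mem_cons, List.not_mem_nil, or_false] at hx
    rcases hx with rfl | rfl <;> exact hv
  · intro h
    refine ⟨x.1, h, ?_⟩
    obtain ⟨v, b⟩ := x
    cases b <;> simp

theorem mem_layer {S : List St} {st : St} : st ∈ layer V A W K S ↔
    ∃ st' ∈ S, ∃ x, okk V A W K st' x ∧ upd V W st' x = st := by
  classical
  unfold layer nexts
  rw [List.mem_dedup, List.mem_flatMap]
  refine exists_congr fun st' => and_congr_right fun _ => ?_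
  rw [List.mem_map]
  refine exists_congr fun x => and_congr_left fun _ => ?_
  rw [List.mem_filter, mem_cand, decide_eq_true_eq]
  exact ⟨fun h => h.2, fun h => ⟨h.1, h⟩⟩

theorem mem_layers (hW : 1 ≤ W) (k : ℕ) (st : St) :
    st ∈ (layer V A W K)^[k] [([], [])] ↔ ∃ L, Valid V A W K L ∧ L.length = k ∧ stt V W L = st := by
  classical
  induction k generalizing st with
  | zero =>
    rw [Function.iterate_zero, id, List.mem_singleton]
    constructor
    · rintro rfl
      refine ⟨[], trivial, rfl, ?_⟩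
      unfold stt
      simp
    · rintro ⟨L, -, hL, rfl⟩
      rw [List.length_eq_zero_iff] at hL
      subst hL
      unfold stt
      simp
  | succ k ih =>
    rw [Function.iterate_succ_apply', mem_layer]
    constructor
    · rintro ⟨st', h1, x, h2, rfl⟩
      obtain ⟨L, hL, hlen, rfl⟩ := (ih st').1 h1
      exact ⟨x :: L, (okk_iff hW hL x).1 h2, by simp [hlen], stt_cons hW x L⟩
    · rintro ⟨L, hL, hlen, rfl⟩
      cases L with
      | nil => simp at hlen
      | cons x L =>
        have hL' : Valid V A W K L := hL.1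
        refine ⟨stt V W L, (ih _).2 ⟨L, hL', by simpa using hlen, rfl⟩, x,
          (okk_iff hW hL' x).2 hL, (stt_cons hW x L).symm⟩

/-! ### The number of states -/

/-- Connected: no proper non-empty subset is closed under adjacency. -/
def Conn (V : List ℕ) (A : ℕ → ℕ → Prop) : Prop :=
  ∀ S : ℕ → Prop, (∃ x ∈ V, S x) → (∀ x ∈ V, S x → ∀ y ∈ V, A x y → S y) → ∀ x ∈ V, S x

open Classical in
theorem stt_determined (hsym : ∀ u v, A u v → A v u) (hW : 1 ≤ W) (hc : Conn V A)
    {L1 L2 : List (ℕ × Bool)} (h1 : Valid V A W K L1) (h2 : Valid V A W K L2)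
    (hw : L1.take W = L2.take W)
    (hP : ∀ x ∈ L1.take W, ∀ v ∈ V, A x.1 v → (v ∈ (stt V W L1).2 ↔ v ∈ (stt V W L2).2)) :
    stt V W L1 = stt V W L2 := by
  -- one inclusion
  have key : ∀ L1 L2 : List (ℕ × Bool), Valid V A W K L1 → Valid V A W K L2 →
      L1.take W = L2.take W →
      (∀ x ∈ L1.take W, ∀ v ∈ V, A x.1 v → (v ∈ (L1.drop W).map Prod.fst ↔
        v ∈ (L2.drop W).map Prod.fst)) →
      ∀ v ∈ V, v ∈ (L1.drop W).map Prod.fst → v ∈ (L2.drop W).map Prod.fst := by
    intro L1 L2 h1 h2 hw hP v hv hv1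
    by_contra hv2
    have hdisj : ∀ v, v ∈ (L1.drop W).map Prod.fst → v ∉ (L1.take W).map Prod.fst := by
      intro v hv hv'
      have hnd := h1.nodup
      rw [← List.take_append_drop W L1, List.map_append, List.nodup_append] at hnd
      exact hnd.2.2 v hv' v hv rfl
    have hclo1 := h1.clo 0
    have hclo2 := h2.clo 0
    rw [List.drop_zero] at hclo1 hclo2
    have hall := hc (fun z => z ∈ (L1.drop W).map Prod.fst ∧ z ∉ (L2.drop W).map Prod.fst)
      ⟨v, hv, hv1, hv2⟩ (by
        rintro x hx ⟨hx1, hx2⟩ y hy hxy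
        have e1 := hclo1 x hx hx1 y hy hxy
        rw [mem_iff_take_drop (W := W)] at e1
        rcases e1 with e1 | e1
        · exfalso
          rw [List.mem_map] at e1
          obtain ⟨z, hz, rfl⟩ := e1
          exact hx2 ((hP z hz x hx (hsym _ _ hxy)).1 hx1)
        · refine ⟨e1, fun hy2 => ?_⟩
          have e2 := hclo2 y hy hy2 x hx (hsym _ _ hxy)
          rw [mem_iff_take_drop (W := W)] at e2
          rcases e2 with e2 | e2
          · rw [← hw] at e2
            exact hdisj x hx1 e2
          · exact hx2 e2)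
    -- then the window is empty
    rw [List.mem_map] at hv1
    obtain ⟨z, hz, rfl⟩ := hv1
    have hlen : W < L1.length := by
      by_contra hcon
      rw [List.drop_eq_nil_of_le (not_lt.1 hcon)] at hz
      simp at hz
    have hpos : 0 < (L1.take W).length := by
      rw [List.length_take]
      omega
    obtain ⟨y, hy⟩ := List.exists_mem_of_length_pos hpos
    have hyV := h1.mem y (List.mem_of_mem_take hy)
    exact hdisj y.1 (hall y.1 hyV).1 (List.mem_map_of_mem hy)
  have e1 : ∀ L : List (ℕ × Bool), ∀ v ∈ V, v ∈ (stt V W L).2 ↔ v ∈ (L.drop W).map Prod.fst := by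
    intro L v hv
    unfold stt
    rw [List.mem_filter, decide_eq_true_eq]
    exact ⟨fun hh => hh.2, fun hh => ⟨hv, hh⟩⟩
  have hP' : ∀ x ∈ L1.take W, ∀ v ∈ V, A x.1 v → (v ∈ (L1.drop W).map Prod.fst ↔
        v ∈ (L2.drop W).map Prod.fst) := by
    intro x hx v hv hxv
    rw [← e1 L1 v hv, ← e1 L2 v hv]
    exact hP x hx v hv hxv
  unfold stt
  refine Prod.ext hw ?_
  change V.filter _ = V.filter _
  refine List.filter_congr fun v hv => ?_
  rw [decide_eq_decide]
  refine ⟨key L1 L2 h1 h2 hw hP' v hv, key L2 L1 h2 h1 hw.symm ?_ v hv⟩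
  intro x hx v hv hxv
  rw [← hw] at hx
  exact (hP' x hx v hv hxv).symm

open Classical in
/-- the neighbours of the window, one after the other -/
noncomputable def wnb (V : List ℕ) (A : ℕ → ℕ → Prop) (w : List (ℕ × Bool)) : List ℕ :=
  w.flatMap (fun x => V.filter (fun v => decide (A x.1 v)))

open Classical in
/-- a code for the states -/
noncomputable def code (V : List ℕ) (A : ℕ → ℕ → Prop) (W D : ℕ) (st : St) :
    (Fin W → Option (ℕ × Bool)) × (Fin (W * D) → Option Bool) :=
  (fun i => st.1[(i : ℕ)]?, fun j => ((wnb V A st.1).map (fun v => decide (v ∈ st.2)))[(j : ℕ)]?)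

theorem length_wnb {D : ℕ} (hD : ∀ x ∈ V, (V.filter (fun v => @decide (A x v) (Classical.propDecidable _))).length ≤ D)
    (w : List (ℕ × Bool)) (hw : ∀ x ∈ w, x.1 ∈ V) : (wnb V A w).length ≤ w.length * D := by
  induction w with
  | nil => simp [wnb]
  | cons x w ih =>
    have h1 := ih (fun y hy => hw y (List.mem_cons_of_mem _ hy))
    have h2 := hD x.1 (hw x (by simp))
    unfold wnb at h1 ⊢
    rw [List.flatMap_cons, List.length_append, List.length_cons]
    have h3 : (w.length + 1) * D = w.length * D + D := by ring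
    omega

open Classical in
theorem code_inj {D : ℕ} (hsym : ∀ u v, A u v → A v u) (hW : 1 ≤ W) (hc : Conn V A)
    (hD : ∀ x ∈ V, (V.filter (fun v => decide (A x v))).length ≤ D)
    {L1 L2 : List (ℕ × Bool)} (h1 : Valid V A W K L1) (h2 : Valid V A W K L2)
    (h : code V A W D (stt V W L1) = code V A W D (stt V W L2)) : stt V W L1 = stt V W L2 := by
  have ext_of : ∀ {β : Type} (n : ℕ) (l l' : List β), l.length ≤ n → l'.length ≤ n →
      (∀ i : Fin n, l[(i : ℕ)]? = l'[(i : ℕ)]?) → l = l' := by
    intro β n l l' hl hl' hh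
    refine List.ext_getElem? fun i => ?_
    by_cases hi : i < n
    · exact hh ⟨i, hi⟩
    · rw [List.getElem?_eq_none (by omega), List.getElem?_eq_none (by omega)]
  have hw : L1.take W = L2.take W := by
    refine ext_of W _ _ (by rw [List.length_take]; omega) (by rw [List.length_take]; omega)
      fun i => ?_
    exact congrFun (congrArg Prod.fst h) i
  have hlen : ∀ L, Valid V A W K L → (wnb V A (L.take W)).length ≤ W * D := by
    intro L hL
    refine (length_wnb hD _ (fun x hx => hL.mem x (List.mem_of_mem_take hx))).trans ?_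
    exact Nat.mul_le_mul_right _ (by rw [List.length_take]; omega)
  have hb : (wnb V A (L1.take W)).map (fun v => decide (v ∈ (stt V W L1).2)) =
      (wnb V A (L2.take W)).map (fun v => decide (v ∈ (stt V W L2).2)) := by
    refine ext_of (W * D) _ _ (by rw [List.length_map]; exact hlen L1 h1)
      (by rw [List.length_map]; exact hlen L2 h2) fun i => ?_
    exact congrFun (congrArg Prod.snd h) i
  rw [← hw] at hb
  refine stt_determined hsym hW hc h1 h2 hw ?_
  intro x hx v hv hxv
  have hm : v ∈ wnb V A (L1.take W) := by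
    unfold wnb
    rw [List.mem_flatMap]
    exact ⟨x, hx, List.mem_filter.2 ⟨hv, decide_eq_true hxv⟩⟩
  have h3 := List.map_inj_left.1 hb v hm
  rwa [decide_eq_decide] at h3

open Classical in
/-- The number of states is polynomially bounded. -/
theorem length_states_le {D : ℕ} (hsym : ∀ u v, A u v → A v u) (hW : 1 ≤ W) (hc : Conn V A)
    (hD : ∀ x ∈ V, (V.filter (fun v => decide (A x v))).length ≤ D)
    (S : List St) (hS : S.Nodup) (hS' : ∀ st ∈ S, ∃ L, Valid V A W K L ∧ stt V W L = st) :
    S.length ≤ (2 * V.length + 1) ^ W * 3 ^ (W * D) := by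
  set T1 : Finset (Fin W → Option (ℕ × Bool)) :=
    Fintype.piFinset (fun _ => insert none ((V.toFinset ×ˢ (Finset.univ : Finset Bool)).image some))
    with hT1
  set T2 : Finset (Fin (W * D) → Option Bool) := Finset.univ with hT2
  have hmap : ∀ st ∈ S.toFinset, code V A W D st ∈ T1 ×ˢ T2 := by
    intro st hst
    rw [List.mem_toFinset] at hst
    obtain ⟨L, hL, rfl⟩ := hS' st hst
    rw [Finset.mem_product]
    refine ⟨?_, Finset.mem_univ _⟩
    rw [hT1, Fintype.mem_piFinset]
    intro i
    change (L.take W)[(i : ℕ)]? ∈ _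
    rw [Finset.mem_insert]
    cases hx : (L.take W)[(i : ℕ)]? with
    | none => exact Or.inl rfl
    | some x =>
      right
      rw [Finset.mem_image]
      refine ⟨x, ?_, rfl⟩
      rw [Finset.mem_product]
      refine ⟨?_, Finset.mem_univ _⟩
      rw [List.mem_toFinset]
      exact hL.mem x (List.mem_of_mem_take (List.mem_of_getElem? hx))
  have hinj : Set.InjOn (code V A W D) S.toFinset := by
    intro st hst st' hst' hh
    rw [Finset.mem_coe, List.mem_toFinset] at hst hst'
    obtain ⟨L, hL, rfl⟩ := hS' st hst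
    obtain ⟨L', hL', rfl⟩ := hS' st' hst'
    exact code_inj hsym hW hc hD hL hL' hh
  have h1 := Finset.card_le_card_of_injOn _ hmap hinj
  rw [List.toFinset_card_of_nodup hS, Finset.card_product] at h1
  refine h1.trans (Nat.mul_le_mul ?_ ?_)
  · rw [hT1, Fintype.card_piFinset, Finset.prod_const, Finset.card_univ, Fintype.card_fin]
    refine Nat.pow_le_pow_left ?_ _
    refine (Finset.card_insert_le _ _).trans ?_
    refine Nat.succ_le_succ (Finset.card_image_le.trans ?_)
    rw [Finset.card_product, Finset.card_univ, Fintype.card_bool]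
    have := List.toFinset_card_le V
    omega
  · rw [hT2, Finset.card_univ]
    simp

end Pool.Agent.TH666.FP
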