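import Pool.Agent.TH666.FP.Band

/-!
# Orders of bounded bandwidth, built up vertex by vertex
-/

namespace Pool.Agent.TH666.FP

/-- the entry of a list at an index -/
def ge (L : List (ℕ × Bool)) (i : ℕ) : ℕ × Bool := L.getD i (0, false)

/-- crossing, for indices -/
def ICr (a b c d : ℕ) : Prop := (a < c ∧ d < b) ∨ (c < a ∧ b < d)

/-- The list (with the lines of the vertices) is a fan-planar drawing of the graph induced by its
vertices, in which all edges have span at most `K`. -/
def FanL (A : ℕ → ℕ → Prop) (K : ℕ) (L : List (ℕ × Bool)) : Prop :=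
  (∀ i < L.length, ∀ j < L.length, A (ge L i).1 (ge L j).1 →
    (ge L i).2 ≠ (ge L j).2 ∧ j ≤ i + K) ∧
  (∀ a < L.length, ∀ b < L.length, ∀ c < L.length, ∀ d < L.length, ∀ u < L.length,
    ∀ v < L.length, (ge L c).2 = (ge L a).2 → (ge L u).2 = (ge L a).2 →
    A (ge L a).1 (ge L b).1 → A (ge L c).1 (ge L d).1 → A (ge L u).1 (ge L v).1 →
    ICr a b c d → ICr a b u v → c = u ∨ d = v)

/-- vertices which are not among the last `W` ones have all their neighbours in the list -/
def Clo (V : List ℕ) (A : ℕ → ℕ → Prop) (W : ℕ) (L : List (ℕ × Bool)) : Prop :=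
  ∀ a ∈ V, a ∈ (L.drop W).map Prod.fst → ∀ b ∈ V, A a b → b ∈ L.map Prod.fst

/-- the partial orders built by the algorithm, the newest vertex in front -/
def Valid (V : List ℕ) (A : ℕ → ℕ → Prop) (W K : ℕ) : List (ℕ × Bool) → Prop
  | [] => True
  | x :: L => Valid V A W K L ∧ x.1 ∈ V ∧ x.1 ∉ L.map Prod.fst ∧ FanL A K (x :: L.take W) ∧
      Clo V A W (x :: L)

variable {V : List ℕ} {A : ℕ → ℕ → Prop} {W K : ℕ}

theorem Valid.mem {L : List (ℕ × Bool)} (h : Valid V A W K L) : ∀ x ∈ L, x.1 ∈ V := by
  induction L with
  | nil => simp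
  | cons x L ih =>
    obtain ⟨h1, h2, -⟩ := h
    intro y hy
    rcases List.mem_cons.1 hy with rfl | hy
    · exact h2
    · exact ih h1 y hy

theorem Valid.nodup {L : List (ℕ × Bool)} (h : Valid V A W K L) : (L.map Prod.fst).Nodup := by
  induction L with
  | nil => simp
  | cons x L ih =>
    obtain ⟨h1, h2, h3, -⟩ := h
    rw [List.map_cons, List.nodup_cons]
    exact ⟨h3, ih h1⟩

theorem Valid.drop {L : List (ℕ × Bool)} (h : Valid V A W K L) (i : ℕ) :
    Valid V A W K (L.drop i) := by
  induction i generalizing L with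
  | zero => exact h
  | succ i ih =>
    cases L with
    | nil => exact h
    | cons x L => exact ih h.1

theorem fanL_nil : FanL A K [] := by
  refine ⟨fun i hi => absurd hi (by simp), fun a ha => absurd ha (by simp)⟩

theorem Valid.window {L : List (ℕ × Bool)} (h : Valid V A W K L) (i : ℕ) :
    FanL A K ((L.drop i).take (W + 1)) := by
  have h1 := h.drop i
  cases hL : L.drop i with
  | nil => simpa using fanL_nil
  | cons x L' =>
    rw [hL] at h1
    rw [List.take_succ_cons]
    exact h1.2.2.2.1

theorem Valid.clo {L : List (ℕ × Bool)} (h : Valid V A W K L) (i : ℕ) :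
    Clo V A W (L.drop i) := by
  have h1 := h.drop i
  cases hL : L.drop i with
  | nil => intro a _ ha; simp at ha
  | cons x L' =>
    rw [hL] at h1
    exact h1.2.2.2.2

theorem ge_window (L : List (ℕ × Bool)) (m k n : ℕ) (hk : k < n) :
    ge ((L.drop m).take n) k = ge L (m + k) := by
  unfold ge
  rw [List.getD_eq_getElem?_getD, List.getD_eq_getElem?_getD, List.getElem?_take, if_pos hk,
    List.getElem?_drop]

/-- Soundness of the orders. -/
theorem sound (hsym : ∀ u v, A u v → A v u) (hV : V.Nodup) (hW : 3 * K ≤ W)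
    {L : List (ℕ × Bool)} (h : Valid V A W K L) (hlen : L.length = V.length) :
    Comb V.toFinset A := by
  have hnd := h.nodup
  have hperm : ∀ v, v ∈ V → v ∈ L.map Prod.fst := by
    have hsub : L.map Prod.fst ⊆ V := by
      intro v hv
      rw [List.mem_map] at hv
      obtain ⟨x, hx, rfl⟩ := hv
      exact h.mem x hx
    have hp : (L.map Prod.fst).Perm V := by
      refine (List.subperm_of_subset hnd hsub).perm_of_length_le ?_
      rw [List.length_map, hlen]
    intro v hv
    exact hp.mem_iff.2 hv
  set ix : ℕ → ℕ := fun v => (L.map Prod.fst).idxOf v with hix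
  have hixlt : ∀ v ∈ V, ix v < L.length := by
    intro v hv
    have := List.idxOf_lt_length_iff.2 (hperm v hv)
    rwa [List.length_map] at this
  have hget : ∀ v ∈ V, (ge L (ix v)).1 = v := by
    intro v hv
    have h1 := List.idxOf_lt_length_iff.2 (hperm v hv)
    have h2 : (L.map Prod.fst)[(L.map Prod.fst).idxOf v] = v := List.getElem_idxOf h1
    rw [List.getElem_map] at h2
    unfold ge
    rw [List.getD_eq_getElem?_getD, List.getElem?_eq_getElem (hixlt v hv)]
    exact h2
  have hspan0 : ∀ i < L.length, ∀ j < L.length, i ≤ j → A (ge L i).1 (ge L j).1 → j ≤ i + K := by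
    intro i hi j hj hij hA
    by_cases hc : j - i ≤ W
    · have h1 := (h.window i).1 0 (by simp; omega) (j - i) (by simp; omega)
      rw [ge_window L i 0 _ (by omega), ge_window L i (j - i) _ (by omega)] at h1
      have h2 := (h1 (by rw [Nat.add_zero, Nat.add_sub_cancel' hij]; exact hA)).2
      omega
    · exfalso
      have h1 := h.clo (i + 1)
      have hji : ge L j ∈ (L.drop (i + 1)).drop W := by
        rw [List.drop_drop, List.mem_iff_getElem?]
        refine ⟨j - (i + 1 + W), ?_⟩
        rw [List.getElem?_drop]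
        unfold ge
        have : i + 1 + W + (j - (i + 1 + W)) = j := by omega
        rw [this, List.getD_eq_getElem?_getD, List.getElem?_eq_getElem hj]
        rfl
      have hmem : ∀ k, k < L.length → ge L k ∈ L := by
        intro k hk
        unfold ge
        rw [List.getD_eq_getElem?_getD, List.getElem?_eq_getElem hk]
        exact List.getElem_mem hk
      have h2 := h1 (ge L j).1 (h.mem _ (hmem j hj)) (List.mem_map_of_mem hji) (ge L i).1
        (h.mem _ (hmem i hi)) (hsym _ _ hA)
      have h3 : (L.map Prod.fst).drop i = (ge L i).1 :: (L.map Prod.fst).drop (i + 1) := by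
        rw [← List.map_drop, List.drop_eq_getElem_cons hi, List.map_cons, List.map_drop]
        unfold ge
        rw [List.getD_eq_getElem?_getD, List.getElem?_eq_getElem hi]
        rfl
      have h4 : ((L.map Prod.fst).drop i).Nodup := hnd.sublist (List.drop_sublist _ _)
      rw [h3, List.nodup_cons, ← List.map_drop] at h4
      exact h4.1 h2
  have hspan : ∀ u ∈ V, ∀ v ∈ V, A u v → ix v ≤ ix u + K := by
    intro u hu v hv hA
    rcases le_total (ix u) (ix v) with h1 | h1
    · exact hspan0 _ (hixlt u hu) _ (hixlt v hv) h1 (by rw [hget u hu, hget v hv]; exact hA)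
    · omega
  refine ⟨fun v => (ge L (ix v)).2, fun v => (ix v : ℤ), ?_, ?_, ?_⟩
  · intro u hu v hv _ h2
    rw [List.mem_toFinset] at hu hv
    have h3 : ix u = ix v := by exact_mod_cast h2
    rw [← hget u hu, ← hget v hv, h3]
  · intro u hu v hv hA
    rw [List.mem_toFinset] at hu hv
    have gen : ∀ u ∈ V, ∀ v ∈ V, A u v → ix u ≤ ix v → (ge L (ix u)).2 ≠ (ge L (ix v)).2 := by
      intro u hu v hv hA hle
      have h0 := hspan u hu v hv hA
      have hi := hixlt u hu
      have hj := hixlt v hv
      have h1 := (h.window (ix u)).1 0 (by simp; omega) (ix v - ix u) (by simp; omega)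
      rw [ge_window L _ 0 _ (by omega), ge_window L _ (ix v - ix u) _ (by omega), Nat.add_zero,
        Nat.add_sub_cancel' hle, hget u hu, hget v hv] at h1
      exact (h1 hA).1
    rcases le_total (ix u) (ix v) with h1 | h1
    · exact gen u hu v hv hA h1
    · exact (gen v hv u hu (hsym _ _ hA) h1).symm
  · intro a ha b hb c hc d hd u hu v hv s1 s2 A1 A2 A3 c1 c2
    rw [List.mem_toFinset] at ha hb hc hd hu hv
    unfold Cr at c1 c2
    simp only [Nat.cast_lt] at c1 c2
    have e1 := hspan a ha b hb A1
    have e2 := hspan b hb a ha (hsym _ _ A1)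
    have e3 := hspan c hc d hd A2
    have e4 := hspan d hd c hc (hsym _ _ A2)
    have e5 := hspan u hu v hv A3
    have e6 := hspan v hv u hu (hsym _ _ A3)
    have l1 := hixlt a ha
    have l2 := hixlt b hb
    have l3 := hixlt c hc
    have l4 := hixlt d hd
    have l5 := hixlt u hu
    have l6 := hixlt v hv
    obtain ⟨m, hm⟩ : ∃ m, m = min (ix a) (ix b) - K := ⟨_, rfl⟩
    have r : (m ≤ ix a ∧ ix a ≤ m + 3 * K) ∧ (m ≤ ix b ∧ ix b ≤ m + 3 * K) ∧
        (m ≤ ix c ∧ ix c ≤ m + 3 * K) ∧ (m ≤ ix d ∧ ix d ≤ m + 3 * K) ∧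
        (m ≤ ix u ∧ ix u ≤ m + 3 * K) ∧ (m ≤ ix v ∧ ix v ≤ m + 3 * K) := by
      omega
    obtain ⟨ra, rb, rc, rd, ru, rv⟩ := r
    have hlen : ∀ i, i < L.length → m ≤ i → i ≤ m + 3 * K →
        i - m < ((L.drop m).take (W + 1)).length := by
      intro i hi h1 h2
      rw [List.length_take, List.length_drop]
      omega
    have hg : ∀ i, m ≤ i → i ≤ m + 3 * K → ge ((L.drop m).take (W + 1)) (i - m) = ge L i := by
      intro i h1 h2
      rw [ge_window L m (i - m) _ (by omega), Nat.add_sub_cancel' h1]
    have h1 := (h.window m).2 _ (hlen _ l1 ra.1 ra.2) _ (hlen _ l2 rb.1 rb.2)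
      _ (hlen _ l3 rc.1 rc.2) _ (hlen _ l4 rd.1 rd.2) _ (hlen _ l5 ru.1 ru.2)
      _ (hlen _ l6 rv.1 rv.2)
    rw [hg _ ra.1 ra.2, hg _ rb.1 rb.2, hg _ rc.1 rc.2, hg _ rd.1 rd.2, hg _ ru.1 ru.2,
      hg _ rv.1 rv.2, hget a ha, hget b hb, hget c hc, hget d hd, hget u hu, hget v hv] at h1
    have h2 := h1 s1 s2 A1 A2 A3 (by unfold ICr; omega) (by unfold ICr; omega)
    rcases h2 with h3 | h3
    · left
      have : ix c = ix u := by omega
      rw [← hget c hc, ← hget u hu, this]
    · right
      have : ix d = ix v := by omega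
      rw [← hget d hd, ← hget v hv, this]

theorem ge_eq_getElem {L : List (ℕ × Bool)} {i : ℕ} (hi : i < L.length) : ge L i = L[i] := by
  unfold ge
  rw [List.getD_eq_getElem?_getD, List.getElem?_eq_getElem hi]
  rfl

open Classical in
theorem fanL_of_pairwise {V : Finset ℕ} {s : ℕ → Bool} {q : ℕ → ℤ} {K0 : ℕ}
    (hdr : Dr V A s q)
    (hspan : ∀ u ∈ V, ∀ v ∈ V, A u v → (V.filter (fun z => q u ≤ q z ∧ q z ≤ q v)).card ≤ K0)
    (hK : K0 ≤ K) {w : List (ℕ × Bool)} (hw : w.Pairwise (fun x y => q x.1 < q y.1))
    (hwV : ∀ x ∈ w, x.1 ∈ V ∧ x.2 = s x.1) : FanL A K w := by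
  have hm : ∀ i, i < w.length → (ge w i).1 ∈ V ∧ (ge w i).2 = s (ge w i).1 := by
    intro i hi
    rw [ge_eq_getElem hi]
    exact hwV _ (List.getElem_mem hi)
  have hlt : ∀ i j, i < w.length → j < w.length → i < j → q (ge w i).1 < q (ge w j).1 := by
    intro i j hi hj hij
    rw [ge_eq_getElem hi, ge_eq_getElem hj]
    exact List.pairwise_iff_getElem.1 hw i j hi hj hij
  have hiff : ∀ i j, i < w.length → j < w.length → (i < j ↔ q (ge w i).1 < q (ge w j).1) := by
    intro i j hi hj
    refine ⟨hlt i j hi hj, fun h => ?_⟩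
    rcases lt_trichotomy i j with h1 | h1 | h1
    · exact h1
    · subst h1; omega
    · have := hlt j i hj hi h1; omega
  refine ⟨fun i hi j hj hA => ⟨?_, ?_⟩, ?_⟩
  · rw [(hm i hi).2, (hm j hj).2]
    exact hdr.bip _ (hm i hi).1 _ (hm j hj).1 hA
  · by_contra hcon
    have hij : i < j := by omega
    have h1 := hspan _ (hm i hi).1 _ (hm j hj).1 hA
    have h2 : (Finset.range (j - i + 1)).card ≤
        (V.filter (fun z => q (ge w i).1 ≤ q z ∧ q z ≤ q (ge w j).1)).card := by
      refine Finset.card_le_card_of_injOn (fun k => (ge w (i + k)).1) ?_ ?_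
      · intro k hk
        rw [Finset.mem_coe, Finset.mem_range] at hk
        have hk' : i + k < w.length := by omega
        rw [Finset.mem_coe, Finset.mem_filter]
        refine ⟨(hm _ hk').1, ?_, ?_⟩
        · rcases Nat.eq_zero_or_pos k with h0 | h0
          · subst h0; simp
          · exact (hlt i (i + k) hi hk' (by omega)).le
        · rcases Nat.lt_or_ge (i + k) j with h0 | h0
          · exact (hlt (i + k) j hk' hj h0).le
          · have : i + k = j := by omega
            change q (ge w (i + k)).1 ≤ q (ge w j).1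
            rw [this]
      · intro k hk k' hk' hh
        rw [Finset.mem_coe, Finset.mem_range] at hk hk'
        simp only at hh
        rcases lt_trichotomy k k' with h0 | h0 | h0
        · have := hlt (i + k) (i + k') (by omega) (by omega) (by omega)
          rw [hh] at this
          omega
        · exact h0
        · have := hlt (i + k') (i + k) (by omega) (by omega) (by omega)
          rw [hh] at this
          omega
    rw [Finset.card_range] at h2
    omega
  · intro a ha b hb c hc d hd u hu v hv s1 s2 A1 A2 A3 c1 c2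
    have hi1 := hiff a c ha hc
    have hi2 := hiff c a hc ha
    have hi3 := hiff b d hb hd
    have hi4 := hiff d b hd hb
    have hi5 := hiff a u ha hu
    have hi6 := hiff u a hu ha
    have hi7 := hiff b v hb hv
    have hi8 := hiff v b hv hb
    rw [(hm a ha).2, (hm c hc).2] at s1
    rw [(hm a ha).2, (hm u hu).2] at s2
    have := hdr.fan _ (hm a ha).1 _ (hm b hb).1 _ (hm c hc).1 _ (hm d hd).1 _ (hm u hu).1
      _ (hm v hv).1 s1 s2 A1 A2 A3 (by unfold ICr at c1; unfold Cr; omega)
      (by unfold ICr at c2; unfold Cr; omega)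
    have inj : ∀ i j, i < w.length → j < w.length → (ge w i).1 = (ge w j).1 → i = j := by
      intro i j hi hj hh
      rcases lt_trichotomy i j with h0 | h0 | h0
      · have := hlt i j hi hj h0; rw [hh] at this; omega
      · exact h0
      · have := hlt j i hj hi h0; rw [hh] at this; omega
    rcases this with h0 | h0
    · exact Or.inl (inj _ _ hc hu h0)
    · exact Or.inr (inj _ _ hd hv h0)

open Classical in
/-- Completeness of the orders. -/
theorem complete {s : ℕ → Bool} {q : ℕ → ℤ} {K0 : ℕ} (hV : V.Nodup)
    (hinj : ∀ u ∈ V, ∀ v ∈ V, q u = q v → u = v)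
    (hdr : Dr V.toFinset A s q)
    (hspan : ∀ u ∈ V, ∀ v ∈ V, A u v →
      (V.toFinset.filter (fun z => q u ≤ q z ∧ q z ≤ q v)).card ≤ K0)
    (hsym : ∀ u v, A u v → A v u)
    (hK : K0 ≤ K) (hW : K0 ≤ W) :
    ∃ L, Valid V A W K L ∧ L.length = V.length := by
  obtain ⟨Q, hQp, hQs⟩ : ∃ Q : List ℕ, Q.Perm V ∧ Q.Pairwise (fun a b => q a < q b) := by
    have hs : (V.mergeSort (fun a b => decide (q a ≤ q b))).Pairwise
        (fun a b => decide (q a ≤ q b) = true) := by
      refine List.pairwise_mergeSort ?_ ?_ V
      · intro a b c h1 h2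
        rw [decide_eq_true_eq] at *
        omega
      · intro a b
        rw [Bool.or_eq_true, decide_eq_true_eq, decide_eq_true_eq]
        omega
    have hp := List.mergeSort_perm V (fun a b => decide (q a ≤ q b))
    refine ⟨_, hp, ?_⟩
    have hnd := hp.nodup_iff.2 hV
    have h1 := List.Pairwise.and hs hnd
    refine h1.imp_of_mem ?_
    intro a b ha hb hab
    have ha' := hp.mem_iff.1 ha
    have hb' := hp.mem_iff.1 hb
    rw [decide_eq_true_eq] at hab
    refine lt_of_le_of_ne hab.1 fun hh => hab.2 (hinj a ha' b hb' hh)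
  set L : List (ℕ × Bool) := Q.map (fun v => (v, s v)) with hL
  have hfst : L.map Prod.fst = Q := by
    rw [hL, List.map_map]
    exact List.map_id' _
  have hLs : L.Pairwise (fun x y => q x.1 < q y.1) := by
    rw [hL, List.pairwise_map]
    exact hQs
  have hLV : ∀ x ∈ L, x.1 ∈ V ∧ x.2 = s x.1 := by
    intro x hx
    rw [hL, List.mem_map] at hx
    obtain ⟨v, hv, rfl⟩ := hx
    exact ⟨hQp.mem_iff.1 hv, rfl⟩
  have hspan' : ∀ u ∈ V.toFinset, ∀ v ∈ V.toFinset, A u v →
      (V.toFinset.filter (fun z => q u ≤ q z ∧ q z ≤ q v)).card ≤ K0 := by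
    intro u hu v hv
    rw [List.mem_toFinset] at hu hv
    exact hspan u hu v hv
  have key : ∀ L', L' <:+ L → Valid V A W K L' := by
    intro L'
    induction L' with
    | nil => intro _; trivial
    | cons x L' ih =>
      intro hsuf
      have hsub : (x :: L').Sublist L := hsuf.sublist
      have hpw := hLs.sublist hsub
      have hmem : ∀ y ∈ x :: L', y.1 ∈ V ∧ y.2 = s y.1 := fun y hy => hLV y (hsub.subset hy)
      refine ⟨ih ((List.suffix_cons x L').trans hsuf), (hmem x (by simp)).1, ?_, ?_, ?_⟩
      · intro hx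
        rw [List.mem_map] at hx
        obtain ⟨y, hy, hxy⟩ := hx
        have := (List.pairwise_cons.1 hpw).1 y hy
        rw [hxy] at this
        omega
      · have hsub2 : (x :: L'.take W).Sublist (x :: L') := (List.take_sublist W L').cons_cons x
        refine fanL_of_pairwise hdr hspan' hK (hpw.sublist hsub2) ?_
        intro y hy
        have := hmem y (hsub2.subset hy)
        rw [List.mem_toFinset]
        exact this
      · intro a haV ha b hbV hab
        by_contra hb
        obtain ⟨X, hX⟩ := hsuf
        have hbL : (b, s b) ∈ L := by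
          rw [hL, List.mem_map]
          exact ⟨b, hQp.mem_iff.2 hbV, rfl⟩
        rw [← hX, List.mem_append] at hbL
        have hbX : (b, s b) ∈ X := by
          rcases hbL with h1 | h1
          · exact h1
          · exact absurd (List.mem_map_of_mem (f := Prod.fst) h1) hb
        have hpX : (X ++ x :: L').Pairwise (fun x y => q x.1 < q y.1) := by rw [hX]; exact hLs
        rw [List.pairwise_append] at hpX
        have hlow : ∀ y ∈ x :: L', q b < q y.1 := fun y hy => hpX.2.2 _ hbX y hy
        rw [List.mem_map] at ha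
        obtain ⟨y, hy, rfl⟩ := ha
        have hsplit : (x :: L').take W ++ (x :: L').drop W = x :: L' := List.take_append_drop _ _
        have hpS : ((x :: L').take W ++ (x :: L').drop W).Pairwise (fun x y => q x.1 < q y.1) := by
          rw [hsplit]; exact hpw
        rw [List.pairwise_append] at hpS
        have hup : ∀ z ∈ (x :: L').take W, q z.1 < q y.1 := fun z hz => hpS.2.2 z hz y hy
        have hlenW : ((x :: L').take W).length = W := by
          rw [List.length_take, min_eq_left]
          have : 0 < ((x :: L').drop W).length := List.length_pos_of_mem hy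
          rw [List.length_drop] at this
          omega
        have hndT : (((x :: L').take W).map Prod.fst).Nodup := by
          rw [List.Nodup, List.pairwise_map]
          refine hpS.1.imp ?_
          intro z z' hz hh
          rw [hh] at hz
          omega
        have h1 := hspan b hbV y.1 haV (hsym _ _ hab)
        have h2 : insert b (((x :: L').take W).map Prod.fst).toFinset ⊆
            V.toFinset.filter (fun z => q b ≤ q z ∧ q z ≤ q y.1) := by
          intro z hz
          rw [Finset.mem_insert, List.mem_toFinset] at hz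
          rw [Finset.mem_filter, List.mem_toFinset]
          rcases hz with rfl | hz
          · exact ⟨hbV, le_rfl, (hlow y (List.mem_of_mem_drop hy)).le⟩
          · rw [List.mem_map] at hz
            obtain ⟨z', hz', rfl⟩ := hz
            exact ⟨(hmem z' (List.mem_of_mem_take hz')).1, (hlow z' (List.mem_of_mem_take hz')).le,
              (hup z' hz').le⟩
        have h3 := Finset.card_le_card h2
        rw [Finset.card_insert_of_notMem, List.toFinset_card_of_nodup hndT, List.length_map,
          hlenW] at h3
        · omega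
        · rw [List.mem_toFinset, List.mem_map]
          rintro ⟨z, hz, hzb⟩
          have := hlow z (List.mem_of_mem_take hz)
          rw [hzb] at this
          omega
  refine ⟨L, key L (List.suffix_refl L), ?_⟩
  rw [hL, List.length_map]
  exact hQp.length_eq

end Pool.Agent.TH666.FP
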